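import Pool.Agent.SCZ.Geo.TquoP
import Pool.Agent.H59Z.NA.Telec
import Pool.Agent.H59Z.NA.Tbow
import Pool.Agent.H59Z.NA.Twind

set_option autoImplicit false

namespace Pool.Agent.SCZ.Geo

open Pool.Agent.H59Z.NA

/-- The quotient geometry exists (unconditional form). -/
theorem pack_holds : S_pack := by
  intro Q V I _ _ _ X δ L F hV hX h4 hδ hL
  obtain ⟨E, hE⟩ := thm_elec thm_hyp thm_bow Q V I X δ L F hX h4 hδ hL
  refine thm_quoP Q V I X L F E hV hX hL hE ?_
  refine thm_wind Q V I X L F E hX hL hE Q (MonoidHom.id Q) _ ?_ ?_ ?_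
  · intro g i h hh
    obtain ⟨e, rfl⟩ := Subgroup.mem_zpowers_iff.1 hh
    refine Subgroup.mem_zpowers_iff.2 ⟨e, ?_⟩
    simp only [MonoidHom.id_apply, F.gen_smul, F.mu_smul, conj_pow, conj_zpow]
  · intro i h hh; exact hh
  · intro i h _ h1; exact h1

end Pool.Agent.SCZ.Geo
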