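import Pool.Agent.SCZ.Geo.Rel

set_option autoImplicit false

namespace Pool.Agent.SCZ.Geo

open Pool.Agent.H59Z.NA

namespace Tbase0

variable {Q V : Type} [Group Q] [MulAction Q V]

theorem dich (h4 : S_basic) (X : GM V) (hne : Nonempty V) (hI : X.Inv Q) (hF : X.Four 0) (g : Q) :
    Ell X g ∨ 1 ≤ X.tau g := by
  classical
  have hex : ∃ l : ℕ, ∃ x : V, X.d x (g • x) = l := by
    obtain ⟨x⟩ := hne
    exact ⟨_, x, rfl⟩
  obtain ⟨x, hx⟩ := Nat.find_spec hex
  set l := Nat.find hex with hl
  have hmin : ∀ y : V, l ≤ X.d y (g • y) := fun y => Nat.find_min' hex ⟨y, rfl⟩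
  by_cases hs : l < X.d x ((g ^ 2) • x)
  · right
    have h1 := (h4 Q V X 0 hI hF).1 g x
    have h2 : ((l + 1 : ℕ) : ℝ) ≤ X.d x ((g ^ 2) • x) := by exact_mod_cast hs
    rw [hx] at h1
    push_cast at h1 h2
    linarith
  left
  push Not at hs
  have hgg : (g ^ 2) • x = g • g • x := by rw [sq, mul_smul]
  have hl1 : l ≤ 1 := by
    obtain ⟨y, hy1, hy2⟩ := X.geo x (g • x) (l / 2) (by omega)
    have e1 := hI g x y
    have e2 := hI g y (g • x)
    have e3 := hI g x (g • x)
    have m1 := hmin y
    have f1 := hF x (g • x) y (g • y)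
    have f2 := hF x (g • y) (g • x) (g • g • x)
    have c1 := X.comm (g • x) y
    have c2 := X.comm (g • y) (g • x)
    rw [hgg] at hs
    omega
  have key : ∀ n : ℕ, X.d x ((g ^ n) • x) ≤ 1 ∧ X.d x ((g ^ (n + 1)) • x) ≤ 1 := by
    intro n
    induction n with
    | zero =>
      constructor
      · simp [X.self]
      · simp only [zero_add, pow_one]; omega
    | succ n ih =>
      refine ⟨ih.2, ?_⟩
      have f1 := hF x ((g ^ (n + 1 + 1)) • x) (g • x) ((g ^ (n + 1)) • x)
      have e1 : X.d (g • x) ((g ^ (n + 1)) • x) = X.d x ((g ^ n) • x) := by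
        rw [pow_succ', mul_smul, hI]
      have e2 : X.d ((g ^ (n + 1 + 1)) • x) ((g ^ (n + 1)) • x) = X.d x (g • x) := by
        rw [X.comm, pow_succ g (n + 1), mul_smul, hI]
      have e3 : X.d ((g ^ (n + 1 + 1)) • x) (g • x) = X.d x ((g ^ (n + 1)) • x) := by
        rw [X.comm, pow_succ' g (n + 1), mul_smul, hI]
      have e4 : X.d ((g ^ 2) • x) ((g ^ (n + 1 + 1)) • x) = X.d x ((g ^ n) • x) := by
        rw [show n + 1 + 1 = 2 + n by omega, pow_add, mul_smul, hI]
      have t1 := X.tri x ((g ^ 2) • x) ((g ^ (n + 1 + 1)) • x)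
      obtain ⟨i1, i2⟩ := ih
      omega
  refine ⟨x, 1, fun h hh => ?_⟩
  obtain ⟨k, rfl⟩ := Subgroup.mem_zpowers_iff.1 hh
  obtain ⟨n, rfl | rfl⟩ := Int.eq_nat_or_neg k
  · rw [zpow_natCast]; exact (key n).1
  · rw [zpow_neg, zpow_natCast, ← hI (g ^ n), smul_inv_smul, X.comm]
    exact (key n).1

theorem far (h1 : S_tau) (X : GM V) (hI : X.Inv Q) (u : Q) (hu : 0 < X.tau u) (x : V) (B : ℕ) :
    ∃ N : ℕ, B ≤ X.d x ((u ^ N) • x) := by
  obtain ⟨N, hN⟩ := exists_nat_ge ((B : ℝ) / X.tau u)
  rw [div_le_iff₀ hu] at hN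
  have := (h1 Q V X hI).1 u x N
  refine ⟨N, ?_⟩
  have h : (B : ℝ) ≤ X.d x ((u ^ N) • x) := by linarith
  exact_mod_cast h

theorem disp (X : GM V) (hI : X.Inv Q) (a u : Q) (h : Commute a u) (x : V) (N : ℕ) :
    X.d ((u ^ N) • x) (a • (u ^ N) • x) = X.d x (a • x) := by
  rw [smul_smul, (h.pow_right N).eq, mul_smul, hI]

end Tbase0

open Tbase0 in
theorem thm_base0 (h1 : S_tau) (h2 : S_comm) (h3 : S_lox) (h4 : S_basic) (h5 : S_scale) :
    S_base0 := by
  intro Q V _ _ X k hne hI hF hfix hinv δ A hA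
  have hthin0 : Thin X Q (12 * 0) k := fun g x y hx hy hk =>
    Or.inl (hfix g x y (by omega) (by omega) hk)
  have hacyl0 : X.Acyl Q (12 * 0) k := fun g h x y hx hy _ _ hk => by
    rw [hfix g x y (by omega) (by omega) hk]
    exact Commute.one_left h
  obtain ⟨s1, s2⟩ := h5 Q V X 0 k hI hF hthin0
  have hd := dich h4 X hne hI hF
  have hlox : ∀ u : Q, 0 < X.tau u →
      (∃ g : Q, ∀ a : Q, Commute a u → a ∈ Subgroup.zpowers g) ∧
      ∀ t : Q, Commute u (t * u * t⁻¹) → Commute t u := by
    intro u hu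
    obtain ⟨x⟩ := hne
    have hu1 : u ≠ 1 := by
      rintro rfl
      have := (h1 Q V X hI).2.2.2.1 1 0
      simp only [zpow_zero, Int.cast_zero, abs_zero, zero_mul] at this
      exact hu.ne' this
    refine h3 Q V X 0 1 hI hF one_pos hinv u hu1 ?_ ?_
    · intro a b ha hb
      set D := max (X.d x (a • x)) (X.d x (b • x)) with hD
      have d1 : X.d x (a • x) ≤ D := le_max_left _ _
      have d2 : X.d x (b • x) ≤ D := le_max_right _ _
      obtain ⟨N, hN⟩ := far h1 X hI u hu x (k + 20 * D)
      have d3 := disp X hI a u ha x N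
      have d4 := disp X hI b u hb x N
      set y := (u ^ N) • x with hy
      obtain ⟨z₁, a1, a2⟩ := X.geo x y (10 * D) (by omega)
      obtain ⟨z₂, b1, b2⟩ := X.geo x y (X.d x y - 10 * D) (by omega)
      have c1 := (h2 Q V X 0 hI hF a b x y z₁ D d1 (by omega) d2 (by omega) (by omega)
        (by omega) (by omega)).1
      have c2 := (h2 Q V X 0 hI hF a b x y z₂ D d1 (by omega) d2 (by omega) (by omega)
        (by omega) (by omega)).1
      have t1 := X.tri x z₁ z₂
      have := hfix (a * b * a⁻¹ * b⁻¹) z₁ z₂ (by omega) (by omega) (by omega)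
      exact commutatorElement_eq_one_iff_commute.1 this
    · intro a ha ha1
      obtain ⟨N, hN⟩ := far h1 X hI u hu x (k + 20 * X.d x (a • x) + 40 * 0)
      have d3 := disp X hI a u ha x N
      rcases s1 (X.d x (a • x)) a x _ le_rfl d3.le hN with h | h
      · exact absurd h ha1
      · rcases hd a with h' | h'
        · exact absurd ((h4 Q V X 0 hI hF).2.2.1 a h') h.ne'
        · exact h'
  have hc : CycL X Q := fun u hu => (hlox u hu).1
  have hm : MalL X Q := fun u t hu => (hlox u hu).2 t
  exact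
    { ne := hne
      inv := hI
      four := fun x y z w => le_trans (hF x y z w) (by omega)
      dich := hd
      noinv := hinv
      cyc := hc
      mal := hm
      acyl := fun g h x y a1 a2 a3 a4 a5 =>
        s2 hc hm hacyl0 (12 * δ) g h x y a1 a2 a3 a4 (by omega)
      thin := fun g x y a1 a2 a3 => s1 (12 * δ) g x y a1 a2 (by omega) }

namespace Tbase0

open Classical in
/-- The discrete metric. -/
noncomputable def disc (M : Type) : GM M where
  d x y := if x = y then 0 else 1
  self x := by simp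
  comm x y := by simp only [eq_comm]
  tri x y z := by
    by_cases h1 : x = y <;> by_cases h2 : y = z <;> by_cases h3 : x = z <;> simp_all
  geo x y t ht := by
    by_cases h : x = y
    · subst h
      have ht0 : t = 0 := by simpa using ht
      subst ht0
      exact ⟨x, by simp, by simp⟩
    · simp only [h, if_false] at ht
      rcases Nat.le_one_iff_eq_zero_or_eq_one.1 ht with rfl | rfl
      · exact ⟨x, by simp, by simp⟩
      · exact ⟨y, by simp [h], by simp [h]⟩

/-- The line. -/
def line : GM (Multiplicative ℤ) where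
  d x y := (Multiplicative.toAdd x - Multiplicative.toAdd y).natAbs
  self x := by simp
  comm x y := by omega
  tri x y z := by omega
  geo x y t ht := by
    by_cases h : Multiplicative.toAdd x ≤ Multiplicative.toAdd y
    · refine ⟨Multiplicative.ofAdd (Multiplicative.toAdd x + t), ?_, ?_⟩ <;>
        simp only [toAdd_ofAdd] <;> omega
    · refine ⟨Multiplicative.ofAdd (Multiplicative.toAdd x - t), ?_, ?_⟩ <;>
        simp only [toAdd_ofAdd] <;> omega

end Tbase0

open Tbase0 in
theorem thm_clique : S_clique := by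
  classical
  refine ⟨fun M _ => ⟨disc M, ?_, ?_, ?_, ?_⟩, line, ?_, ?_, fun _ _ => rfl⟩
  · intro g x y
    simp [disc]
  · intro x y z w
    simp only [disc]
    by_cases h1 : x = y <;> by_cases h2 : z = w <;> by_cases h3 : x = z <;>
      by_cases h4 : y = w <;> by_cases h5 : x = w <;> by_cases h6 : y = z <;> simp_all
  · intro x y h
    by_contra hne
    simp [disc, hne] at h
  · intro x y
    simp only [disc]
    split_ifs <;> simp
  · intro g x y
    simp only [line, smul_eq_mul, toAdd_mul]
    congr 1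
    ring
  · intro x y z w
    simp only [line]
    omega

end Pool.Agent.SCZ.Geo
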