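import Pool.Agent.SCZ.Geo.Rel

set_option autoImplicit false

namespace Pool.Agent.SCZ.Geo

open Pool.Agent.H59Z.NA

namespace Tbasic

variable {Q V : Type} [Group Q] [MulAction Q V] (X : GM V) (δ : ℕ)

theorem one (hI : X.Inv Q) (hF : X.Four δ) (h : Q) (x : V)
    (hpos : X.d x (h • x) + δ < X.d x ((h ^ 2) • x)) (k : ℕ) :
    X.d x (h ^ k • x) + X.d x ((h ^ 2) • x) ≤ X.d x (h ^ (k + 1) • x) + X.d x (h • x) + δ := by
  induction k with
  | zero =>
    have h1 := X.tri x (h • x) ((h ^ 2) • x)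
    have h2 : X.d (h • x) ((h ^ 2) • x) = X.d x (h • x) := by
      rw [pow_two, mul_smul, hI]
    simp only [pow_zero, one_smul, X.self, zero_add, pow_one]
    omega
  | succ k ih =>
    have h1 := hF x (h ^ (k + 1) • x) (h ^ k • x) (h ^ (k + 1 + 1) • x)
    have h2 : X.d (h ^ k • x) (h ^ (k + 1 + 1) • x) = X.d x ((h ^ 2) • x) := by
      rw [show k + 1 + 1 = k + 2 by ring, pow_add, mul_smul, hI]
    have h3 : X.d (h ^ (k + 1) • x) (h ^ (k + 1 + 1) • x) = X.d x (h • x) := by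
      rw [pow_succ h (k + 1), mul_smul, hI]
    have h4 : X.d (h ^ (k + 1) • x) (h ^ k • x) = X.d x (h • x) := by
      rw [X.comm, pow_succ h k, mul_smul, hI]
    rw [h2, h3, h4] at h1
    omega

theorem four (hF : X.Four δ) (m θ : ℕ) : ∀ (e : ℕ) (z : ℕ → V) (a : V),
    (∀ k, X.d (z k) (z (k + 1)) ≤ θ) →
    X.d (z 0) a + X.d a (z (2 ^ m)) ≤ X.d (z 0) (z (2 ^ m)) + e →
    ∃ k, k ≤ 2 ^ m ∧ 2 * X.d a (z k) ≤ θ + e + m * δ := by
  induction m with
  | zero =>
    intro e z a hz h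
    have h1 := hz 0
    have h2 := X.comm (z 0) a
    simp only [pow_zero, zero_add] at h h1 ⊢
    rcases le_total (X.d a (z 0)) (X.d a (z 1)) with h3 | h3
    · exact ⟨0, by omega, by omega⟩
    · exact ⟨1, by omega, by omega⟩
  | succ m ih =>
    intro e z a hz h
    have h1 := hF (z 0) a (z (2 ^ (m + 1))) (z (2 ^ m))
    have h1' := hF (z 0) (z (2 ^ (m + 1))) a (z (2 ^ m))
    have c1 := X.comm a (z (2 ^ m))
    have c2 := X.comm (z (2 ^ (m + 1))) (z (2 ^ m))
    have c3 := X.comm (z (2 ^ (m + 1))) a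
    have hp : 2 ^ (m + 1) = 2 ^ m + 2 ^ m := by ring
    rcases le_total (X.d (z 0) a + X.d (z (2 ^ (m + 1))) (z (2 ^ m)))
      (X.d (z 0) (z (2 ^ m)) + X.d (z (2 ^ (m + 1))) a) with h3 | h3
    · obtain ⟨k, hk, hk2⟩ := ih (e + δ) z a hz (by omega)
      exact ⟨k, by omega, by rw [add_mul]; omega⟩
    · obtain ⟨k, hk, hk2⟩ := ih (e + δ) (fun k => z (2 ^ m + k)) a (fun k => hz _) (by
        simp only [add_zero, ← hp]
        omega)
      exact ⟨2 ^ m + k, by omega, by rw [add_mul]; omega⟩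

end Tbasic

theorem thm_basic (h1 : S_tau) : S_basic := by
  intro Q V _ _ X δ hI hF
  obtain ⟨t1, t2, -, -, -, t6, -⟩ := h1 Q V X hI
  refine ⟨fun h x => ?_, fun H hH => ?_, fun g hg => ?_, fun m θ e z a => Tbasic.four X δ hF m θ e z a⟩
  · by_cases hpos : X.d x (h • x) + δ < X.d x ((h ^ 2) • x)
    · refine t6 h x _ 0 fun m => ?_
      rw [add_zero]
      induction m with
      | zero => simp
      | succ m ih =>
        have h2 : (X.d x (h ^ m • x) : ℝ) + X.d x ((h ^ 2) • x) ≤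
            X.d x (h ^ (m + 1) • x) + X.d x (h • x) + δ := by
          exact_mod_cast Tbasic.one X δ hI hF h x hpos m
        push_cast
        linarith
    · have h2 : (X.d x ((h ^ 2) • x) : ℝ) ≤ X.d x (h • x) + δ := by exact_mod_cast not_lt.1 hpos
      linarith [t2 h]
  · classical
    obtain ⟨x, r, hx⟩ := hH
    have hex : ∃ ρ : ℕ, ∃ y, ∀ h ∈ H, X.d y (h • x) ≤ ρ := ⟨r, x, hx⟩
    obtain ⟨y, hy⟩ := Nat.find_spec hex
    refine ⟨y, fun h hh => ?_⟩
    have hy' : ∀ g ∈ H, X.d (h • y) (g • x) ≤ Nat.find hex := by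
      intro g hg
      have := hy (h⁻¹ * g) (H.mul_mem (H.inv_mem hh) hg)
      rwa [← hI h, ← mul_smul, mul_inv_cancel_left] at this
    obtain ⟨m, hm1, hm2⟩ := X.geo y (h • y) (X.d y (h • y) / 2) (Nat.div_le_self _ _)
    by_contra hcon
    have hlt : ∀ g ∈ H, X.d m (g • x) < Nat.find hex := by
      intro g hg
      have f := hF m (g • x) y (h • y)
      have a1 := hy g hg
      have a2 := hy' g hg
      have c1 := X.comm m y
      have c2 := X.comm (g • x) (h • y)
      have c3 := X.comm (g • x) y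
      omega
    have h0 := hlt 1 H.one_mem
    exact Nat.find_min hex (show Nat.find hex - 1 < Nat.find hex by omega)
      ⟨m, fun g hg => by have := hlt g hg; omega⟩
  · obtain ⟨x, r, hx⟩ := hg
    refine le_antisymm ?_ (t2 g)
    by_contra hpos
    push Not at hpos
    obtain ⟨m, hm⟩ := exists_nat_gt (r / X.tau g)
    have h2 := t1 g x m
    have h3 : (X.d x (g ^ m • x) : ℝ) ≤ r := by
      exact_mod_cast hx _ (Subgroup.npow_mem_zpowers g m)
    rw [div_lt_iff₀ hpos] at hm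
    linarith

end Pool.Agent.SCZ.Geo
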