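import Pool.Agent.SCZ.Geo.Rel

set_option autoImplicit false

/-!
# Free products: the metric given by the sum of the lengths of the syllables
-/

namespace Pool.Agent.SCZ.Geo

open Pool.Agent.H59Z.NA Monoid

namespace Tcoprod

variable {ι : Type} {M : ι → Type} [∀ i, Group (M i)] (X : ∀ i, GM (M i))

/-- Reduced lists of syllables. -/
def Red (l : List (Σ i, M i)) : Prop :=
  (∀ x ∈ l, Sigma.snd x ≠ 1) ∧ l.IsChain (fun a b => Sigma.fst a ≠ Sigma.fst b)

/-- The product of a list of syllables. -/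
def pr (l : List (Σ i, M i)) : CoprodI M := (l.map fun x => CoprodI.of x.snd).prod

/-- The weight of a syllable. -/
def w (x : Σ i, M i) : ℕ := (X x.1).d 1 x.2

/-- The weight of a list. -/
def wt (l : List (Σ i, M i)) : ℕ := (l.map (w X)).sum

open Classical in
/-- The normal form. -/
noncomputable def nf (g : CoprodI M) : List (Σ i, M i) := (CoprodI.Word.equiv g).toList

/-- The length of an element. -/
noncomputable def len (g : CoprodI M) : ℕ := wt X (nf g)

theorem red_nf (g : CoprodI M) : Red (nf g) := by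
  classical
  exact ⟨(CoprodI.Word.equiv g).ne_one, (CoprodI.Word.equiv g).chain_ne⟩

theorem pr_nf (g : CoprodI M) : pr (nf g) = g := by
  classical
  exact CoprodI.Word.equiv.left_inv g

theorem nf_pr {l : List (Σ i, M i)} (h : Red l) : nf (pr l) = l := by
  classical
  have := CoprodI.Word.equiv.right_inv (⟨l, h.1, h.2⟩ : CoprodI.Word M)
  exact congrArg CoprodI.Word.toList this

theorem len_pr {l : List (Σ i, M i)} (h : Red l) : len X (pr l) = wt X l := by
  rw [len, nf_pr h]

theorem pr_nil : pr ([] : List (Σ i, M i)) = 1 := rfl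

theorem pr_cons (x : Σ i, M i) (l : List (Σ i, M i)) : pr (x :: l) = CoprodI.of x.2 * pr l := by
  simp [pr]

theorem pr_append (l l' : List (Σ i, M i)) : pr (l ++ l') = pr l * pr l' := by simp [pr]

theorem wt_nil : wt X [] = 0 := rfl

theorem wt_cons (x : Σ i, M i) (l : List (Σ i, M i)) : wt X (x :: l) = w X x + wt X l := by
  simp [wt]

theorem wt_append (l l' : List (Σ i, M i)) : wt X (l ++ l') = wt X l + wt X l' := by simp [wt]

theorem red_nil : Red ([] : List (Σ i, M i)) := ⟨by simp, List.IsChain.nil⟩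

theorem Red.tail {x : Σ i, M i} {l : List (Σ i, M i)} (h : Red (x :: l)) : Red l :=
  ⟨fun y hy => h.1 y (List.mem_cons_of_mem _ hy), h.2.tail⟩

theorem Red.head {x : Σ i, M i} {l : List (Σ i, M i)} (h : Red (x :: l)) :
    ∀ y ∈ l.head?, x.1 ≠ y.1 := (List.isChain_cons.1 h.2).1

theorem Red.cons {x : Σ i, M i} {l : List (Σ i, M i)} (hx : x.2 ≠ 1) (h : Red l)
    (hh : ∀ y ∈ l.head?, x.1 ≠ y.1) : Red (x :: l) := by
  refine ⟨?_, List.isChain_cons.2 ⟨hh, h.2⟩⟩
  intro y hy
  rcases List.mem_cons.1 hy with rfl | hy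
  · exact hx
  · exact h.1 y hy

theorem len_one : len X 1 = 0 := len_pr X red_nil

variable {X}

theorem d_inv (hI : ∀ i, (X i).Inv (M i)) {i : ι} (x y : M i) :
    (X i).d 1 (x⁻¹ * y) = (X i).d x y := by
  have := hI i x 1 (x⁻¹ * y)
  simpa using this.symm

theorem len_of_mul {i : ι} (m : M i) {l : List (Σ i, M i)} (h : Red l)
    (hh : ∀ y ∈ l.head?, i ≠ y.1) : len X (CoprodI.of m * pr l) = (X i).d 1 m + wt X l := by
  by_cases hm : m = 1
  · subst hm
    rw [map_one, one_mul, len_pr X h, (X i).self, zero_add]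
  · have := len_pr X (Red.cons (x := ⟨i, m⟩) hm h hh)
    rwa [pr_cons, wt_cons] at this

theorem len_of {i : ι} (m : M i) : len X (CoprodI.of m) = (X i).d 1 m := by
  have := len_of_mul (X := X) m red_nil (by simp)
  rwa [pr_nil, mul_one, wt_nil, add_zero] at this

/-- Two reduced lists starting in different factors do not cancel. -/
theorem len_inv_mul (hI : ∀ i, (X i).Inv (M i)) :
    ∀ (u v : List (Σ i, M i)), Red u → Red v → (∀ x ∈ u.head?, ∀ y ∈ v.head?, x.1 ≠ y.1) →
      len X ((pr u)⁻¹ * pr v) = wt X u + wt X v := by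
  intro u
  induction u with
  | nil => intro v _ hv _; rw [pr_nil, inv_one, one_mul, len_pr X hv, wt_nil, zero_add]
  | cons x u ih =>
    intro v hu hv h
    have h1 : Red (⟨x.1, x.2⁻¹⟩ :: v) :=
      Red.cons (inv_ne_one.2 (hu.1 x List.mem_cons_self)) hv (h x rfl)
    have h2 := ih _ hu.tail h1 (by
      intro a ha b hb
      obtain rfl : (⟨x.1, x.2⁻¹⟩ : Σ i, M i) = b := by simpa using hb
      exact (hu.head a ha).symm)
    have h3 : w X ⟨x.1, x.2⁻¹⟩ = w X x := by
      have := d_inv hI x.2 1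
      rw [mul_one] at this
      exact this.trans ((X x.1).comm _ _)
    rw [pr_cons, wt_cons, h3, map_inv] at h2
    rw [pr_cons, mul_inv_rev, mul_assoc, h2, wt_cons]
    omega

variable (X)

open Classical in
/-- The distance of two syllables. -/
noncomputable def e (x y : Σ i, M i) : ℕ :=
  if h : x.1 = y.1 then (X y.1).d (h ▸ x.2) y.2 else w X x + w X y

theorem e_same {i : ι} (x y : M i) : e X ⟨i, x⟩ ⟨i, y⟩ = (X i).d x y := by simp [e]

theorem e_diff {x y : Σ i, M i} (h : x.1 ≠ y.1) : e X x y = w X x + w X y := by simp [e, h]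

theorem e_comm (x y : Σ i, M i) : e X x y = e X y x := by
  obtain ⟨i, x⟩ := x
  obtain ⟨j, y⟩ := y
  by_cases h : i = j
  · subst h; rw [e_same, e_same, (X i).comm]
  · rw [e_diff X h, e_diff X (Ne.symm h), add_comm]

theorem e_le (x y : Σ i, M i) : e X x y ≤ w X x + w X y := by
  obtain ⟨i, x⟩ := x
  obtain ⟨j, y⟩ := y
  by_cases h : i = j
  · subst h
    rw [e_same, w, w, (X i).comm 1 x]
    exact (X i).tri _ _ _
  · rw [e_diff X h]

theorem le_e (x y : Σ i, M i) : w X y ≤ e X x y + w X x := by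
  obtain ⟨i, x⟩ := x
  obtain ⟨j, y⟩ := y
  by_cases h : i = j
  · subst h
    rw [e_same, w, w, add_comm]
    exact (X i).tri _ _ _
  · rw [e_diff X h]; omega

theorem e_four (h4 : ∀ i, (X i).Four 0) (a b c : Σ i, M i) :
    e X a b + w X c ≤ max (e X a c + w X b) (w X a + e X b c) := by
  by_cases h1 : a.1 = c.1
  · by_cases h2 : b.1 = c.1
    · obtain ⟨i, a⟩ := a
      obtain ⟨j, b⟩ := b
      obtain ⟨k, c⟩ := c
      dsimp only at h1 h2
      subst h1 h2
      have := h4 j a b c 1
      simp only [e_same, w]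
      rw [(X j).comm 1 c, (X j).comm 1 b, (X j).comm 1 a]
      simpa using this
    · have := e_le X a b
      rw [e_diff X h2]
      exact le_max_of_le_right (by omega)
  · have := e_le X a b
    rw [e_diff X h1]
    exact le_max_of_le_left (by omega)

open Classical in
/-- The distance of two reduced lists. -/
noncomputable def D : List (Σ i, M i) → List (Σ i, M i) → ℕ
  | [], v => wt X v
  | x :: u, [] => wt X (x :: u)
  | x :: u, y :: v => if x = y then D u v else e X x y + wt X u + wt X v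

theorem D_nil (u : List (Σ i, M i)) : D X u [] = wt X u := by
  cases u <;> simp [D]

theorem D_le : ∀ u v : List (Σ i, M i), D X u v ≤ wt X u + wt X v
  | [], v => by simp [D]
  | x :: u, [] => by simp [D]
  | x :: u, y :: v => by
    have h1 := D_le u v
    have h2 := e_le X x y
    simp only [D, wt_cons]
    split_ifs <;> omega

theorem D_four (h4 : ∀ i, (X i).Four 0) : ∀ x y z : List (Σ i, M i),
    D X x y + wt X z ≤ max (D X x z + wt X y) (wt X x + D X y z)
  | [], y, z => le_max_of_le_left (by simp only [D]; omega)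
  | a :: u, [], z => le_max_of_le_right (by simp only [D]; omega)
  | a :: u, b :: v, [] => by
    have := D_le X (a :: u) (b :: v)
    rw [D_nil, D_nil, wt_nil]
    exact le_max_of_le_left (by omega)
  | a :: u, b :: v, c :: t => by
    have ih := D_four h4 u v t
    have h1 := D_le X u v
    have h2 := le_e X a c
    have h3 := e_comm X a b
    have h5 := e_four X h4 a b c
    simp only [D, wt_cons]
    by_cases hab : a = b
    · subst hab
      by_cases hac : a = c
      · subst hac
        simp only [if_true]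
        omega
      · simp only [if_true, if_neg hac]
        omega
    · by_cases hac : a = c
      · subst hac
        simp only [if_true, if_neg hab, if_neg (Ne.symm hab)]
        omega
      · by_cases hbc : b = c
        · subst hbc
          simp only [if_true, if_neg hab]
          omega
        · simp only [if_neg hab, if_neg hac, if_neg hbc]
          omega

variable {X}

theorem len_D (hI : ∀ i, (X i).Inv (M i)) : ∀ u v : List (Σ i, M i), Red u → Red v →
    len X ((pr u)⁻¹ * pr v) = D X u v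
  | [], v, hu, hv => by rw [len_inv_mul hI _ _ hu hv (by simp), wt_nil, zero_add, D]
  | x :: u, [], hu, hv => by rw [len_inv_mul hI _ _ hu hv (by simp), wt_nil, add_zero, D]
  | x :: u, y :: v, hu, hv => by
    rw [D]
    split_ifs with hxy
    · subst hxy
      rw [← len_D hI u v hu.tail hv.tail, pr_cons, pr_cons]
      congr 1
      group
    · by_cases hi : x.1 = y.1
      · obtain ⟨i, x⟩ := x
        obtain ⟨j, y⟩ := y
        dsimp only at hi
        subst hi
        have hne : x⁻¹ * y ≠ 1 := by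
          intro h
          exact hxy (by rw [inv_mul_eq_one.1 h])
        have h1 : Red ((⟨i, x⁻¹ * y⟩ : Σ i, M i) :: v) := Red.cons hne hv.tail hv.head
        have h2 := len_inv_mul hI u _ hu.tail h1 (by
          intro a ha b hb
          obtain rfl : (⟨i, x⁻¹ * y⟩ : Σ i, M i) = b := by simpa using hb
          exact (hu.head a ha).symm)
        have h3 : (pr (⟨i, x⟩ :: u))⁻¹ * pr (⟨i, y⟩ :: v) =
            (pr u)⁻¹ * pr ((⟨i, x⁻¹ * y⟩ : Σ i, M i) :: v) := by
          simp only [pr_cons, map_mul, map_inv]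
          group
        have h5 : w X ⟨i, x⁻¹ * y⟩ = (X i).d x y := d_inv hI x y
        rw [h3, h2, wt_cons, e_same, h5]
        omega
      · rw [len_inv_mul hI _ _ hu hv (by
          intro a ha b hb
          obtain rfl : x = a := by simpa using ha
          obtain rfl : y = b := by simpa using hb
          exact hi), e_diff X hi, wt_cons, wt_cons]
        omega

theorem len_inv (hI : ∀ i, (X i).Inv (M i)) (g : CoprodI M) : len X g⁻¹ = len X g := by
  have := len_D hI (nf g) [] (red_nf g) red_nil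
  rwa [pr_nf, pr_nil, mul_one, D_nil] at this

theorem len_four (hI : ∀ i, (X i).Inv (M i)) (h4 : ∀ i, (X i).Four 0) (x y z : CoprodI M) :
    len X (x⁻¹ * y) + len X z ≤ max (len X (x⁻¹ * z) + len X y) (len X x + len X (y⁻¹ * z)) := by
  have h := D_four X h4 (nf x) (nf y) (nf z)
  rw [← len_D hI _ _ (red_nf x) (red_nf y), ← len_D hI _ _ (red_nf x) (red_nf z),
    ← len_D hI _ _ (red_nf y) (red_nf z), pr_nf, pr_nf, pr_nf] at h
  exact h

theorem len_mul (hI : ∀ i, (X i).Inv (M i)) (x y : CoprodI M) :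
    len X (x * y) ≤ len X x + len X y := by
  have h := D_le X (nf x⁻¹) (nf y)
  rw [← len_D hI _ _ (red_nf _) (red_nf y), pr_nf, pr_nf, inv_inv] at h
  have h2 := len_inv hI x
  unfold len at h2 ⊢
  unfold len at h
  omega

theorem len_geo (hI : ∀ i, (X i).Inv (M i)) : ∀ (l : List (Σ i, M i)), Red l → ∀ t ≤ wt X l,
    ∃ z : CoprodI M, len X z = t ∧ t + len X (z⁻¹ * pr l) = wt X l := by
  intro l
  induction l with
  | nil =>
    intro _ t ht
    refine ⟨1, ?_, ?_⟩
    · rw [len_one]; rw [wt_nil] at ht; omega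
    · rw [pr_nil, inv_one, mul_one, len_one]; rw [wt_nil] at ht ⊢; omega
  | cons x u ih =>
    intro hl t ht
    rw [wt_cons] at ht
    by_cases h : t ≤ w X x
    · obtain ⟨y, hy1, hy2⟩ := (X x.1).geo 1 x.2 t h
      refine ⟨CoprodI.of y, by rw [len_of, hy1], ?_⟩
      rw [pr_cons, ← mul_assoc, ← map_inv, ← map_mul, len_of_mul _ hl.tail hl.head, d_inv hI,
        wt_cons, w]
      omega
    · obtain ⟨z, hz1, hz2⟩ := ih hl.tail (t - w X x) (by omega)
      have e1 : (CoprodI.of x.2 * z)⁻¹ * pr (x :: u) = z⁻¹ * pr u := by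
        rw [pr_cons]; group
      have h1 := len_mul hI (CoprodI.of x.2) z
      have h2 := len_mul hI (CoprodI.of x.2 * z) ((CoprodI.of x.2 * z)⁻¹ * pr (x :: u))
      rw [mul_inv_cancel_left, len_pr X hl, e1, wt_cons] at h2
      rw [len_of] at h1
      have h3 : (X x.1).d 1 x.2 = w X x := rfl
      refine ⟨CoprodI.of x.2 * z, by omega, ?_⟩
      rw [e1, wt_cons]
      omega

/-- The metric of the free product. -/
noncomputable def Z (hI : ∀ i, (X i).Inv (M i)) : GM (CoprodI M) where
  d g h := len X (g⁻¹ * h)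
  self x := by rw [inv_mul_cancel, len_one]
  comm x y := by rw [← len_inv hI, mul_inv_rev, inv_inv]
  tri x y z := by
    have := len_mul hI (x⁻¹ * y) (y⁻¹ * z)
    rwa [mul_assoc, mul_inv_cancel_left] at this
  geo x y t ht := by
    obtain ⟨z, h1, h2⟩ := len_geo hI (nf (x⁻¹ * y)) (red_nf _) t ht
    refine ⟨x * z, by rw [inv_mul_cancel_left, h1], ?_⟩
    rw [pr_nf] at h2
    rw [mul_inv_rev, mul_assoc]
    exact h2

theorem len_le_one (hs : ∀ i x y, (X i).d x y = 0 → x = y) (g : CoprodI M) (h : len X g ≤ 1) :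
    g = 1 ∨ ∃ (i : ι) (x : M i), x ≠ 1 ∧ g = CoprodI.of x ∧ (X i).d 1 x = 1 := by
  have hw : ∀ x ∈ nf g, 1 ≤ w X x := by
    intro x hx
    by_contra hc
    exact (red_nf g).1 x hx (hs _ _ _ (by unfold w at hc; omega)).symm
  have hr := red_nf g
  have hp := pr_nf g
  unfold len at h
  rcases hl : nf g with _ | ⟨x, _ | ⟨y, l⟩⟩
  · left; rw [← hp, hl, pr_nil]
  · right
    rw [hl] at h hw hp hr
    have h1 := hw x List.mem_cons_self
    rw [wt_cons] at h
    refine ⟨x.1, x.2, hr.1 x List.mem_cons_self, by rw [← hp, pr_cons, pr_nil, mul_one], ?_⟩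
    unfold w at h h1
    omega
  · exfalso
    rw [hl] at h hw
    have h1 := hw x List.mem_cons_self
    have h2 := hw y (by simp)
    rw [wt_cons, wt_cons] at h
    omega

end Tcoprod

open Tcoprod in
theorem thm_coprod (h1 : S_basic) : S_coprod := by
  intro ι M _ X hI h4 hs
  have hinv : (Z hI).Inv (CoprodI M) := by
    intro g x y
    show len X ((g * x)⁻¹ * (g * y)) = len X (x⁻¹ * y)
    congr 1
    group
  have hfour : (Z hI).Four 0 := by
    intro x y z w
    have h := len_four hI h4 (w⁻¹ * x) (w⁻¹ * y) (w⁻¹ * z)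
    have e1 : ∀ a b : CoprodI M, (w⁻¹ * a)⁻¹ * (w⁻¹ * b) = a⁻¹ * b := fun a b => by group
    have e2 : ∀ a : CoprodI M, len X (w⁻¹ * a) = len X (a⁻¹ * w) := fun a => (Z hI).comm w a
    rw [e1, e1, e1, e2, e2, e2] at h
    exact h
  have hb : ∀ H : Subgroup (CoprodI M), Bdd (Z hI) H → H = ⊥ ∨ ∃ (i : ι) (s : CoprodI M),
      ∀ h ∈ H, ∃ x : M i, h = s * CoprodI.of x * s⁻¹ ∧ (X i).d 1 x ≤ 1 := by
    intro H hH
    obtain ⟨p, hp⟩ := (h1 _ _ (Z hI) 0 hinv hfour).2.1 H hH
    have hp' : ∀ h ∈ H, len X (p⁻¹ * (h * p)) ≤ 1 := hp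
    by_cases hbot : H = ⊥
    · exact Or.inl hbot
    right
    obtain ⟨h0, hh0, hne⟩ := (Subgroup.bot_or_exists_ne_one H).resolve_left hbot
    obtain h | ⟨i, x0, hx0, e0, d0⟩ := len_le_one hs _ (hp' h0 hh0)
    · exfalso
      apply hne
      have : h0 = p * (p⁻¹ * (h0 * p)) * p⁻¹ := by group
      rw [this, h]; group
    refine ⟨i, p, fun h hh => ?_⟩
    have e : h = p * (p⁻¹ * (h * p)) * p⁻¹ := by group
    obtain h' | ⟨j, x, hx, e1, d1⟩ := len_le_one hs _ (hp' h hh)
    · exact ⟨1, by rw [e, h', map_one], by rw [(X i).self]; omega⟩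
    · by_cases hij : i = j
      · subst hij
        exact ⟨x, by rw [e, e1], d1.le⟩
      · exfalso
        have h2 := hp' (h0 * h) (H.mul_mem hh0 hh)
        have e2 : p⁻¹ * (h0 * h * p) = (p⁻¹ * (h0 * p)) * (p⁻¹ * (h * p)) := by group
        have h3 := len_of_mul (X := X) x0 (Red.cons (x := ⟨j, x⟩) hx red_nil (by simp))
          (by simpa using hij)
        rw [pr_cons, pr_nil, mul_one, wt_cons, wt_nil] at h3
        rw [e2, e0, e1, h3, d0] at h2
        have : w X ⟨j, x⟩ = 1 := d1
        omega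
  refine ⟨Z hI, hinv, hfour, ?_, ?_, ?_, hb, ?_⟩
  · intro x y h
    have h' : len X (x⁻¹ * y) = 0 := h
    obtain h2 | ⟨i, a, _, e, d⟩ := len_le_one hs (x⁻¹ * y) (by omega)
    · exact inv_mul_eq_one.1 h2
    · rw [e, len_of] at h'; omega
  · intro i x y
    show len X ((CoprodI.of x)⁻¹ * CoprodI.of y) = _
    rw [← map_inv, ← map_mul, len_of, d_inv hI]
  · intro g h
    have h' : len X (1⁻¹ * g) = 1 := h
    rw [inv_one, one_mul] at h'
    obtain h2 | ⟨i, a, _, e, _⟩ := len_le_one hs g h'.le
    · rw [h2, len_one] at h'; omega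
    · exact ⟨i, a, e⟩
  · intro ht t h2
    have hB : Bdd (Z hI) (Subgroup.zpowers t) := by
      refine ⟨1, (Z hI).d 1 (t • (1 : CoprodI M)), ?_⟩
      rintro h ⟨k, rfl⟩
      have h3 : t ^ (2 : ℤ) = 1 := by rw [zpow_ofNat, h2]
      rcases Int.even_or_odd' k with ⟨m, rfl | rfl⟩
      · simp only [zpow_mul, h3, one_zpow, one_smul, (Z hI).self]
        omega
      · simp only [zpow_add, zpow_mul, h3, one_zpow, one_mul, zpow_one]
        exact le_rfl
    rcases hb _ hB with h | ⟨i, s, h⟩
    · exact Subgroup.zpowers_eq_bot.1 h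
    · obtain ⟨x, hx, _⟩ := h t (Subgroup.mem_zpowers t)
      have h4 : CoprodI.of (x ^ 2) = (CoprodI.of (1 : M i) : CoprodI M) := by
        rw [hx, conj_pow, mul_inv_eq_one, mul_eq_left] at h2
        rw [map_pow, h2, map_one]
      rw [hx, ht i x (CoprodI.of_injective i h4), map_one]
      group

end Pool.Agent.SCZ.Geo
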