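import Pool.Agent.SCZ.Geo.Rel

set_option autoImplicit false

namespace Pool.Agent.SCZ.Geo

open Pool.Agent.H59Z.NA

namespace Tfam

variable {Q V I : Type} [Group Q] [MulAction Q V] [MulAction Q I] {X : GM V} {L : ℕ}
  (F : Fam Q V I X L)

lemma c_zpow (i : I) (k : ℤ) : ∀ p : V, F.c i (F.gen i ^ k • p) = F.c i p + k * F.tr i := by
  induction k using Int.induction_on with
  | zero => intro p; simp
  | succ n ih =>
    intro p
    rw [zpow_add_one, mul_smul, ih, F.c_gen]; push_cast; ring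
  | pred n ih =>
    intro p
    have h := F.c_gen i ((F.gen i)⁻¹ • p)
    rw [smul_inv_smul] at h
    rw [zpow_sub_one, mul_smul, ih]; push_cast; linarith

lemma mem_of_fix {i : I} {u : Q} (hu : u • i = i) {p : V} (hp : p ∈ F.Y i) : u • p ∈ F.Y i := by
  have := (F.Y_smul u i p).2 hp
  rwa [hu] at this

lemma pow_fix {i : I} {u : Q} (hu : u • i = i) (n : ℕ) : u ^ n • i = i := by
  induction n with
  | zero => simp
  | succ n ih => rw [pow_succ, mul_smul, hu, ih]

lemma le_of_forall_mul {a b C : ℝ} (h : ∀ m : ℕ, a * m ≤ b * m + C) : a ≤ b := by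
  by_contra hab
  have hab' : 0 < a - b := by linarith [not_le.1 hab]
  obtain ⟨m, hm⟩ := exists_nat_gt (C / (a - b))
  rw [div_lt_iff₀ hab'] at hm
  have := h m
  nlinarith

end Tfam

open Tfam in
theorem thm_fam (h1 : S_tau) (h2 : S_hyp) (h3 : S_basic) : S_fam := by
  intro Q V I _ _ _ X δ L F hinv hfour hδ
  obtain ⟨t1, t2, -, t4, -, t6, -⟩ := h1 Q V X hinv
  obtain ⟨-, y2, y3⟩ := h2 V X
  obtain ⟨-, -, -, b4⟩ := h3 Q V X δ hinv hfour
  have hL0 : (0 : ℝ) ≤ L := Nat.cast_nonneg L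
  have f1 : ∀ i, X.tau (F.gen i) = F.tr i := by
    intro i
    obtain ⟨p, hp⟩ := F.Y_ne i
    have hc : ∀ m : ℕ, |F.c i p - F.c i (F.gen i ^ m • p)| = F.tr i * m := by
      intro m
      have := c_zpow F i m p
      rw [zpow_natCast] at this
      rw [this, show F.c i p - (F.c i p + ((m : ℤ) : ℝ) * F.tr i) = -(F.tr i * m) by
        push_cast; ring, abs_neg, abs_of_nonneg (mul_nonneg (F.tr_pos i).le (Nat.cast_nonneg m))]
    refine le_antisymm (le_of_forall_mul (C := L) fun m => ?_) (t6 _ p _ L fun m => ?_)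
    · have hm : F.gen i ^ m • p ∈ F.Y i :=
        mem_of_fix F (pow_fix ((F.stab _ i).2 (Subgroup.mem_zpowers _)) m) hp
      have := F.near i p hp _ hm
      rw [hc] at this
      exact (t1 _ p m).trans this
    · rw [← hc]; exact F.lip i _ _
  have f2 : ∀ (i : I) (u : Q), u • i = i → u ≠ 1 → F.tr i ≤ X.tau u := by
    intro i u hu hu1
    obtain ⟨k, rfl⟩ := Subgroup.mem_zpowers_iff.1 ((F.stab u i).1 hu)
    have hk : k ≠ 0 := by rintro rfl; exact hu1 (zpow_zero _)
    rw [t4, f1]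
    have : (1 : ℝ) ≤ |(k : ℝ)| := by exact_mod_cast Int.one_le_abs hk
    nlinarith [F.tr_pos i]
  have f3 : ∀ (i : I) (u : Q) (p : V), u • i = i → |F.c i (u • p) - F.c i p| = X.tau u := by
    intro i u p hu
    obtain ⟨k, rfl⟩ := Subgroup.mem_zpowers_iff.1 ((F.stab u i).1 hu)
    rw [t4, f1, c_zpow, add_sub_cancel_left, abs_mul, abs_of_pos (F.tr_pos i)]
  have tpow : ∀ (u : Q) (n : ℕ), X.tau (u ^ n) = n * X.tau u := by
    intro u n
    have := t4 u n
    rwa [zpow_natCast, Int.cast_natCast, Nat.abs_cast] at this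
  refine ⟨f1, f2, f3, ?_, ?_, ?_, ?_⟩
  · intro i j u hij hi hj
    by_contra hu
    obtain ⟨p, hp⟩ := F.Y_ne j
    have h0 : X.tau u ≤ 0 := le_of_forall_mul (C := L) fun m => by
      have := F.sep i j hij _ (mem_of_fix F (pow_fix hj m) hp) p hp
      rw [f3 i _ p (pow_fix hi m), tpow] at this
      linarith
    linarith [f2 i u hi hu, F.tr_pos i]
  · intro i u p θ m hu hm hθ
    have hang : (L : ℝ) < |F.c i p - F.c i (u ^ (2 ^ m) • p)| := by
      rw [abs_sub_comm, f3 i _ p (pow_fix hu _), tpow]; push_cast; exact hm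
    obtain ⟨a, ha, b, -, hab, -, -⟩ := F.proj i _ _ hang
    obtain ⟨k, -, hk⟩ := b4 m θ L (fun k => u ^ k • p) a (fun k => by
      rw [pow_succ, mul_smul, hinv]; exact hθ) (by
      simp only [pow_zero, one_smul]
      have := X.tri a b (u ^ (2 ^ m) • p)
      omega)
    refine ⟨(u ^ k)⁻¹ • a, mem_of_fix F (by rw [inv_smul_eq_iff, pow_fix hu]) ha, ?_⟩
    rw [← hinv (u ^ k), smul_inv_smul, X.comm]
    exact hk
  · intro i u p θ k hu hθ
    have hθ0 : (0 : ℝ) ≤ θ := Nat.cast_nonneg θ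
    by_contra hcon
    have hang : (L : ℝ) < |F.c i p - F.c i (u ^ k • p)| := by linarith [not_le.1 hcon]
    obtain ⟨a, ha, b, hb, hab, ca, cb⟩ := F.proj i _ _ hang
    set q := u ^ k • p with hq
    have hθq : X.d q (u • q) ≤ θ := by
      have : u • q = u ^ k • (u • p) := by
        rw [hq, ← mul_smul, ← mul_smul, (Commute.self_zpow u k).eq]
      rw [this, hq, hinv]; exact hθ
    have key : ∀ w, X.d p w + X.d w q ≤ X.d p q + L → X.d w (u • w) ≤ θ + 5 * L := by
      intro w hw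
      obtain ⟨z, hz1, hz2⟩ := y2 δ hfour p q w L hw
      have h4 := y3 Q δ hinv hfour u p q z θ hz1 hθ hθq
      have h5 := X.tri w z (u • w)
      have h6 := X.tri z (u • z) (u • w)
      have h7 : X.d (u • z) (u • w) = X.d w z := by rw [hinv, X.comm]
      omega
    have ka : (X.d a (u • a) : ℝ) ≤ θ + 5 * L := by
      exact_mod_cast key a (by have := X.tri a b q; omega)
    have kb : (X.d b (u • b) : ℝ) ≤ θ + 5 * L := by
      exact_mod_cast key b (by have := X.tri p a b; omega)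
    have s1 := F.sep i (u • i) (Ne.symm hu) _ ((F.Y_smul u i a).2 ha) _ ((F.Y_smul u i b).2 hb)
    have l1 := F.lip i a (u • a)
    have l2 := F.lip i b (u • b)
    apply hcon
    rw [abs_le] at *
    constructor <;> linarith [ca.1, ca.2, cb.1, cb.2, s1.1, s1.2, l1.1, l1.2, l2.1, l2.2]
  · intro i j hij y hy y' hy' z
    by_contra hcon
    rw [not_or, not_le, not_le] at hcon
    obtain ⟨g1, g2⟩ := hcon
    have step : ∀ (l : I) (w : V), (9 : ℝ) * L < |F.c l w - F.c l z| →
        ∃ b ∈ F.Y l, (X.d b z : ℝ) + 5 * L < X.d w z ∧ |F.c l b - F.c l z| ≤ L := by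
      intro l w hw
      obtain ⟨a, -, b, hb, hab, ca, cb⟩ := F.proj l w z (by linarith)
      refine ⟨b, hb, ?_, cb⟩
      have hab' : (X.d w a : ℝ) + X.d a b + X.d b z ≤ X.d w z + L := by exact_mod_cast hab
      have l1 := F.lip l a b
      have h0 : (0 : ℝ) ≤ X.d w a := Nat.cast_nonneg _
      have e1 := abs_sub_le (F.c l w) (F.c l a) (F.c l z)
      have e2 := abs_sub_le (F.c l a) (F.c l b) (F.c l z)
      rw [abs_sub_comm] at ca
      linarith
    obtain ⟨b', hb', -, cb'⟩ := step j y' (by linarith)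
    obtain ⟨b1, hb1, d1, -⟩ := step i b' (by
      have := F.sep i j hij y hy b' hb'
      have e1 := abs_sub_le (F.c i y) (F.c i b') (F.c i z)
      linarith)
    obtain ⟨b2, hb2, d2, cb2⟩ := step j b1 (by
      have := F.sep j i (Ne.symm hij) y' hy' b1 hb1
      have e1 := abs_sub_le (F.c j y') (F.c j b1) (F.c j z)
      linarith)
    have n1 := F.near j b' hb' b2 hb2
    have e1 := abs_sub_le (F.c j b') (F.c j z) (F.c j b2)
    rw [abs_sub_comm] at cb2
    have t : (X.d b' z : ℝ) ≤ X.d b' b2 + X.d b2 z := by exact_mod_cast X.tri b' b2 z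
    linarith

end Pool.Agent.SCZ.Geo
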