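import Pool.Agent.SCZ.Geo.Rel
import Pool.Agent.H59Z.NA.Tlines

set_option autoImplicit false

/-!
# The family of axes of primitive loxodromic elements (short or long)
-/

namespace Pool.Agent.SCZ.Geo

open Pool.Agent.H59Z.NA Pool.Agent.H59Z.NA.Tlines

namespace TlinesG

section Metric

variable {V : Type} (X : GM V)

/-- A quasi-line with two-sided additive error. -/
def QG (δ : ℕ) (σ : ℝ) (y : ℤ → V) : Prop :=
  ∀ a b : ℤ, σ * |(a : ℝ) - b| ≤ X.d (y a) (y b) + 36 * δ ∧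
    (X.d (y a) (y b) : ℝ) ≤ σ * |(a : ℝ) - b| + 36 * δ

variable {X}

theorem isN_ex {δ : ℕ} {τ : ℝ} {y : ℤ → V} (hτ : 0 < τ) (hy : QG X δ τ y) (p : V) :
    ∃ k, IsN X y p k := by
  classical
  have hex : ∃ m, ∃ a, X.d p (y a) = m := ⟨_, 0, rfl⟩
  have hm : ∃ a, X.d p (y a) = Nat.find hex := Nat.find_spec hex
  have hmin : ∀ a, Nat.find hex ≤ X.d p (y a) := fun a => Nat.find_min' hex ⟨a, rfl⟩
  generalize Nat.find hex = m at hm hmin
  have hb : ∃ b : ℤ, ∀ z : ℤ, X.d p (y z) = m → z ≤ b := by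
    refine ⟨⌈((m : ℝ) + X.d p (y 0) + 36 * δ) / τ⌉, fun z hz => ?_⟩
    have h1 := (hy z 0).1
    have h2 := X.tri (y z) p (y 0)
    rw [X.comm (y z) p, hz] at h2
    have h3 : (X.d (y z) (y 0) : ℝ) ≤ m + X.d p (y 0) := by exact_mod_cast h2
    have h4 : (z : ℝ) ≤ |(z : ℝ) - ((0 : ℤ) : ℝ)| := by
      simpa using le_abs_self (z : ℝ)
    have h5 : τ * (z : ℝ) ≤ m + X.d p (y 0) + 36 * δ := by
      have := mul_le_mul_of_nonneg_left h4 hτ.le
      linarith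
    have h6 : (z : ℝ) ≤ ((m : ℝ) + X.d p (y 0) + 36 * δ) / τ := by
      rw [le_div_iff₀ hτ]; linarith
    have h7 := h6.trans (Int.le_ceil _)
    exact_mod_cast h7
  obtain ⟨k, hk, hk2⟩ := Int.exists_greatest_of_bdd hb hm
  refine ⟨k, fun a => by rw [hk]; exact hmin a, fun a ha => ?_⟩
  rw [hk]
  rcases (hmin a).lt_or_eq with h | h
  · exact h
  · have := hk2 a h.symm; omega

theorem kk_sp {δ : ℕ} {τ : ℝ} {y : ℤ → V} (hτ : 0 < τ) (hy : QG X δ τ y) (p : V) :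
    IsN X y p (kk X y p) := Classical.epsilon_spec (isN_ex hτ hy p)

theorem kk_df {δ : ℕ} {τ : ℝ} {y : ℤ → V} (hτ : 0 < τ) (hy : QG X δ τ y) (a b : ℤ) :
    |τ * (a : ℝ) - τ * (b : ℝ)| ≤ X.d (y a) (y b) + 36 * δ := by
  rw [← mul_sub, abs_mul, abs_of_pos hτ]
  exact (hy _ _).1

theorem kk_sf {δ : ℕ} {τ : ℝ} {y : ℤ → V} (hτ : 0 < τ) (hy : QG X δ τ y) (a : ℤ) :
    |τ * (kk X y (y a) : ℝ) - τ * (a : ℝ)| ≤ 36 * δ := by
  have h1 := (kk_sp hτ hy (y a)).1 a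
  rw [X.self] at h1
  have h2 := kk_df hτ hy (kk X y (y a)) a
  have h3 : X.d (y (kk X y (y a))) (y a) = 0 := by rw [X.comm]; omega
  rw [h3] at h2
  simpa using h2

theorem conv_le' {δ : ℕ} {τ : ℝ} {y : ℤ → V} (h4 : X.Four δ) (hτ : 0 < τ) (hB : τ ≤ 1)
    (hy : QG X δ τ y) (a c : ℤ) (hac : a ≤ c) (z : V)
    (hz : X.d (y a) z + X.d z (y c) = X.d (y a) (y c)) :
    ∃ b, X.d z (y b) ≤ 73 * δ + 1 := by
  have hz' : (X.d (y a) z : ℝ) + X.d z (y c) = X.d (y a) (y c) := by exact_mod_cast hz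
  have hacr : (a : ℝ) ≤ c := by exact_mod_cast hac
  have e1 : |(a : ℝ) - c| = c - a := by rw [abs_sub_comm]; exact abs_of_nonneg (by linarith)
  have hac1 := (hy a c).1
  have hac2 := (hy a c).2
  rw [e1] at hac1 hac2
  obtain ⟨t, ht⟩ : ∃ t : ℝ, t = (X.d (y a) z : ℝ) := ⟨_, rfl⟩
  have ht0 : 0 ≤ t := by rw [ht]; exact Nat.cast_nonneg _
  have f1 : τ * (⌊t / τ⌋ : ℝ) ≤ t := by
    have := Int.floor_le (t / τ)
    rw [le_div_iff₀ hτ] at this; linarith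
  have f2 : t < τ * (⌊t / τ⌋ : ℝ) + τ := by
    have := Int.lt_floor_add_one (t / τ)
    rw [div_lt_iff₀ hτ] at this; linarith
  have f0 : (0 : ℝ) ≤ (⌊t / τ⌋ : ℝ) := by
    have : 0 ≤ ⌊t / τ⌋ := Int.floor_nonneg.mpr (div_nonneg ht0 hτ.le)
    exact_mod_cast this
  have hδ : (0 : ℝ) ≤ δ := Nat.cast_nonneg _
  by_cases hc : c ≤ a + ⌊t / τ⌋
  · refine ⟨c, ?_⟩
    have hc' : (c : ℝ) ≤ a + (⌊t / τ⌋ : ℝ) := by exact_mod_cast hc
    have : τ * ((c : ℝ) - a) ≤ τ * (⌊t / τ⌋ : ℝ) :=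
      mul_le_mul_of_nonneg_left (by linarith) hτ.le
    have : (X.d z (y c) : ℝ) ≤ 73 * δ + 1 := by linarith
    exact_mod_cast this
  · push Not at hc
    refine ⟨a + ⌊t / τ⌋, ?_⟩
    have hc' : (a : ℝ) + (⌊t / τ⌋ : ℝ) < c := by exact_mod_cast hc
    have g1 := (hy (a + ⌊t / τ⌋) a).2
    have g2 := (hy (a + ⌊t / τ⌋) c).2
    have e2 : |((a + ⌊t / τ⌋ : ℤ) : ℝ) - a| = (⌊t / τ⌋ : ℝ) := by
      push_cast; rw [add_sub_cancel_left]; exact abs_of_nonneg f0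
    have e3 : |((a + ⌊t / τ⌋ : ℤ) : ℝ) - c| = c - a - (⌊t / τ⌋ : ℝ) := by
      push_cast; rw [abs_of_nonpos (by linarith)]; ring
    rw [e2] at g1
    rw [e3] at g2
    have h5 := h4 z (y (a + ⌊t / τ⌋)) (y a) (y c)
    rw [X.comm z (y a)] at h5
    have key : (X.d z (y (a + ⌊t / τ⌋)) : ℝ) ≤ 73 * δ + 1 := by
      rcases le_total (X.d (y a) z + X.d (y (a + ⌊t / τ⌋)) (y c))
        (X.d z (y c) + X.d (y (a + ⌊t / τ⌋)) (y a)) with h | h
      · rw [max_eq_right h] at h5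
        have h6 : (X.d z (y (a + ⌊t / τ⌋)) : ℝ) + X.d (y a) (y c) ≤
          X.d z (y c) + X.d (y (a + ⌊t / τ⌋)) (y a) + δ := by exact_mod_cast h5
        linarith
      · rw [max_eq_left h] at h5
        have h6 : (X.d z (y (a + ⌊t / τ⌋)) : ℝ) + X.d (y a) (y c) ≤
          X.d (y a) z + X.d (y (a + ⌊t / τ⌋)) (y c) + δ := by exact_mod_cast h5
        nlinarith
    exact_mod_cast key

theorem conv' {δ : ℕ} {τ : ℝ} {y : ℤ → V} (h4 : X.Four δ) (hτ : 0 < τ) (hB : τ ≤ 1)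
    (hy : QG X δ τ y) (a c : ℤ) (z : V)
    (hz : X.d (y a) z + X.d z (y c) = X.d (y a) (y c)) :
    ∃ b, X.d z (y b) ≤ 73 * δ + 1 := by
  rcases le_total a c with h | h
  · exact conv_le' h4 hτ hB hy a c h z hz
  · refine conv_le' h4 hτ hB hy c a h z ?_
    rw [X.comm (y c) z, X.comm z (y a), X.comm (y c) (y a)]; omega

theorem near_ineq' {δ : ℕ} {τ : ℝ} {y : ℤ → V} (h4 : X.Four δ) (hτ : 0 < τ) (hB : τ ≤ 1)
    (hy : QG X δ τ y) (p : V) (a : ℤ) :
    X.d p (y (kk X y p)) + X.d (y (kk X y p)) (y a) ≤ X.d p (y a) + (148 * δ + 3) := by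
  have hN := (kk_sp hτ hy p).1
  by_cases h : X.d (y (kk X y p)) (y a) ≤ 74 * δ + 2
  · have := hN a; omega
  · obtain ⟨z, hz1, hz2⟩ := X.geo (y (kk X y p)) (y a) (74 * δ + 2) (by omega)
    obtain ⟨b, hb⟩ := conv' h4 hτ hB hy (kk X y p) a z (by omega)
    have h1 := hN b
    have h2 := X.tri p z (y b)
    have h5 := h4 p z (y (kk X y p)) (y a)
    rw [X.comm z (y (kk X y p))] at h5
    omega

theorem dich' {δ : ℕ} {τ : ℝ} {y : ℤ → V} (h4 : X.Four δ) (hτ : 0 < τ) (hB : τ ≤ 1)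
    (hy : QG X δ τ y) (p q : V) :
    X.d p (y (kk X y p)) + X.d (y (kk X y p)) (y (kk X y q)) + X.d (y (kk X y q)) q ≤
      X.d p q + (297 * δ + 6) ∨
    2 * X.d (y (kk X y p)) (y (kk X y q)) ≤ 297 * δ + 6 := by
  have h1 := near_ineq' h4 hτ hB hy p (kk X y q)
  have h2 := near_ineq' h4 hτ hB hy q (kk X y p)
  have h5 := h4 p (y (kk X y q)) q (y (kk X y p))
  rw [X.comm (y (kk X y q)) (y (kk X y p))] at h5 h2
  rw [X.comm q (y (kk X y q))] at h2
  omega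

end Metric

section Equiv

variable {Q V : Type} [Group Q] [MulAction Q V] {X : GM V}

theorem kk_sm (hI : X.Inv Q) {δ : ℕ} {τ τ' : ℝ} {y y' : ℤ → V} (hτ : 0 < τ) (hy : QG X δ τ y)
    (hτ' : 0 < τ') (hy' : QG X δ τ' y') (s : Q) (j : ℤ) (h : ∀ a, y' a = s • y (a + j)) (p : V) :
    kk X y' (s • p) = kk X y p - j := by
  refine isN_unique (kk_sp hτ' hy' _) ⟨fun a => ?_, fun a ha => ?_⟩
  · rw [h, h, hI, hI, sub_add_cancel]
    exact (kk_sp hτ hy p).1 _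
  · rw [h, h, hI, hI, sub_add_cancel]
    exact (kk_sp hτ hy p).2 _ (by omega)

/-- The broken geodesic through the orbit of an axis point. -/
theorem exists_line (h1 : S_tau) (hI : X.Inv Q) {δ : ℕ} (h4 : X.Four δ) (g : Q)
    (hg : 0 < X.tau g) (x : V)
    (hx : ∀ k : ℤ, (X.d x (g ^ k • x) : ℝ) ≤ X.tau (g ^ k) + 12 * δ) :
    ∃ (ζ : ℤ → V) (σ : ℝ) (l : ℤ), 0 < σ ∧ σ ≤ 1 ∧ σ * l = X.tau g ∧ QG X δ σ ζ ∧
      (∀ (k a : ℤ), g ^ k • ζ a = ζ (a + k * l)) ∧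
      ∀ a, (X.d (ζ a) (g • ζ a) : ℝ) ≤ X.tau g + 12 * δ := by
  obtain ⟨l, hl⟩ : ∃ l : ℕ, l = X.d x (g • x) := ⟨_, rfl⟩
  have l1 : X.tau g ≤ l := by rw [hl]; exact tau_le_d h1 hI g x
  have l2 : (l : ℝ) ≤ X.tau g + 12 * δ := by
    have := hx 1
    rwa [zpow_one, ← hl] at this
  have l0 : (0 : ℝ) < l := hg.trans_le l1
  have l0' : (0 : ℤ) < l := by exact_mod_cast l0
  have hγ : ∀ r : ℕ, ∃ z, r ≤ l → X.d x z = r ∧ r + X.d z (g • x) = l := by
    intro r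
    by_cases hr : r ≤ l
    · obtain ⟨z, hz⟩ := X.geo x (g • x) r (hl ▸ hr)
      exact ⟨z, fun _ => by rw [hl]; exact hz⟩
    · exact ⟨x, fun h => absurd h hr⟩
  choose γ hγ using hγ
  have hdec : ∀ a : ℤ, ∃ (k : ℤ) (r : ℕ), r < l ∧ a = k * l + r ∧ a / l = k ∧ (a % l).toNat = r := by
    intro a
    have m0 := Int.emod_nonneg a l0'.ne'
    have m1 := Int.emod_lt_of_pos a l0'
    refine ⟨a / l, (a % l).toNat, by omega, ?_, rfl, rfl⟩
    rw [Int.toNat_of_nonneg m0]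
    have := Int.ediv_mul_add_emod a l
    linarith
  have horb : ∀ k k' : ℤ, X.tau g * |(k : ℝ) - k'| ≤ X.d (g ^ k • x) (g ^ k' • x) ∧
      (X.d (g ^ k • x) (g ^ k' • x) : ℝ) ≤ X.tau g * |(k : ℝ) - k'| + 12 * δ :=
    ql_orbit h1 hI g x hx
  have hδ : (0 : ℝ) ≤ δ := Nat.cast_nonneg _
  obtain ⟨σ, hσ⟩ : ∃ σ : ℝ, σ = X.tau g / l := ⟨_, rfl⟩
  have s0 : 0 < σ := by rw [hσ]; exact div_pos hg l0
  have s1 : σ ≤ 1 := by rw [hσ, div_le_one l0]; exact l1
  have s2 : σ * l = X.tau g := by rw [hσ]; field_simp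
  have key : ∀ (k k' : ℤ) (r r' : ℕ), r < l → r' < l → k * l + r ≤ k' * l + r' →
      σ * ((k' * l + r' : ℝ) - (k * l + r)) ≤ X.d (g ^ k • γ r) (g ^ k' • γ r') + 36 * δ ∧
      (X.d (g ^ k • γ r) (g ^ k' • γ r') : ℝ) ≤
        σ * ((k' * l + r' : ℝ) - (k * l + r)) + 36 * δ := by
    intro k k' r r' hr hr' hle
    obtain ⟨a1, a2⟩ := hγ r hr.le
    obtain ⟨b1, b2⟩ := hγ r' hr'.le
    have hkk : k ≤ k' := by
      by_contra hc
      push Not at hc
      have : (k' + 1) * (l : ℤ) ≤ k * l := mul_le_mul_of_nonneg_right (by omega) l0'.le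
      have h2 : (r' : ℤ) < l := by exact_mod_cast hr'
      have h3 : (0 : ℤ) ≤ r := Int.natCast_nonneg r
      linarith
    have hkr : (k : ℝ) ≤ k' := by exact_mod_cast hkk
    have r1 : (r : ℝ) < l := by exact_mod_cast hr
    have r2 : (r' : ℝ) < l := by exact_mod_cast hr'
    have r3 : (0 : ℝ) ≤ r := Nat.cast_nonneg _
    have r4 : (0 : ℝ) ≤ r' := Nat.cast_nonneg _
    have e0 : σ * ((k' * l + r' : ℝ) - (k * l + r)) =
        X.tau g * (k' - k) + σ * (r' - r) := by rw [← s2]; ring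
    have q1 : (1 - σ) * ((r' : ℝ) - r) ≤ 12 * δ := by nlinarith
    have q2 : -(12 * δ) ≤ (1 - σ) * ((r' : ℝ) - r) := by nlinarith
    have d1 : X.d (g ^ k • x) (g ^ k • γ r) = r := by rw [hI, a1]
    have d2 : r + X.d (g ^ k • γ r) (g ^ (k + 1) • x) = l := by
      rw [zpow_add_one, mul_smul, hI, a2]
    have d3 : X.d (g ^ k' • x) (g ^ k' • γ r') = r' := by rw [hI, b1]
    have d4 : r' + X.d (g ^ k' • γ r') (g ^ (k' + 1) • x) = l := by
      rw [zpow_add_one, mul_smul, hI, b2]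
    rw [e0]
    constructor
    · have t1 := X.tri (g ^ k • x) (g ^ k • γ r) (g ^ (k' + 1) • x)
      have t2 := X.tri (g ^ k • γ r) (g ^ k' • γ r') (g ^ (k' + 1) • x)
      have t3 : X.d (g ^ k • x) (g ^ (k' + 1) • x) + r' ≤
          r + X.d (g ^ k • γ r) (g ^ k' • γ r') + l := by omega
      have t4 : (X.d (g ^ k • x) (g ^ (k' + 1) • x) : ℝ) + r' ≤
          r + X.d (g ^ k • γ r) (g ^ k' • γ r') + l := by exact_mod_cast t3
      have t5 := (horb k (k' + 1)).1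
      rw [abs_of_nonpos (by push_cast; linarith)] at t5
      push_cast at t5
      linarith
    · rcases hkk.lt_or_eq with hlt | heq
      · have t1 := X.tri (g ^ k • γ r) (g ^ (k + 1) • x) (g ^ k' • γ r')
        have t2 := X.tri (g ^ (k + 1) • x) (g ^ k' • x) (g ^ k' • γ r')
        have t3 : X.d (g ^ k • γ r) (g ^ k' • γ r') + r ≤
            l + X.d (g ^ (k + 1) • x) (g ^ k' • x) + r' := by omega
        have t4 : (X.d (g ^ k • γ r) (g ^ k' • γ r') : ℝ) + r ≤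
            l + X.d (g ^ (k + 1) • x) (g ^ k' • x) + r' := by exact_mod_cast t3
        have t5 := (horb (k + 1) k').2
        have t6 : (k : ℝ) + 1 ≤ k' := by exact_mod_cast hlt
        rw [abs_of_nonpos (by push_cast; linarith)] at t5
        push_cast at t5
        linarith
      · subst heq
        have hrr : r ≤ r' := by omega
        have t1 := h4 (γ r) (γ r') x (g • x)
        rw [X.comm (γ r) x, X.comm (γ r') x, ← hl] at t1
        have t2 : X.d (γ r) (γ r') + r ≤ r' + δ := by omega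
        have t3 : (X.d (γ r) (γ r') : ℝ) + r ≤ r' + δ := by exact_mod_cast t2
        rw [hI]
        linarith
  refine ⟨fun a => g ^ (a / l) • γ (a % l).toNat, σ, l, s0, s1, by exact_mod_cast s2, ?_, ?_, ?_⟩
  · have half : ∀ a b : ℤ, a ≤ b → σ * |(a : ℝ) - b| ≤
        X.d (g ^ (a / l) • γ (a % l).toNat) (g ^ (b / l) • γ (b % l).toNat) + 36 * δ ∧
        (X.d (g ^ (a / l) • γ (a % l).toNat) (g ^ (b / l) • γ (b % l).toNat) : ℝ) ≤
          σ * |(a : ℝ) - b| + 36 * δ := by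
      intro a b hab
      obtain ⟨k, r, hr, ha, e1, e2⟩ := hdec a
      obtain ⟨k', r', hr', hb, e3, e4⟩ := hdec b
      rw [e1, e2, e3, e4]
      have hab' : (a : ℝ) ≤ b := by exact_mod_cast hab
      have := key k k' r r' hr hr' (by rw [← ha, ← hb]; exact hab)
      have ea : (a : ℝ) = k * l + r := by exact_mod_cast ha
      have eb : (b : ℝ) = k' * l + r' := by exact_mod_cast hb
      rw [← ea, ← eb] at this
      rwa [abs_sub_comm, abs_of_nonneg (by linarith)]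
    intro a b
    rcases le_total a b with h | h
    · exact half a b h
    · have := half b a h
      rw [abs_sub_comm, X.comm] at this
      exact this
  · intro k a
    simp only
    rw [Int.add_mul_ediv_right _ _ l0'.ne', Int.add_mul_emod_self_right, smul_smul, ← zpow_add,
      add_comm]
  · intro a
    obtain ⟨k, r, hr, -, e1, e2⟩ := hdec a
    simp only
    rw [e1, e2, smul_smul, ← zpow_one_add, add_comm 1 k, zpow_add_one, mul_smul, hI]
    obtain ⟨a1, a2⟩ := hγ r hr.le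
    have t1 := X.tri (γ r) (g • x) (g • γ r)
    rw [hI, a1] at t1
    have t2 : X.d (γ r) (g • γ r) ≤ l := by omega
    have t3 : (X.d (γ r) (g • γ r) : ℝ) ≤ l := by exact_mod_cast t2
    linarith

theorem exists_lines (h1 : S_tau) (hI : X.Inv Q) {δ : ℕ} (P : Q → Prop) (rep : Q → Q)
    (hr1 : ∀ g, P g → P (rep g)) (hr : ∀ g h, Pool.Agent.H59Z.NA.Tlines.Rel g h → rep g = rep h)
    (hc : ∀ g, P g → ∀ a, Commute a g → a ∈ Subgroup.zpowers g)
    (hax : ∀ g, P g → ∃ (ζ : ℤ → V) (σ : ℝ) (l : ℤ), 0 < σ ∧ σ ≤ 1 ∧ σ * l = X.tau g ∧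
      QG X δ σ ζ ∧ (∀ (k a : ℤ), g ^ k • ζ a = ζ (a + k * l)) ∧
      ∀ a, (X.d (ζ a) (g • ζ a) : ℝ) ≤ X.tau g + 12 * δ) :
    ∃ (y : Idx P rep → ℤ → V) (σ : Idx P rep → ℝ) (l : Idx P rep → ℤ),
      (∀ i, 0 < σ i ∧ σ i ≤ 1 ∧ σ i * l i = X.tau i.1 ∧ QG X δ (σ i) (y i) ∧
        (∀ a : ℤ, i.1 • y i a = y i (a + l i)) ∧
        ∀ a, (X.d (y i a) (i.1 • y i a) : ℝ) ≤ X.tau i.1 + 12 * δ) ∧
      ∀ (s : Q) (i i' : Idx P rep), i'.1 = s * i.1 * s⁻¹ →
        σ i' = σ i ∧ ∃ j : ℤ, ∀ a, y i' a = s • y i (a + j) := by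
  choose ζ σ l hax using hax
  have hcongr : ∀ r r' (h : P r) (h' : P r'), r = r' → ζ r h = ζ r' h' ∧ σ r h = σ r' h' := by
    intro r r' h h' e; subst e; exact ⟨rfl, rfl⟩
  have ht : ∀ i : Idx P rep, ∃ s : Q, i.1 = s * rep i.1 * s⁻¹ := fun i => i.2.2
  choose t ht using ht
  refine ⟨fun i a => t i • ζ (rep i.1) (hr1 _ i.2.1) a, fun i => σ (rep i.1) (hr1 _ i.2.1),
    fun i => l (rep i.1) (hr1 _ i.2.1), fun i => ?_, fun s i i' hi => ?_⟩
  · obtain ⟨a1, a2, a3, a4, a5, a6⟩ := hax (rep i.1) (hr1 _ i.2.1)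
    have e : X.tau i.1 = X.tau (rep i.1) := by
      conv_lhs => rw [ht i]
      exact (h1 Q V X hI).2.2.2.2.1 _ _
    have e2 : ∀ z : V, i.1 • t i • z = t i • rep i.1 • z := by
      intro z
      conv_lhs => rw [ht i]
      rw [smul_smul, inv_mul_cancel_right, mul_smul]
    refine ⟨a1, a2, by rw [e]; exact a3, fun a b => ?_, fun a => ?_, fun a => ?_⟩
    · simp only
      rw [hI]; exact a4 a b
    · simp only
      have := a5 1 a
      rw [zpow_one, one_mul] at this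
      rw [e2, this]
    · simp only
      rw [e2, hI, e]; exact a6 a
  · have e1 : rep i'.1 = rep i.1 := (hr _ _ ⟨s, Or.inl hi⟩).symm
    have e2 := ht i'
    have e3 := ht i
    rw [e1] at e2
    have hcomm : Commute ((s * t i)⁻¹ * t i') (rep i.1) := by
      have e4 : t i' * rep i.1 * (t i')⁻¹ = s * (t i * rep i.1 * (t i)⁻¹) * s⁻¹ := by
        rw [← e2, ← e3, hi]
      show (s * t i)⁻¹ * t i' * rep i.1 = rep i.1 * ((s * t i)⁻¹ * t i')
      calc (s * t i)⁻¹ * t i' * rep i.1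
          = (s * t i)⁻¹ * (t i' * rep i.1 * (t i')⁻¹) * t i' := by group
        _ = _ := by rw [e4]; group
    obtain ⟨j, hj⟩ := Subgroup.mem_zpowers_iff.mp (hc _ (hr1 _ i.2.1) _ hcomm)
    obtain ⟨c1, c2⟩ := hcongr _ _ (hr1 _ i'.2.1) (hr1 _ i.2.1) e1
    refine ⟨c2, j * l (rep i.1) (hr1 _ i.2.1), fun a => ?_⟩
    have e6 : t i' = s * t i * rep i.1 ^ j := by
      rw [hj]; group
    simp only
    rw [c1, e6, mul_smul, mul_smul, (hax (rep i.1) (hr1 _ i.2.1)).2.2.2.2.1]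

theorem eq_of_zpowers (h1 : S_tau) (hI : X.Inv Q) (P : Q → Prop) (rep : Q → Q)
    (hr : ∀ g h, Pool.Agent.H59Z.NA.Tlines.Rel g h → rep g = rep h)
    (hτ : ∀ g, P g → 0 < X.tau g)
    (hn : ∀ g, P g → ∀ t : Q, t * g * t⁻¹ ∈ Subgroup.zpowers g → t ∈ Subgroup.zpowers g)
    (i j : Idx P rep) (h : Subgroup.zpowers i.1 = Subgroup.zpowers j.1) : i = j := by
  have hz := (h1 Q V X hI).2.2.2.1
  obtain ⟨a, ha⟩ := Subgroup.mem_zpowers_iff.mp (h ▸ Subgroup.mem_zpowers i.1)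
  obtain ⟨b, hb⟩ := Subgroup.mem_zpowers_iff.mp (h.symm ▸ Subgroup.mem_zpowers j.1)
  have t1 := hz j.1 a
  have t2 := hz i.1 b
  rw [ha] at t1
  rw [hb] at t2
  have pi := hτ _ i.2.1
  have pj := hτ _ j.2.1
  have hab : |(a : ℝ)| * |(b : ℝ)| = 1 := by
    have : (|(a : ℝ)| * |(b : ℝ)| - 1) * X.tau i.1 = 0 := by
      rw [t2] at t1; linarith
    rcases mul_eq_zero.mp this with h | h
    · linarith
    · linarith
  have hab' : |a| * |b| = 1 := by exact_mod_cast hab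
  have ha1 : |a| = 1 := Int.eq_one_of_mul_eq_one_right (abs_nonneg a) hab'
  rcases (abs_eq (by norm_num : (0 : ℤ) ≤ 1)).mp ha1 with h' | h'
  · rw [h', zpow_one] at ha
    exact Subtype.ext ha.symm
  · exfalso
    rw [h', zpow_neg_one] at ha
    obtain ⟨s, hs⟩ := i.2.2
    obtain ⟨t, ht⟩ := j.2.2
    have e1 : rep j.1 = rep i.1 := hr _ _ ⟨1, Or.inr (by simp [ha])⟩
    rw [e1] at ht
    have e2 : s * t⁻¹ * j.1 * (s * t⁻¹)⁻¹ = j.1⁻¹ := by
      rw [ha]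
      conv_rhs => rw [hs]
      conv_lhs => rw [ht]
      group
    obtain ⟨k, hk⟩ := Subgroup.mem_zpowers_iff.mp (hn _ j.2.1 (s * t⁻¹)
      (by rw [e2]; exact Subgroup.inv_mem _ (Subgroup.mem_zpowers _)))
    have e3 : j.1 = j.1⁻¹ := by
      rw [← e2, ← hk]; group
    have e4 : j.1 ^ (2 : ℤ) = j.1 ^ (0 : ℤ) := by
      rw [zpow_zero, zpow_two]
      nth_rewrite 2 [e3]
      simp
    have t3 := hz j.1 2
    have t4 := hz j.1 0
    rw [e4, t4] at t3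
    simp at t3
    linarith

end Equiv

end TlinesG

open TlinesG in
theorem thm_linesG (h1 : S_tau) (h2 : S_hyp) (h3 : S_axis) : S_linesG := by
  intro Q V _ _ X δ Δ L P m hI hF hδ hL hPc hP hΔ
  obtain ⟨rep, hr1, hr⟩ := exists_rep P
  have hτ : ∀ g, P g → 0 < X.tau g := fun g hg => (hP g hg).1
  have hn : ∀ g, P g → ∀ t : Q, t * g * t⁻¹ ∈ Subgroup.zpowers g → t ∈ Subgroup.zpowers g :=
    fun g hg => (hP g hg).2.1
  have hc : ∀ g, P g → ∀ a, Commute a g → a ∈ Subgroup.zpowers g := by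
    intro g hg a ha
    refine hn g hg a ?_
    rw [ha.eq, mul_inv_cancel_right]
    exact Subgroup.mem_zpowers g
  obtain ⟨y, σ, l, hline, heq⟩ := exists_lines h1 hI (δ := δ) P rep
    (fun g hg => (hr1 g hg).1) hr hc (fun g hg => by
      obtain ⟨x, hx⟩ := h3 Q V X δ hI hF g (hτ g hg)
      exact exists_line h1 hI hF g (hτ g hg) x fun k => hx _ ((Commute.refl _).zpow_left k))
  let _ : MulAction Q (Idx P rep) := act P rep (fun g s hg => (hPc g s hg).1) hr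
  have hsm : ∀ (s : Q) (i : Idx P rep), (s • i).1 = s * i.1 * s⁻¹ := fun _ _ => rfl
  have hy : ∀ i, QG X δ (σ i) (y i) := fun i => (hline i).2.2.2.1
  have hp : ∀ i : Idx P rep, 0 < σ i := fun i => (hline i).1
  have hB : ∀ i : Idx P rep, σ i ≤ 1 := fun i => (hline i).2.1
  have hys : ∀ (s : Q) (i : Idx P rep), ∃ j : ℤ, ∀ a, y (s • i) a = s • y i (a + j) :=
    fun s i => (heq s i (s • i) (hsm s i)).2
  have hσs : ∀ (s : Q) (i : Idx P rep), σ (s • i) = σ i :=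
    fun s i => (heq s i (s • i) (hsm s i)).1
  have hts : ∀ (s : Q) (i : Idx P rep), X.tau (s • i).1 = X.tau i.1 := fun s i => by
    rw [hsm, (h1 Q V X hI).2.2.2.2.1]
  have hLr : (Δ : ℝ) + 3000 * δ ≤ L := by exact_mod_cast hL
  have hδr : (1 : ℝ) ≤ δ := by exact_mod_cast hδ
  have hΔr : (0 : ℝ) ≤ Δ := Nat.cast_nonneg _
  have hproj : ∀ i p q, (L : ℝ) < |σ i * (kk X (y i) p : ℝ) - σ i * (kk X (y i) q : ℝ)| →
      X.d p (y i (kk X (y i) p)) + X.d (y i (kk X (y i) p)) (y i (kk X (y i) q)) +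
        X.d (y i (kk X (y i) q)) q ≤ X.d p q + (297 * δ + 6) ∧
      L < X.d (y i (kk X (y i) p)) (y i (kk X (y i) q)) + 36 * δ := by
    intro i p q hlt
    have l1 := kk_df (hp i) (hy i) (kk X (y i) p) (kk X (y i) q)
    have l2 : L < X.d (y i (kk X (y i) p)) (y i (kk X (y i) q)) + 36 * δ := by
      exact_mod_cast hlt.trans_le l1
    rcases dich' hF (hp i) (hB i) (hy i) p q with h | h
    · exact ⟨h, l2⟩
    · omega
  refine ⟨Idx P rep, inferInstance,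
    { Y := fun i => Set.range (y i)
      c := fun i p => σ i * (kk X (y i) p : ℝ)
      gen := fun i => i.1
      tr := fun i => X.tau i.1
      mu := fun i => m i.1
      Y_ne := fun i => ⟨_, 0, rfl⟩
      Y_smul := ?_
      c_smul := ?_
      gen_smul := hsm
      tr_smul := hts
      mu_smul := fun s i => by rw [hsm]; exact (hPc _ s i.2.1).2
      stab := ?_
      c_gen := ?_
      tr_pos := fun i => hτ _ i.2.1
      big := fun i => (hP _ i.2.1).2.2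
      conv := ?_
      lip := ?_
      sep := ?_
      near := ?_
      proj := ?_ }, fun i => ⟨i.2.1, rfl⟩, ?_⟩
  · intro s i p
    obtain ⟨j, hj⟩ := hys s i
    constructor
    · rintro ⟨a, ha⟩
      rw [hj] at ha
      exact ⟨a + j, MulAction.injective s ha⟩
    · rintro ⟨a, rfl⟩
      exact ⟨a - j, by rw [hj, sub_add_cancel]⟩
  · intro s i p q
    obtain ⟨j, hj⟩ := hys s i
    rw [kk_sm hI (hp i) (hy i) (hp _) (hy _) s j hj, kk_sm hI (hp i) (hy i) (hp _) (hy _) s j hj,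
      hσs]
    push_cast; ring
  · intro s i
    constructor
    · intro h
      have := congrArg Subtype.val h
      rw [hsm] at this
      refine hc _ i.2.1 s ?_
      show s * i.1 = i.1 * s
      conv_rhs => rw [← this]
      group
    · intro h
      obtain ⟨k, rfl⟩ := Subgroup.mem_zpowers_iff.mp h
      apply Subtype.ext
      rw [hsm]; group
  · intro i p
    rw [kk_sm hI (hp i) (hy i) (hp i) (hy i) i.1 (-l i)
      (fun a => by rw [(hline i).2.2.2.2.1]; congr 1; ring), ← (hline i).2.2.1]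
    push_cast; ring
  · rintro i _ ⟨a, rfl⟩ _ ⟨c, rfl⟩ z hz
    obtain ⟨b, hb⟩ := conv' hF (hp i) (hB i) (hy i) a c z hz
    exact ⟨_, ⟨b, rfl⟩, by omega⟩
  · intro i p q
    have l1 := kk_df (hp i) (hy i) (kk X (y i) p) (kk X (y i) q)
    have l2 : X.d (y i (kk X (y i) p)) (y i (kk X (y i) q)) + 36 * δ ≤ X.d p q + L := by
      rcases dich' hF (hp i) (hB i) (hy i) p q with h | h <;> omega
    have l3 : (X.d (y i (kk X (y i) p)) (y i (kk X (y i) q)) : ℝ) + 36 * δ ≤ X.d p q + L := by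
      exact_mod_cast l2
    exact l1.trans l3
  · rintro i j hij _ ⟨a, rfl⟩ _ ⟨c, rfl⟩
    by_contra hlt
    push Not at hlt
    obtain ⟨l1, l2⟩ := hproj i _ _ hlt
    have mv : ∀ u : V, X.d (y j a) u + X.d u (y j c) ≤ X.d (y j a) (y j c) + (297 * δ + 6) →
        u ∈ Ax X j.1 (1500 * δ) := by
      intro u hu
      obtain ⟨z', hz1, hz2⟩ := (h2 V X).2.1 δ hF _ _ u _ hu
      obtain ⟨b, hb⟩ := conv' hF (hp j) (hB j) (hy j) a c z' hz1
      have s1 := (hline j).2.2.2.2.2 b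
      have s2 := X.tri u z' (y j b)
      have s3 := X.tri u (y j b) (j.1 • u)
      have s4 := X.tri (y j b) (j.1 • y j b) (j.1 • u)
      rw [hI, X.comm (y j b) u] at s4
      have s5 : X.d u (j.1 • u) ≤ X.d (y j b) (j.1 • y j b) + 756 * δ := by omega
      have s6 : (X.d u (j.1 • u) : ℝ) ≤ X.d (y j b) (j.1 • y j b) + 756 * δ := by
        exact_mod_cast s5
      show (X.d u (j.1 • u) : ℝ) ≤ X.tau j.1 + ((1500 * δ : ℕ) : ℝ)
      push_cast
      linarith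
    have mi : ∀ k : ℤ, y i k ∈ Ax X i.1 (1500 * δ) := by
      intro k
      have s1 := (hline i).2.2.2.2.2 k
      show (X.d (y i k) (i.1 • y i k) : ℝ) ≤ X.tau i.1 + ((1500 * δ : ℕ) : ℝ)
      push_cast
      linarith
    have t1 := X.tri (y i (kk X (y i) (y j a))) (y i (kk X (y i) (y j c))) (y j c)
    have t2 := X.tri (y j a) (y i (kk X (y i) (y j a))) (y i (kk X (y i) (y j c)))
    have hle := hΔ i.1 j.1 i.2.1 j.2.1
      (fun h => hij (eq_of_zpowers h1 hI P rep hr hτ hn i j h)) _ _ (mi _) (mi _)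
      (mv (y i (kk X (y i) (y j a))) (by omega)) (mv (y i (kk X (y i) (y j c))) (by omega))
    omega
  · rintro i _ ⟨a, rfl⟩ _ ⟨c, rfl⟩
    have l1 := (hy i a c).2
    have l2 := abs_le.1 (kk_sf (hp i) (hy i) a)
    have l3 := abs_le.1 (kk_sf (hp i) (hy i) c)
    have l4 : σ i * |(a : ℝ) - c| = |σ i * a - σ i * c| := by
      rw [← mul_sub, abs_mul, abs_of_pos (hp i)]
    have l5 := le_abs_self (σ i * (kk X (y i) (y i a) : ℝ) - σ i * (kk X (y i) (y i c) : ℝ))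
    have l6 := neg_abs_le (σ i * (kk X (y i) (y i a) : ℝ) - σ i * (kk X (y i) (y i c) : ℝ))
    have l7 : |σ i * a - σ i * c| ≤
        |σ i * (kk X (y i) (y i a) : ℝ) - σ i * (kk X (y i) (y i c) : ℝ)| + 72 * δ := by
      rw [abs_le]; constructor <;> linarith [l2.1, l2.2, l3.1, l3.2]
    linarith
  · intro i p q hlt
    obtain ⟨l1, -⟩ := hproj i p q hlt
    refine ⟨_, ⟨kk X (y i) p, rfl⟩, _, ⟨kk X (y i) q, rfl⟩, by omega, ?_, ?_⟩
    · exact (kk_sf (hp i) (hy i) _).trans (by linarith)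
    · exact (kk_sf (hp i) (hy i) _).trans (by linarith)
  · intro g hg
    obtain ⟨hP1, s, hs | hs⟩ := hr1 g hg
    · exact ⟨⟨g, hg, s⁻¹, by rw [hs]; group⟩, Or.inl rfl⟩
    · have e1 : rep g⁻¹ = rep g := hr _ _ ⟨1, Or.inr (by simp)⟩
      have e2 : g⁻¹ = s⁻¹ * rep g * s⁻¹⁻¹ := by rw [hs]; group
      refine ⟨⟨g⁻¹, by rw [e2]; exact (hPc _ _ hP1).1, s⁻¹, by rw [e1]; exact e2⟩, Or.inr ?_⟩
      simp

end Pool.Agent.SCZ.Geo
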