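import Pool.Agent.SCZ.Geo.Rel

set_option autoImplicit false

/-!
# Centralisers of loxodromic elements of the quotient, relative version
-/

namespace Pool.Agent.SCZ.Geo

open Pool.Agent.H59Z.NA

namespace TloxqR

variable {Q V I : Type} [Group Q] [MulAction Q V] [MulAction Q I] {X : GM V}
  {L : ℕ} {F : Fam Q V I X L} {R W J : Type} [Group R] [MulAction R W] [MulAction R J]
  {π : Q →* R} {A : AG R W J L} {φ : V → W}

/-- An element which fixes a line is elliptic. -/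
theorem ell_of_fix {g : R} {l : J} (hg : g • l = l) : Ell A.Z g := by
  obtain ⟨p, hp⟩ := A.Y_ne l
  refine ⟨p, 1, ?_⟩
  intro h hh
  have hl : h • l = l := by
    have : Subgroup.zpowers g ≤ MulAction.stabilizer R l := by
      rw [Subgroup.zpowers_le]
      exact hg
    exact this hh
  refine A.clique l p hp (h • p) ?_
  have := (A.Y_smul h l p).mpr hp
  rwa [hl] at this

/-- A nontrivial element commuting with a loxodromic one is loxodromic. -/
theorem lox_of_comm (h1 : S_tau) (hth : ∀ D : ℕ, ∃ B : ℕ, Thin A.Z R D B) {u : R}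
    (hu : 0 < A.Z.tau u) {f : R} (hf : Commute f u) (hne : f ≠ 1) : 0 < A.Z.tau f := by
  obtain ⟨x⟩ := A.ne
  obtain ⟨t1, -⟩ := h1 R W A.Z A.inv
  obtain ⟨B, hB⟩ := hth (A.Z.d x (f • x))
  obtain ⟨N, hN⟩ := exists_nat_ge ((B : ℝ) / A.Z.tau u)
  have hfar : B ≤ A.Z.d x (u ^ N • x) := by
    have a1 := t1 u x N
    rw [div_le_iff₀ hu] at hN
    rw [mul_comm] at a1
    exact Nat.cast_le.mp (hN.trans a1)
  have hy : A.Z.d (u ^ N • x) (f • u ^ N • x) = A.Z.d x (f • x) := by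
    rw [← mul_smul, (hf.pow_right N).eq, mul_smul, A.inv]
  rcases hB f x (u ^ N • x) le_rfl hy.le hfar with h | h
  · exact absurd h hne
  · exact h

/-- The dichotomy for the elements of a ball in the centraliser. -/
theorem key (h1 : S_tau) (h2 : S_pos) (h3 : S_md) (hX : X.Inv Q) (hq : IsQuo F π A φ)
    (hac : ∀ D : ℕ, X.Acyl Q D (L + 20 * D)) {u : R} (hu : 0 < A.Z.tau u) (x : W) (D : ℕ) :
    (∃ (l : J) (al e : R → ℤ),
      (∀ g h : R, Commute g u → A.Z.d x (g • x) ≤ D → Commute (g * h) u →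
        A.Z.d x ((g * h) • x) ≤ D → e (g * h) = e g + al h) ∧
      (∀ g g' : R, Commute g u → A.Z.d x (g • x) ≤ D → Commute g' u →
        A.Z.d x (g' • x) ≤ D → e g = e g' → g⁻¹ • l = g'⁻¹ • l)) ∨
    ∃ lf : R → Q, (∀ g : R, Commute g u → A.Z.d x (g • x) ≤ D → π (lf g) = g) ∧
      ∀ g h : R, Commute g u → A.Z.d x (g • x) ≤ D → Commute h u → A.Z.d x (h • x) ≤ D →
        Commute (lf g) (lf h) := by
  obtain ⟨t1, -⟩ := h1 R W A.Z A.inv
  obtain ⟨-, p2, -, -, p5⟩ := h2 R W J L A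
  obtain ⟨N, hN⟩ := exists_nat_ge
    ((((20 * (15000 * (D + 123)) + 2) + 10 * D + 2000 : ℕ) : ℝ) / A.Z.tau u)
  have hfar : (20 * (15000 * (D + 123)) + 2) + 10 * D + 2000 ≤ A.Z.d x (u ^ N • x) := by
    have a1 := t1 u x N
    rw [div_le_iff₀ hu] at hN
    rw [mul_comm] at a1
    exact Nat.cast_le.mp (hN.trans a1)
  have hy : ∀ g : R, Commute g u →
      A.Z.d (u ^ N • x) (g • u ^ N • x) = A.Z.d x (g • x) := by
    intro g hg
    rw [← mul_smul, (hg.pow_right N).eq, mul_smul, A.inv]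
  rcases h3 Q V I X L F R W J π A φ hX hq x (u ^ N • x) D _ hfar with
    ⟨l, hl1, hl2, hl3⟩ | ⟨p, q, lf, hr, hlf, -⟩
  · left
    have hL : (0 : ℝ) ≤ 600 * L := by positivity
    obtain ⟨q1, q2⟩ := p5 l x (u ^ N • x) (600 * L)
      {s | Commute s u ∧ A.Z.d x (s • x) ≤ D} hL (by
        rintro s ⟨hs1, hs2⟩
        refine ⟨p2 l _ _ (hs2.trans hl1), p2 l _ _ ?_⟩
        rw [hy s hs1]
        exact hs2.trans hl2) (by linarith)
    refine ⟨l, fun h => ((A.Z.d (h • x) (u ^ N • x) : ℤ) - A.Z.d x (u ^ N • x)),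
      fun g => (A.Z.eta (A.Y l) (g • x) : ℤ), ?_, ?_⟩
    · intro g h a1 a2 a3 a4
      exact q1 g h ⟨a1, a2⟩ ⟨a3, a4⟩
    · intro g g' a1 a2 a3 a4 a5
      exact q2 g g' ⟨a1, a2⟩ ⟨a3, a4⟩ (Int.natCast_inj.mp a5)
  · right
    have hpq : L + 20 * (15000 * L * (D + 123)) ≤ X.d p q := by
      by_contra hc
      have h5 : X.d p q ≤ (20 * (15000 * (D + 123)) + 1) * L := by
        have : (20 * (15000 * (D + 123)) + 1) * L = L + 20 * (15000 * L * (D + 123)) := by ring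
        omega
      have := hq.scale _ p q h5
      omega
    refine ⟨lf, ?_, ?_⟩
    · intro g a1 a2
      exact (hlf g D le_rfl a2 (by rw [hy g a1]; exact a2)).1
    · intro g h a1 a2 a3 a4
      obtain ⟨-, b1, b2⟩ := hlf g D le_rfl a2 (by rw [hy g a1]; exact a2)
      obtain ⟨-, b3, b4⟩ := hlf h D le_rfl a4 (by rw [hy h a3]; exact a4)
      exact hac _ (lf g) (lf h) p q b1 b2 b3 b4 hpq

end TloxqR

theorem thm_loxqR (h1 : S_tau) (h2 : S_pos) (h3 : S_md) (h4 : S_basic) : S_loxqR := by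
  intro Q V I _ _ _ X L F R W J _ _ _ π A φ hX hq hac hth u hu
  obtain ⟨x⟩ := A.ne
  have hone : ∀ D : ℕ, A.Z.d x ((1 : R) • x) ≤ D := by
    intro D; rw [one_smul, A.Z.self]; exact Nat.zero_le _
  refine ⟨?_, fun f hf hne => TloxqR.lox_of_comm h1 hth hu hf hne⟩
  intro a b ha hb
  obtain ⟨D, d1, d2, d3, d4⟩ : ∃ D : ℕ, A.Z.d x (a • x) ≤ D ∧ A.Z.d x (b • x) ≤ D ∧
      A.Z.d x ((a * b) • x) ≤ D ∧ A.Z.d x ((b * a) • x) ≤ D :=
    ⟨A.Z.d x (a • x) + A.Z.d x (b • x) + A.Z.d x ((a * b) • x) + A.Z.d x ((b * a) • x),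
      by omega, by omega, by omega, by omega⟩
  have hab : Commute (a * b) u := ha.mul_left hb
  have hba : Commute (b * a) u := hb.mul_left ha
  rcases TloxqR.key h1 h2 h3 hX hq hac hu x D with ⟨l, al, e, q1, q2⟩ | ⟨lf, q1, q2⟩
  · have e1 := q1 1 a (Commute.one_left u) (hone D) (by rwa [one_mul]) (by rwa [one_mul])
    have e2 := q1 1 b (Commute.one_left u) (hone D) (by rwa [one_mul]) (by rwa [one_mul])
    rw [one_mul] at e1 e2
    have e3 := q1 a b ha d1 hab d3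
    have e4 := q1 b a hb d2 hba d4
    have e5 := q2 (a * b) (b * a) hab d3 hba d4 (by omega)
    have e6 : ((b * a) * (a * b)⁻¹) • l = l := by
      rw [mul_smul, e5, smul_inv_smul]
    have e7 : (b * a) * (a * b)⁻¹ = 1 := by
      by_contra hne
      have t0 := (h4 R W A.Z 122 A.inv A.four).2.2.1 _ (TloxqR.ell_of_fix e6)
      have t1 := TloxqR.lox_of_comm h1 hth hu (hba.mul_left hab.inv_left) hne
      exact absurd t0 t1.ne'
    exact (mul_inv_eq_one.mp e7).symm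
  · have := (q2 a b ha d1 hb d2).map π
    rwa [q1 a ha d1, q1 b hb d2] at this

end Pool.Agent.SCZ.Geo
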