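import Pool.Agent.SCZ.Geo.Rel

set_option autoImplicit false

namespace Pool.Agent.SCZ.Geo

open Pool.Agent.H59Z.NA

namespace Tpersist

variable {Q V I : Type} [Group Q] [MulAction Q V] [MulAction Q I] {X : GM V} {L : ℕ}
  (F : Fam Q V I X L)

theorem c_pow (i : I) (p : V) (n : ℕ) : F.c i (F.gen i ^ n • p) = F.c i p + n * F.tr i := by
  induction n with
  | zero => simp
  | succ n ih => rw [pow_succ', mul_smul, F.c_gen, ih]; push_cast; ring

theorem gen_inf (i : I) (n : ℕ) (h : F.gen i ^ n = 1) : n = 0 := by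
  obtain ⟨p, -⟩ := F.Y_ne i
  have h1 := c_pow F i p n
  rw [h, one_smul] at h1
  have h2 : (n : ℝ) * F.tr i = 0 := by linarith
  rcases mul_eq_zero.1 h2 with h3 | h3
  · exact_mod_cast h3
  · exact absurd h3 (F.tr_pos i).ne'

end Tpersist

theorem thm_persist (h1 : S_tau) (h2 : S_fam) : S_persist := by
  intro Q V I _ _ _ X δ L F R W J _ _ _ π A φ ψ hI hF hδ hq
  obtain ⟨-, -, -, -, -, f6, -⟩ := h2 Q V I X δ L F hI hF hδ
  have hL : (1 : ℝ) ≤ L := by exact_mod_cast A.hL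
  have p1 : ∀ (Ω : ℝ) (p q : V), 0 ≤ Ω → Ω ≤ (49 * 10 ^ 6 : ℝ) * L →
      (∀ i, |F.c i p - F.c i q| ≤ Ω) →
      (X.d p q : ℝ) ≤ (Ω + 2000 * L) * (A.Z.d (φ p) (φ q) + 1) := by
    intro Ω p q h0 hΩ hc
    have a1 := hq.ang_le Ω p q hc h0 (by linarith)
    obtain ⟨q', hq', hd, hang⟩ := hq.quo.lift (Ω + 1000 * L) p (φ q) a1 (by linarith)
    obtain ⟨k, hk, rfl⟩ := hq.quo.φ_eq q q' hq'.symm
    have hk1 : k = 1 := hq.quo.inj k q hk fun i => by
      have b1 := abs_le.1 (hc i)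
      have b2 := abs_le.1 (hang i)
      rw [abs_lt]
      constructor <;> linarith
    rw [hk1, one_smul] at hd
    rw [show Ω + 2000 * L = Ω + 1000 * L + 1000 * L by ring]
    exact hd
  refine ⟨p1, fun u p θ hθ hd hu => ?_, fun k p hk hd => ?_, fun i g => ?_, fun i => ?_,
    fun H hH => ?_, fun H l hl => ?_⟩
  · obtain ⟨t1, -⟩ := h1 Q V X hI
    obtain ⟨-, -, -, -, -, t6, -⟩ := h1 R W A.Z A.inv
    have hθ' : (θ : ℝ) ≤ 24 * 10 ^ 6 * L := by exact_mod_cast hθ
    have hθ0 : (0 : ℝ) ≤ θ := Nat.cast_nonneg _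
    have hC : (0 : ℝ) < 2 * θ + 2015 * L := by linarith
    have h3 : X.tau u / (2 * θ + 2015 * L) ≤ A.Z.tau (π u) := by
      refine t6 (π u) (φ p) _ 1 fun m => ?_
      have b1 := p1 (2 * θ + 15 * L) p (u ^ m • p) (by linarith) (by linarith) fun i => by
        have := f6 i u p θ m (hu i) hd
        rwa [zpow_natCast] at this
      rw [hq.quo.φ_smul, map_pow] at b1
      have b2 := t1 u p m
      rw [div_mul_eq_mul_div, div_le_iff₀ hC]
      calc X.tau u * m ≤ _ := b2.trans b1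
        _ = _ := by ring
    rwa [div_le_iff₀ hC, mul_comm] at h3
  · refine hq.quo.inj k p hk fun i => ?_
    have b1 := F.lip i p (k • p)
    have b2 : (X.d p (k • p) : ℝ) ≤ 99 * 10 ^ 6 * L := by exact_mod_cast hd
    rcases eq_or_lt_of_le (b1.trans (add_le_add_left b2 _)) with h | h <;> linarith
  · constructor
    · intro hg
      obtain ⟨g', rfl⟩ := hq.quo.surj g
      rw [← hq.ψ_smul] at hg
      obtain ⟨k, hk, hk2⟩ := hq.ψ_eq _ _ hg
      rw [← mul_smul] at hk2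
      obtain ⟨n, hn⟩ := (F.stab _ _).1 hk2.symm
      refine ⟨n, ?_⟩
      have := congrArg π hn
      simpa [hk] using this
    · rintro ⟨n, rfl⟩
      change π (F.gen i) ^ n • ψ i = ψ i
      rw [← map_zpow, ← hq.ψ_smul, (F.stab _ _).2 ⟨n, rfl⟩]
  · have hmu : 0 < F.mu i := by
      by_contra h
      have h0 : F.mu i = 0 := by omega
      have := F.big i
      rw [h0] at this
      simp only [Nat.cast_zero, zero_mul] at this
      linarith
    have hrel : π (F.gen i) ^ F.mu i = 1 := by rw [← map_pow]; exact hq.quo.rel i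
    refine (orderOf_eq_iff hmu).2 ⟨hrel, fun m hm hm0 hm1 => ?_⟩
    obtain ⟨k, hk⟩ := hq.quo.kerstab i (F.gen i ^ m) (Subgroup.npow_mem_zpowers _ _)
      (by rw [map_pow]; exact hm1)
    have hk' : F.gen i ^ ((F.mu i : ℤ) * k - m) = 1 := by
      rw [zpow_sub, zpow_mul, zpow_natCast, zpow_natCast]
      exact mul_inv_eq_one.2 hk
    have h4 := Tpersist.gen_inf F i _ (pow_natAbs_eq_one.2 hk')
    have h5 : (F.mu i : ℤ) ∣ m := ⟨k, by omega⟩
    have h6 := Int.le_of_dvd (by exact_mod_cast hm0) h5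
    omega
  · obtain ⟨x, r, hx⟩ := hH
    refine ⟨φ x, r + 1, ?_⟩
    rintro _ ⟨h, hh, rfl⟩
    rw [← hq.quo.φ_smul]
    refine hq.quo.scale r x (h • x) ((hx h hh).trans ?_)
    have := A.hL
    nlinarith
  · obtain ⟨p, hp⟩ := A.Y_ne l
    refine ⟨p, 1, fun h hh => A.clique l p hp _ ?_⟩
    rw [← hl h hh, A.Y_smul]
    exact hp

end Pool.Agent.SCZ.Geo
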