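import Pool.Agent.SCZ.Geo.Rel

set_option autoImplicit false

namespace Pool.Agent.SCZ.Geo

open Pool.Agent.H59Z.NA

namespace Tscale

variable {Q V : Type} [Group Q] [MulAction Q V] {X : GM V} {δ : ℕ}

theorem inv_left (hi : X.Inv Q) (g : Q) (x y : V) : X.d (g⁻¹ • x) y = X.d x (g • y) := by
  rw [← hi g, smul_inv_smul]

theorem inv_right (hi : X.Inv Q) (g : Q) (x y : V) : X.d x (g⁻¹ • y) = X.d (g • x) y := by
  rw [← hi g, smul_inv_smul]

/-- moving one end point -/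
theorem ends (h4 : X.Four δ) (x x' y z : V) (D : ℕ) (hz : X.d x z + X.d z y = X.d x y)
    (hx : X.d x' x ≤ D) (ha : D + δ < X.d x z) :
    X.d x' z + X.d z y ≤ X.d x' y + δ ∧ X.d x' y ≤ X.d x' z + X.d z y := by
  refine ⟨?_, X.tri _ _ _⟩
  have h := h4 x' z x y
  have c1 := X.comm z x
  omega

theorem excess (hi : X.Inv Q) (h4 : X.Four δ) (g : Q) (x y z : V) (D : ℕ)
    (hz : X.d x z + X.d z y = X.d x y) (hx : X.d x (g • x) ≤ D) (hy : X.d y (g • y) ≤ D)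
    (ha : D + 2 * δ < X.d x z) (hb : D + 2 * δ < X.d z y) :
    X.d x (g • z) + X.d (g • z) y ≤ X.d x y + 2 * δ := by
  have e1 := hi g x z
  have e2 := hi g z y
  have e3 := hi g x y
  have h1 := (ends h4 (g • x) x (g • y) (g • z) D (by omega) hx (by omega)).1
  have h2 := h4 y (g • z) x (g • y)
  have c1 := X.comm y x
  have c2 := X.comm (g • z) x
  have c3 := X.comm (g • z) y
  omega

theorem lox (h1 : S_hyp) (h3 : S_basic) (hi : X.Inv Q) (h4 : X.Four δ) (g : Q) (x y z : V)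
    (D : ℕ) (hz : X.d x z + X.d z y = X.d x y) (hx : X.d x (g • x) ≤ D)
    (hy : X.d y (g • y) ≤ D) (ha : 10 * D + 20 * δ ≤ X.d x z) (hb : 10 * D + 20 * δ ≤ X.d z y)
    (hl : 12 * δ < X.d z (g • z)) : 0 < X.tau g := by
  have k1 := (h1 V X).2.2 Q δ hi h4 g x y z D hz hx hy
  have k2 := excess hi h4 g x y z D hz hx hy (by omega) (by omega)
  have k3 := h4 z (g • z) x y
  have hx' : X.d (g⁻¹ • x) x ≤ D := by rw [inv_left hi]; exact hx
  have hy' : X.d y (g⁻¹ • y) ≤ D := by rw [inv_right hi, X.comm]; exact hy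
  have hx'' : X.d (g • x) x ≤ D := by rw [X.comm]; exact hx
  have k4 := ends h4 x (g⁻¹ • x) y z D hz hx' (by omega)
  have k5 := ends h4 x (g • x) y z D hz hx'' (by omega)
  have e1 : X.d (g⁻¹ • x) z = X.d x (g • z) := inv_left hi g x z
  have e2 : X.d x (g⁻¹ • z) = X.d (g • x) z := inv_right hi g x z
  have e3 : X.d x (g⁻¹ • y) = X.d (g • x) y := inv_right hi g x y
  have e4 : X.d (g⁻¹ • x) (g⁻¹ • y) = X.d x y := hi g⁻¹ x y
  have k6 := h4 x y (g⁻¹ • x) (g⁻¹ • y)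
  have k7 := h4 x (g⁻¹ • y) (g⁻¹ • x) y
  have c1 := X.comm x (g⁻¹ • x)
  have c2 := X.comm y (g⁻¹ • x)
  have c3 := X.comm y (g⁻¹ • y)
  have c4 := X.comm (g⁻¹ • y) (g⁻¹ • x)
  have c5 := X.comm z x
  have c6 := X.comm (g • z) x
  have t1 := X.tri x (g⁻¹ • z) (g • z)
  have t2 := X.tri x (g • z) (g⁻¹ • z)
  have c7 := X.comm (g • z) (g⁻¹ • z)
  have k8 := (h3 Q V X δ hi h4).1 g (g⁻¹ • z)
  have e5 : (g ^ 2) • g⁻¹ • z = g • z := by rw [pow_two, mul_smul, smul_inv_smul]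
  have e6 : X.d (g⁻¹ • z) (g • g⁻¹ • z) = X.d z (g • z) := by
    rw [smul_inv_smul, inv_left hi]
  rw [e5, e6] at k8
  have k9 : X.d z (g • z) + δ < X.d (g⁻¹ • z) (g • z) := by omega
  have k10 : (X.d z (g • z) : ℝ) + δ < X.d (g⁻¹ • z) (g • z) := by exact_mod_cast k9
  linarith

theorem two_points (X : GM V) (x y : V) (A t : ℕ) (h : A + 2 * t ≤ X.d x y) :
    ∃ z₁ z₂, X.d x z₁ + X.d z₁ y = X.d x y ∧ X.d x z₂ + X.d z₂ y = X.d x y ∧
      t ≤ X.d x z₁ ∧ t ≤ X.d z₁ y ∧ t ≤ X.d x z₂ ∧ t ≤ X.d z₂ y ∧ A ≤ X.d z₁ z₂ := by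
  obtain ⟨z₁, a1, a2⟩ := X.geo x y t (by omega)
  obtain ⟨z₂, b1, b2⟩ := X.geo x y (X.d x y - t) (by omega)
  have t1 := X.tri x z₁ z₂
  exact ⟨z₁, z₂, by omega, by omega, by omega, by omega, by omega, by omega, by omega⟩

end Tscale

theorem thm_scale (h1 : S_hyp) (h2 : S_comm) (h3 : S_basic) : S_scale := by
  intro Q V _ _ X δ A hi h4 hT
  refine ⟨fun D g x y hx hy hA => ?_, fun hC hM hAc D g h x y hgx hgy hhx hhy hA => ?_⟩
  · obtain ⟨z₁, z₂, a1, a2, a3, a4, a5, a6, a7⟩ :=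
      Tscale.two_points X x y A (10 * D + 20 * δ) (by omega)
    by_cases p1 : X.d z₁ (g • z₁) ≤ 12 * δ
    · by_cases p2 : X.d z₂ (g • z₂) ≤ 12 * δ
      · exact hT g z₁ z₂ p1 p2 a7
      · exact Or.inr (Tscale.lox h1 h3 hi h4 g x y z₂ D a2 hx hy a5 a6 (not_le.1 p2))
    · exact Or.inr (Tscale.lox h1 h3 hi h4 g x y z₁ D a1 hx hy a3 a4 (not_le.1 p1))
  · obtain ⟨z₁, z₂, a1, a2, a3, a4, a5, a6, a7⟩ :=
      Tscale.two_points X x y A (10 * D + 20 * δ) (by omega)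
    obtain ⟨b1, b2, b3⟩ := h2 Q V X δ hi h4 g h x y z₁ D hgx hgy hhx hhy a1 a3 a4
    obtain ⟨c1, c2, c3⟩ := h2 Q V X δ hi h4 g h x y z₂ D hgx hgy hhx hhy a2 a5 a6
    rcases hT _ z₁ z₂ b1 c1 a7 with hu | hu
    · have e : g * h = h * g := by
        calc g * h = (g * h * g⁻¹ * h⁻¹) * (h * g) := by group
          _ = h * g := by rw [hu, one_mul]
      exact e
    · have d1 := hM _ g hu (hAc _ _ z₁ z₂ b1 c1 b2 c2 a7)
      have d2 := hM _ h hu (hAc _ _ z₁ z₂ b1 c1 b3 c3 a7)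
      obtain ⟨c, hc⟩ := hC _ hu
      obtain ⟨i, hi'⟩ := Subgroup.mem_zpowers_iff.1 (hc g d1)
      obtain ⟨j, hj'⟩ := Subgroup.mem_zpowers_iff.1 (hc h d2)
      rw [← hi', ← hj']
      exact Commute.zpow_zpow_self c i j

end Pool.Agent.SCZ.Geo
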