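import Pool.Agent.SCZ.Geo.Rel

set_option autoImplicit false

/-!
# One step of small cancellation, relative version
-/

namespace Pool.Agent.SCZ.Geo

open Pool.Agent.H59Z.NA

namespace TstepR

theorem thin_mono {Q V : Type} [Group Q] [MulAction Q V] {X : GM V} {θ A B : ℕ} (h : A ≤ B)
    (hT : Thin X Q θ A) : Thin X Q θ B :=
  fun g x y h1 h2 h3 => hT g x y h1 h2 (h.trans h3)

theorem acyl_mono {Q V : Type} [Group Q] [MulAction Q V] {X : GM V} {θ A B : ℕ} (h : A ≤ B)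
    (hT : X.Acyl Q θ A) : X.Acyl Q θ B :=
  fun g k x y h1 h2 h3 h4 h5 => hT g k x y h1 h2 h3 h4 (h.trans h5)

theorem mem_zpowers_inv {R : Type} [Group R] {t h : R} (ht : t ^ 2 = 1)
    (hh : h ∈ Subgroup.zpowers t) : h = 1 ∨ h = t := by
  obtain ⟨k, rfl⟩ := Subgroup.mem_zpowers_iff.1 hh
  have h2 : t ^ (2 : ℤ) = 1 := by exact_mod_cast ht
  rcases Int.even_or_odd' k with ⟨j, rfl | rfl⟩
  · left
    rw [zpow_mul, h2, one_zpow]
  · right
    rw [zpow_add, zpow_mul, h2, one_zpow, one_mul, zpow_one]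

theorem eq_one_of_odd {R : Type} [Group R] {t : R} {n : ℕ} (ht : t ^ 2 = 1) (hn : Odd n)
    (h : t ^ n = 1) : t = 1 := by
  obtain ⟨j, rfl⟩ := hn
  rw [pow_succ, pow_mul, ht, one_pow, one_mul] at h
  exact h

end TstepR

open TstepR in
theorem thm_stepR (h1 : S_tau) (h2 : S_lox) (h3 : S_acylq) (h4 : S_basic) (h5 : S_scale)
    (h6 : S_fam) (h7 : S_bdd) (h8 : S_triR) (h9 : S_thinq) (h10 : S_loxqR) : S_stepR := by
  intro Q V I _ _ _ X δ A₀ L m τ₀ τ₁ F R W J _ _ _ π A φ ψ G hodd hL hm hmδ hτ₁ hτ₁' hdich hq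
  obtain ⟨hT, hA⟩ := h5 Q V X δ A₀ G.inv G.four G.thin
  have hThin : ∀ D : ℕ, Thin X Q D (L + 20 * D) := fun D => thin_mono (by omega) (hT D)
  have hAcyl : ∀ D : ℕ, X.Acyl Q D (L + 20 * D) := fun D =>
    acyl_mono (by omega) (hA G.cyc G.mal G.acyl D)
  have hδL : δ ≤ L := by omega
  have hfam := (h6 Q V I X δ L F G.inv G.four hδL).1
  have hell := (h4 Q V X δ G.inv G.four).2.2.1
  have htr : ∀ i, (L : ℝ) < 2 ^ m * F.tr i := by
    intro i
    rcases G.dich (F.gen i) with h | h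
    · have h0 := hell _ h
      rw [hfam i] at h0
      exact absurd h0 (F.tr_pos i).ne'
    · rw [hfam i] at h
      exact hm.trans_le (mul_le_mul_of_nonneg_left h (by positivity))
  have hthin : Thin A.Z R (12 * 122) (10 ^ 9) :=
    h9 Q V I X δ L m F R W J π A φ ψ G.inv G.four hδL hq hThin htr hmδ
  have hacyl : A.Z.Acyl R (12 * 122) (10 ^ 9) :=
    h3 Q V I X L F R W J π A φ G.inv hq.quo hAcyl
  have hd : ∀ g : R, Ell A.Z g ∨ τ₁ / (15000 * L) ≤ A.Z.tau g :=
    h8 Q V I X L F R W J π A φ G.inv hq.quo τ₁ hτ₁ hτ₁' hdich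
  obtain ⟨hb1, hb2, -, -⟩ := h7 Q V I X δ L F R W J π A φ ψ G.inv G.four (by omega) hq
  have hnoinv : ∀ t : R, t ^ 2 = 1 → t = 1 := by
    intro t ht
    obtain ⟨x⟩ := A.ne
    have hB : Bdd A.Z (Subgroup.zpowers t) := by
      refine ⟨x, A.Z.d x (t • x), fun h hh => ?_⟩
      rcases mem_zpowers_inv ht hh with rfl | rfl
      · rw [one_smul, A.Z.self]
        exact Nat.zero_le _
      · exact le_rfl
    rcases hb1 _ hB with ⟨i, hi⟩ | ⟨H', hH', hmap⟩
    · obtain ⟨k, hk⟩ := Subgroup.mem_zpowers_iff.1 (hi (Subgroup.mem_zpowers t))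
      refine eq_one_of_odd ht (hodd i) ?_
      have hr : π (F.gen i) ^ F.mu i = 1 := by
        rw [← map_pow]
        exact hq.quo.rel i
      rw [← hk, ← zpow_natCast, ← zpow_mul, mul_comm, zpow_mul, zpow_natCast, hr, one_zpow]
    · have hmem : t ∈ H'.map π := by
        rw [hmap]
        exact Subgroup.mem_zpowers t
      obtain ⟨t', ht', rfl⟩ := Subgroup.mem_map.1 hmem
      have h2' : t' ^ 2 = 1 := by
        by_contra hne
        exact (hb2 H' hH' (t' ^ 2) (H'.pow_mem ht' 2) hne).1 (by rw [map_pow]; exact ht)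
      rw [G.noinv t' h2', map_one]
  have hZthin : ∀ D : ℕ, ∃ B : ℕ, Thin A.Z R D B := fun D =>
    ⟨_, (h5 R W A.Z 122 (10 ^ 9) A.inv A.four hthin).1 D⟩
  have hlox := h10 Q V I X L F R W J π A φ G.inv hq.quo hAcyl hZthin
  have hellZ := (h4 R W A.Z 122 A.inv A.four).2.2.1
  have hL1 : (1 : ℝ) ≤ L := by exact_mod_cast A.hL
  have hpos : 0 < τ₁ / (15000 * L) := by positivity
  have hmain : ∀ u : R, 0 < A.Z.tau u →
      (∃ g : R, ∀ a : R, Commute a u → a ∈ Subgroup.zpowers g) ∧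
      ∀ t : R, Commute u (t * u * t⁻¹) → Commute t u := by
    intro u hu
    obtain ⟨k1, k2⟩ := hlox u hu
    have hne : u ≠ 1 := by
      rintro rfl
      have h0 := (h1 R W A.Z A.inv).2.2.2.1 (1 : R) 0
      rw [zpow_zero] at h0
      simp only [Int.cast_zero, abs_zero, zero_mul] at h0
      exact absurd h0 hu.ne'
    refine h2 R W A.Z 122 (τ₁ / (15000 * L)) A.inv A.four hpos hnoinv u hne k1 ?_
    intro a ha ha1
    rcases hd a with h | h
    · exact absurd (hellZ a h) (k2 a ha ha1).ne'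
    · exact h
  exact
    { ne := A.ne
      inv := A.inv
      four := A.four
      dich := hd
      noinv := hnoinv
      cyc := fun u hu => (hmain u hu).1
      mal := fun u t hu => (hmain u hu).2 t
      acyl := hacyl
      thin := hthin }

end Pool.Agent.SCZ.Geo
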