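import Pool.Agent.SCZ.Geo.Rel

set_option autoImplicit false

namespace Pool.Agent.SCZ.Geo

open Pool.Agent.H59Z.NA

namespace Tthinq

theorem eta_le {V : Type} (X : GM V) {S : Set V} (p : V) {a : V} (ha : a ∈ S) :
    X.eta S p ≤ X.d p a := Nat.sInf_le ⟨a, ha, rfl⟩

theorem eta_mem {V : Type} (X : GM V) {S : Set V} (hS : S.Nonempty) (p : V) :
    ∃ a ∈ S, X.d p a = X.eta S p := by
  obtain ⟨a, ha⟩ := hS
  exact Nat.sInf_mem (s := {m : ℕ | ∃ a ∈ S, X.d p a = m}) ⟨_, a, ha, rfl⟩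

theorem d_pow {Q V : Type} [Group Q] [MulAction Q V] {X : GM V} (hX : X.Inv Q) {g : Q} {x : V}
    {θ : ℕ} (h : X.d x (g • x) ≤ θ) (n : ℕ) : X.d x (g ^ n • x) ≤ n * θ := by
  induction n with
  | zero => simp [X.self]
  | succ n ih =>
    have h1 := X.tri x (g ^ n • x) (g ^ (n + 1) • x)
    rw [pow_succ g n, mul_smul, hX] at h1
    rw [pow_succ g n, mul_smul, Nat.succ_mul]
    omega

theorem d_inv {Q V : Type} [Group Q] [MulAction Q V] {X : GM V} (hX : X.Inv Q) (g : Q) (x : V) :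
    X.d x (g⁻¹ • x) = X.d x (g • x) := by
  rw [← hX g, smul_inv_smul, X.comm]

variable {R W J : Type} [Group R] [MulAction R W] [MulAction R J] {L : ℕ}

theorem ang_move (A : AG R W J L) (l : J) (x y : W) (s : R) {B : ℝ}
    (h1 : A.ang l x (s • x) ≤ B) (h2 : A.ang l y (s • y) ≤ B) :
    A.ang l x y - 2 * B ≤ A.ang (s⁻¹ • l) x y := by
  rw [← A.ang_smul s (s⁻¹ • l), smul_inv_smul]
  have h3 := A.ang_tri l x (s • x) y
  have h4 := A.ang_tri l (s • x) (s • y) y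
  rw [A.ang_comm l (s • y) y] at h4
  linarith

theorem on_geo (h2 : S_pos) (A : AG R W J L) (l : J) (x y : W)
    (h : (600 : ℝ) * L < A.ang l x y) :
    ∃ a ∈ A.Y l, A.Z.d x a = A.Z.eta (A.Y l) x ∧ A.Z.d x a + A.Z.d a y = A.Z.d x y := by
  obtain ⟨a, ha, ha2⟩ := eta_mem A.Z (A.Y_ne l) x
  obtain ⟨b, hb, hb2⟩ := eta_mem A.Z (A.Y_ne l) y
  have h1 := (h2 R W J L A).1 l x y h
  have h3 := A.clique l a ha b hb
  have h4 := A.Z.tri a b y
  have h5 := A.Z.tri x a y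
  rw [A.Z.comm b y] at h4
  exact ⟨a, ha, ha2, by omega⟩

theorem fixed (h2 : S_pos) (A : AG R W J L) (g : R) (hg : g ≠ 1) (l l' : J) (x a : W)
    (hl : g • l = l) (ha : a ∈ A.Y l) (ha2 : A.Z.d x a = A.Z.eta (A.Y l) x)
    (hx : A.Z.d x (g • x) ≤ 1464) (h3 : 1464 ≤ A.Z.eta (A.Y l') x)
    (h4 : 1464 ≤ A.Z.eta (A.Y l') a) (h5 : (3000 : ℝ) * L < A.ang l' x a) : False := by
  obtain ⟨p1, p2, p3, p4, p5⟩ := h2 R W J L A
  have hL : (0 : ℝ) ≤ L := Nat.cast_nonneg L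
  have hga : g • a ∈ A.Y l := by
    have := (A.Y_smul g l a).2 ha
    rwa [hl] at this
  have hga' : g⁻¹ • a ∈ A.Y l := by
    have := (A.Y_smul g⁻¹ (g • l) a).2 (by rwa [hl])
    rwa [inv_smul_smul] at this
  have h6 := A.clique l a ha _ hga
  have a1 := p2 l' x (g • x) (hx.trans h3)
  have a2 := p2 l' a (g • a) (by omega)
  have a3 := ang_move A l' x a g a1 a2
  have e1 := p1 l' x a (by linarith)
  have e2 := p1 (g⁻¹ • l') x a (by linarith)
  have key : ∀ l₁ : J, A.Z.eta (A.Y l₁) x + 1 + A.Z.eta (A.Y l₁) a = A.Z.d x a →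
      ∀ v ∈ A.Y l, A.Z.eta (A.Y l₁) a ≤ A.Z.eta (A.Y l₁) v := by
    intro l₁ e v hv
    obtain ⟨b, hb, hb2⟩ := eta_mem A.Z (A.Y_ne l₁) x
    obtain ⟨c, hc, hc2⟩ := eta_mem A.Z (A.Y_ne l₁) v
    have t1 := eta_le A.Z x hv
    have t2 := A.clique l₁ b hb c hc
    have t3 := A.Z.tri x b v
    have t4 := A.Z.tri b c v
    rw [A.Z.comm c v] at t4
    omega
  have k1 := key l' e1 _ hga
  have k2 := key _ e2 _ hga'
  have q1 := p3 g (g⁻¹ • l') a
  have q2 := p3 g (g⁻¹ • l') x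
  rw [smul_inv_smul] at q1 q2
  rw [p3] at k2
  have h7 := (p5 l' x a (600 * L) {1, g} (by positivity) (by
    rintro s (rfl | rfl)
    · simp only [one_smul]
      exact ⟨p2 l' x x (by rw [A.Z.self]; omega), p2 l' a a (by rw [A.Z.self]; omega)⟩
    · exact ⟨a1, a2⟩) (by linarith)).2 1 g (Or.inl rfl) (Or.inr rfl) (by rw [one_smul]; omega)
  rw [inv_one, one_smul] at h7
  have h8 : g • l' = l' := by
    conv_lhs => rw [h7]
    rw [smul_inv_smul]
  have h9 := p4 g l l' hg hl h8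
  subst h9
  have h10 := eta_le A.Z a ha
  rw [A.Z.self] at h10
  omega

theorem moving (h1 : S_tau) (h2 : S_pos) (h4 : S_basic) (A : AG R W J L) (g : R) (l : J) (x y : W)
    (hx : A.Z.d x (g • x) ≤ 1464) (hy : A.Z.d y (g • y) ≤ 1464)
    (h3 : 372 * 1464 ≤ A.Z.eta (A.Y l) x) (h3' : 372 * 1464 ≤ A.Z.eta (A.Y l) y)
    (h5 : (3000 : ℝ) * L < A.ang l x y) : g • l = l ∨ 0 < A.Z.tau g := by
  obtain ⟨p1, p2, p3, p4, p5⟩ := h2 R W J L A
  have hL : (0 : ℝ) ≤ L := Nat.cast_nonneg L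
  let S : Set R := {s | ∃ n : ℕ, n ≤ 372 ∧ (s = g ^ n ∨ s = (g ^ n)⁻¹)}
  have hd : ∀ z : W, A.Z.d z (g • z) ≤ 1464 → ∀ s ∈ S, A.Z.d z (s • z) ≤ 372 * 1464 := by
    rintro z hz s ⟨n, hn, rfl | rfl⟩
    · exact (d_pow A.inv hz n).trans (Nat.mul_le_mul_right _ hn)
    · rw [d_inv A.inv]
      exact (d_pow A.inv hz n).trans (Nat.mul_le_mul_right _ hn)
  have hS : ∀ s ∈ S, A.ang l x (s • x) ≤ 600 * L ∧ A.ang l y (s • y) ≤ 600 * L := fun s hs =>
    ⟨p2 l x _ ((hd x hx s hs).trans h3), p2 l y _ ((hd y hy s hs).trans h3')⟩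
  obtain ⟨q1, q2⟩ := p5 l x y (600 * L) S (by positivity) hS (by linarith)
  have m0 : ∀ n : ℕ, n ≤ 372 → g ^ n ∈ S := fun n hn => ⟨n, hn, Or.inl rfl⟩
  have m1 : (1 : R) ∈ S := ⟨0, by norm_num, Or.inl (pow_zero g).symm⟩
  have m2 : (g ^ 372)⁻¹ ∈ S := ⟨372, le_rfl, Or.inr rfl⟩
  obtain ⟨al, hal⟩ : ∃ al : ℤ, al = (A.Z.d (g • x) y : ℤ) - A.Z.d x y := ⟨_, rfl⟩
  have hj : ∀ n : ℕ, n ≤ 372 → (A.Z.eta (A.Y l) (g ^ n • x) : ℤ) = A.Z.eta (A.Y l) x + n * al := by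
    intro n
    induction n with
    | zero => intro _; simp
    | succ n ih =>
      intro hn
      have e := q1 (g ^ n) g (m0 n (by omega)) (by rw [← pow_succ]; exact m0 _ hn)
      rw [← pow_succ, ih (by omega), ← hal] at e
      rw [e]
      push_cast
      ring
  by_cases h0 : al = 0
  · left
    have e := hj 1 (by norm_num)
    rw [h0, mul_zero, add_zero] at e
    have e2 := q2 1 (g ^ 1) m1 (m0 1 (by norm_num)) (by rw [one_smul]; omega)
    rw [inv_one, one_smul, pow_one] at e2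
    conv_lhs => rw [e2]
    rw [smul_inv_smul]
  · right
    obtain ⟨k, hk⟩ : ∃ k : R, k = g ^ 372 := ⟨_, rfl⟩
    have m3 := m0 372 le_rfl
    have e1 := hj 372 le_rfl
    rw [← hk] at m2 m3 e1
    have e2 := q1 1 k m1 (by rwa [one_mul])
    have e3 := q1 k⁻¹ k m2 (by rwa [inv_mul_cancel])
    rw [one_mul, one_smul] at e2
    rw [inv_mul_cancel, one_smul] at e3
    obtain ⟨a, ha, a1, a2⟩ := on_geo h2 A l x y (by linarith)
    obtain ⟨b, hb, b1, b2⟩ := on_geo h2 A (k⁻¹ • l) x y (by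
      linarith [ang_move A l x y k (hS k m3).1 (hS k m3).2])
    obtain ⟨c, hc, c1, c2⟩ := on_geo h2 A (k⁻¹⁻¹ • l) x y (by
      linarith [ang_move A l x y k⁻¹ (hS _ m2).1 (hS _ m2).2])
    have f1 := p3 k (k⁻¹ • l) x
    have f2 := p3 k⁻¹ (k⁻¹⁻¹ • l) x
    rw [smul_inv_smul] at f1 f2
    have g1 := A.clique _ b hb _ ((A.Y_smul k⁻¹ l a).2 ha)
    have g2 := A.clique _ c hc _ ((A.Y_smul k⁻¹⁻¹ l a).2 ha)
    rw [inv_inv] at g2
    have t0 := (h4 R W A.Z 122 A.inv A.four).1 k (k⁻¹ • a)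
    rw [smul_inv_smul, pow_two, mul_smul, smul_inv_smul] at t0
    have t1 := A.four a b x y
    have t2 := A.Z.tri (k⁻¹ • a) b a
    have t3 := A.Z.tri b (k⁻¹ • a) c
    have t4 := A.Z.tri (k⁻¹ • a) (k • a) c
    have t5 := A.Z.tri x b c
    have t6 := A.Z.tri x c b
    rw [A.Z.comm a x, A.Z.comm b x] at t1
    rw [A.Z.comm (k⁻¹ • a) b, A.Z.comm b a] at t2
    rw [A.Z.comm (k • a) c] at t4
    rw [A.Z.comm c b] at t6
    have t7 : A.Z.d (k⁻¹ • a) a + 123 ≤ A.Z.d (k⁻¹ • a) (k • a) := by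
      push_cast at e1
      omega
    have t8 : (A.Z.d (k⁻¹ • a) a : ℝ) + 123 ≤ A.Z.d (k⁻¹ • a) (k • a) := by exact_mod_cast t7
    have t9 := (h1 R W A.Z A.inv).2.2.2.1 g 372
    rw [zpow_ofNat, ← hk] at t9
    push_cast at t0 t9
    rw [abs_of_pos (by norm_num)] at t9
    linarith

end Tthinq

open Tthinq in
theorem thm_thinq (h1 : S_tau) (h2 : S_pos) (h3 : S_md) (h4 : S_basic) (h5 : S_fam)
    (h6 : S_persist) : S_thinq := by
  intro Q V I _ _ _ X δ L m F R W J _ _ _ π A φ ψ hX h4p hδ hq hthin hm hmδ g x y hx hy hxy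
  by_cases hg : g = 1
  · exact Or.inl hg
  right
  have hL := A.hL
  have case2 : ∀ (p q : V) (u : Q), 477 * 10 ^ 6 ≤ A.Z.d (φ p) (φ q) → π u = g →
      X.d p (u • p) ≤ 15000 * L * (1464 + 123) → X.d q (u • q) ≤ 15000 * L * (1464 + 123) →
      0 < A.Z.tau g := by
    intro p q u hr hu hp hq'
    have hu1 : u ≠ 1 := fun h => hg (by rw [← hu, h, map_one])
    have hd : L + 20 * (15000 * L * (1464 + 123)) ≤ X.d p q := by
      by_contra h
      have := hq.quo.scale 476100000 p q (by omega)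
      omega
    have ht := (hthin _ u p q hp hq' hd).resolve_left hu1
    obtain ⟨-, f2, -, -, f5, -⟩ := h5 Q V I X δ L F hX h4p hδ
    by_cases hi : ∃ i : I, u • i = i
    · exfalso
      obtain ⟨i, hi⟩ := hi
      have hlt : (L : ℝ) < 2 ^ m * X.tau u :=
        (hm i).trans_le (mul_le_mul_of_nonneg_left (f2 i u hi hu1) (by positivity))
      obtain ⟨a, ha, ha2⟩ := f5 i u p _ m hi hlt hp
      obtain ⟨b, hb, hb2⟩ := f5 i u q _ m hi hlt hq'
      have s1 := hq.quo.scale 11902500 p a (by omega)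
      have s2 := hq.quo.scale 11902500 q b (by omega)
      have s3 := A.clique _ _ (hq.Y_mem i a ha) _ (hq.Y_mem i b hb)
      have s4 := A.Z.tri (φ p) (φ a) (φ q)
      have s5 := A.Z.tri (φ a) (φ b) (φ q)
      rw [A.Z.comm (φ b) (φ q)] at s5
      omega
    · push Not at hi
      have s := (h6 Q V I X δ L F R W J π A φ ψ hX h4p hδ hq).2.1 u p (24 * 10 ^ 6 * L) le_rfl
        (by omega) hi
      rw [hu] at s
      exact (pos_iff_pos_of_mul_pos (ht.trans_le s)).1 (by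
        have : (0 : ℝ) < L := by exact_mod_cast hL
        positivity)
  have fix : ∀ (l : J) (z : W), g • l = l → A.Z.d z (g • z) ≤ 1464 →
      5 * 10 ^ 8 - 1 ≤ A.Z.eta (A.Y l) z → 0 < A.Z.tau g := by
    intro l z hl hz hη
    obtain ⟨a, ha, ha2⟩ := eta_mem A.Z (A.Y_ne l) z
    have hga : g • a ∈ A.Y l := by
      have := (A.Y_smul g l a).2 ha
      rwa [hl] at this
    have h7 := A.clique l a ha _ hga
    rcases h3 Q V I X L F R W J π A φ hX hq.quo z a 1464 (477 * 10 ^ 6) (by omega) with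
      ⟨l', a1, a2, a3⟩ | ⟨p, q, lf, a1, a2, -⟩
    · exact (fixed h2 A g hg l l' z a hl ha ha2 hz a1 a2 a3).elim
    · obtain ⟨b1, b2, b3⟩ := a2 g 1464 le_rfl hz (by omega)
      exact case2 p q _ a1 b1 b2 b3
  rcases h3 Q V I X L F R W J π A φ hX hq.quo x y (372 * 1464) (477 * 10 ^ 6) (by omega) with
    ⟨l, a1, a2, a3⟩ | ⟨p, q, lf, a1, a2, -⟩
  · rcases moving h1 h2 h4 A g l x y hx hy a1 a2 a3 with h | h
    · have hL' : (0 : ℝ) ≤ L := Nat.cast_nonneg L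
      have e := (h2 R W J L A).1 l x y (by linarith)
      by_cases h8 : 5 * 10 ^ 8 - 1 ≤ A.Z.eta (A.Y l) x
      · exact fix l x h hx h8
      · exact fix l y h hy (by omega)
    · exact h
  · obtain ⟨b1, b2, b3⟩ := a2 g 1464 (by norm_num) hx hy
    exact case2 p q _ a1 b1 b2 b3

end Pool.Agent.SCZ.Geo
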