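import Pool.Agent.SCZ.Geo.Rel
import Pool.Agent.H59Z.NA.Tquo
import Pool.Agent.H59Z.NA.Thyp

set_option autoImplicit false

namespace Pool.Agent.SCZ.Geo

open Pool.Agent.H59Z.NA

namespace TquoP

open Tquo

variable {Q V I : Type} [Group Q] [MulAction Q V] [MulAction Q I] {X : GM V} {L : ℕ}
  {F : Fam Q V I X L} {E : GM V}

/-- predicates which survive translation by `K` and bending at a smaller threshold -/
def Stb3 (F : Fam Q V I X L) (P : V → V → Prop) : Prop :=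
  (∀ k ∈ F.K, ∀ x y, P x y → P (k • x) (k • y)) ∧
  ∀ i, ∀ r ∈ Subgroup.zpowers (rel F i), ∀ x y,
    (3 * 10 ^ 6 : ℝ) * L ≤ |F.c i x - F.c i y| → P x y → P x (r • y)

lemma lift4' (hI : Ind' F) {P1 P2 P3 : V → V → Prop} (s1 : Stb3 F P1) (s2 : Stb3 F P2)
    (s3 : Stb3 F P3) {Θ : ℝ} (hΘ : Θ ≤ (9 * 10 ^ 7 : ℝ) * L) (p0 : V) :
    ∀ k ∈ F.K, ∀ p1 p2 p3 : V,
    P1 p0 p1 → P2 p1 p2 → P3 p2 p3 → (∀ i, |F.c i p3 - F.c i (k • p0)| ≤ Θ) →
    ∃ k1 ∈ F.K, ∃ k2 ∈ F.K, ∃ k3 ∈ F.K, P1 p0 (k1 • p1) ∧ P2 (k1 • p1) (k2 • p2) ∧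
      P3 (k2 • p2) (k3 • p3) ∧ ∀ i, |F.c i (k3 • p3) - F.c i p0| ≤ Θ := by
  have tr4 : ∀ (r : Q) (x y : V), (∀ i, |F.c i x - F.c i y| ≤ Θ) →
      ∀ i, |F.c i (r • x) - F.c i (r • y)| ≤ Θ := by
    intro r x y h i
    have := F.c_smul r (r⁻¹ • i) x y
    rw [smul_inv_smul] at this
    rw [this]
    exact h _
  refine hI p0 _ ?_ ?_
  · intro p1 p2 p3 h1 h2 h3 h4
    refine ⟨1, F.K.one_mem, 1, F.K.one_mem, 1, F.K.one_mem, ?_⟩
    simp only [one_smul] at h4 ⊢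
    exact ⟨h1, h2, h3, h4⟩
  · intro k _ i r hr hbig ih p1 p2 p3 h1 h2 h3 h4
    have hrK : r ∈ F.K := zp_le_K F i hr
    have t1 := abs_sub_le (F.c i p0) (F.c i p1) (F.c i (k • p0))
    have t2 := abs_sub_le (F.c i p1) (F.c i p2) (F.c i (k • p0))
    have t3 := abs_sub_le (F.c i p2) (F.c i p3) (F.c i (k • p0))
    by_cases c1 : (3 * 10 ^ 6 : ℝ) * L ≤ |F.c i p0 - F.c i p1|
    · obtain ⟨k1, a1, k2, a2, k3, a3, h⟩ := ih (r • p1) (r • p2) (r • p3)
        (s1.2 i r hr _ _ c1 h1) (s2.1 r hrK _ _ h2) (s3.1 r hrK _ _ h3)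
        (by rw [mul_smul]; exact tr4 r _ _ h4)
      exact ⟨k1 * r, F.K.mul_mem a1 hrK, k2 * r, F.K.mul_mem a2 hrK, k3 * r, F.K.mul_mem a3 hrK,
        by simpa only [mul_smul] using h⟩
    by_cases c2 : (3 * 10 ^ 6 : ℝ) * L ≤ |F.c i p1 - F.c i p2|
    · obtain ⟨k1, a1, k2, a2, k3, a3, h⟩ := ih p1 (r • p2) (r • p3)
        h1 (s2.2 i r hr _ _ c2 h2) (s3.1 r hrK _ _ h3)
        (by rw [mul_smul]; exact tr4 r _ _ h4)
      exact ⟨k1, a1, k2 * r, F.K.mul_mem a2 hrK, k3 * r, F.K.mul_mem a3 hrK,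
        by simpa only [mul_smul] using h⟩
    by_cases c3 : (3 * 10 ^ 6 : ℝ) * L ≤ |F.c i p2 - F.c i p3|
    · obtain ⟨k1, a1, k2, a2, k3, a3, h⟩ := ih p1 p2 (r • p3)
        h1 h2 (s3.2 i r hr _ _ c3 h3)
        (by rw [mul_smul]; exact tr4 r _ _ h4)
      exact ⟨k1, a1, k2, a2, k3 * r, F.K.mul_mem a3 hrK, by simpa only [mul_smul] using h⟩
    · exfalso
      push Not at c1 c2 c3
      have h5 := h4 i
      have hL0 : (0 : ℝ) ≤ L := Nat.cast_nonneg L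
      linarith

lemma stb3_le (hE : F.IsEl E) (hL : 1 ≤ L) (D : ℕ) : Stb3 F (fun x y => E.d x y ≤ D) := by
  refine ⟨fun k _ x y h => (hE.inv k x y).trans_le h, fun i r hr x y hb h => ?_⟩
  have hL' : (1 : ℝ) ≤ L := by exact_mod_cast hL
  exact le_trans (bend_le hE (zp_fix F hr) (by linarith)) h

lemma stb3_M (hL : 1 ≤ L) (j : I) (t : ℝ) :
    Stb3 F (fun x y => ∃ k ∈ F.K, x ∈ F.Y (k • j) ∧ y ∈ F.Y (k • j) ∧
      cd (per F j) (F.c (k • j) x - F.c (k • j) y) = t) := by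
  have hL' : (1 : ℝ) ≤ L := by exact_mod_cast hL
  constructor
  · rintro k hk x y ⟨k', hk', hx, hy, ht⟩
    refine ⟨k * k', F.K.mul_mem hk hk', ?_, ?_, ?_⟩
    · rw [mul_smul, F.Y_smul]; exact hx
    · rw [mul_smul, F.Y_smul]; exact hy
    · rw [mul_smul, F.c_smul]; exact ht
  · rintro i r hr x y hb ⟨k', hk', hx, hy, ht⟩
    have hi : i = k' • j := by
      by_contra hne
      have := F.sep i _ hne x hx y hy
      linarith
    subst hi
    refine ⟨k', hk', hx, Y_fix F (zp_fix F hr) hy, ?_⟩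
    obtain ⟨e, rfl⟩ := Subgroup.mem_zpowers_iff.1 hr
    rw [c_rel, per_smul, ← ht]
    have e1 : F.c (k' • j) x - (F.c (k' • j) y + e * per F j) =
        (F.c (k' • j) x - F.c (k' • j) y) + ((-e : ℤ) : ℝ) * per F j := by push_cast; ring
    rw [e1, cd_per]

lemma close_line' (hE : F.IsEl E) (hL : 1 ≤ L) (hI : Ind' F) {Θ : ℝ}
    (hΘ : Θ ≤ (9 * 10 ^ 7 : ℝ) * L)
    {i : I} {p q : V} (hp : MinL F E i p) (hq : MinL F E i q) {k : Q} (hk : k ∈ F.K)
    (h : ∀ j, |F.c j p - F.c j (k • q)| ≤ Θ) :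
    cd (per F i) (F.c i p - F.c i q) ≤ Θ + 400 * L := by
  obtain ⟨a, ha, ea⟩ := eta_ex (E := E) (F.Y_ne i) p
  obtain ⟨b, hb, eb⟩ := eta_ex (E := E) (F.Y_ne i) q
  obtain ⟨k1, a1, k2, a2, k3, a3, h1, ⟨k', hk', hb', ha', ht⟩, h3, h4⟩ := lift4' hI
    (stb3_le hE hL (E.eta (F.Y i) q)) (stb3_M hL i (cd (per F i) (F.c i b - F.c i a)))
    (stb3_le hE hL (E.eta (F.Y i) p)) hΘ q k hk b a p eb.le
    ⟨1, F.K.one_mem, by simpa using hb, by simpa using ha, by simp⟩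
    (by rw [E.comm]; exact ea.le) h
  have n1 : |F.c i p - F.c i a| ≤ 100 * L := near_ang hE ea.le
  have n2 : |F.c i q - F.c i b| ≤ 100 * L := near_ang hE eb.le
  have n3 : |F.c (k' • i) q - F.c (k' • i) (k1 • b)| ≤ 100 * L := by
    apply near_ang hE
    have e1 := eta_smul hE k' i (k'⁻¹ • q)
    rw [smul_inv_smul] at e1
    have := hq k'⁻¹ (F.K.inv_mem hk')
    omega
  have n4 : |F.c (k' • i) (k3 • p) - F.c (k' • i) (k2 • a)| ≤ 100 * L := by
    apply near_ang hE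
    have e1 := eta_smul hE k' i ((k'⁻¹ * k3) • p)
    rw [← mul_smul, mul_inv_cancel_left] at e1
    have := hp (k'⁻¹ * k3) (F.K.mul_mem (F.K.inv_mem hk') a3)
    have := E.comm (k2 • a) (k3 • p)
    omega
  have s1 := cd_sub_le (per F i) (F.c i p - F.c i q) (F.c i a - F.c i b)
  have s2 : cd (per F i) (F.c i a - F.c i b) = cd (per F i) (F.c i b - F.c i a) := by
    rw [← cd_neg]; congr 1; ring
  have s3 := cd_le_abs (per F i) (F.c (k' • i) (k1 • b) - F.c (k' • i) (k2 • a))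
  rw [abs_le] at n1 n2 n3 n4
  have s4 : |F.c i p - F.c i q - (F.c i a - F.c i b)| ≤ 200 * L := by
    rw [abs_le]; constructor <;> linarith [n1.1, n1.2, n2.1, n2.2]
  have s5 : |F.c (k' • i) (k1 • b) - F.c (k' • i) (k2 • a)| ≤
      |F.c (k' • i) (k3 • p) - F.c (k' • i) q| + 200 * L := by
    have u1 := le_abs_self (F.c (k' • i) (k3 • p) - F.c (k' • i) q)
    have u2 := neg_abs_le (F.c (k' • i) (k3 • p) - F.c (k' • i) q)
    rw [abs_le]; constructor <;> linarith [n3.1, n3.2, n4.1, n4.2]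
  have s6 := h4 (k' • i)
  linarith

lemma ang_le' (hE : F.IsEl E) (hL : 1 ≤ L) (hI : Ind' F) (Θ : ℝ) (p q : V)
    (h : ∀ i, |F.c i p - F.c i q| ≤ Θ) (hΘ : Θ ≤ (9 * 10 ^ 7 : ℝ) * L) (l : OQ F.K I) :
    angq F E l (omk F.K p) (omk F.K q) ≤ Θ + 1000 * L := by
  have hL' : (1 : ℝ) ≤ L := by exact_mod_cast hL
  apply angq_le
  rintro i p' q' rfl e1 e2 hp hq
  obtain ⟨k1, hk1, rfl⟩ := (omk_eq F.K).1 e1.symm
  obtain ⟨k2, hk2, rfl⟩ := (omk_eq F.K).1 e2.symm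
  have h1 := close_line' hE hL hI hΘ hp hq (F.K.mul_mem hk1 (F.K.inv_mem hk2)) (by
    intro j
    rw [mul_smul, inv_smul_smul]
    have := F.c_smul k1 (k1⁻¹ • j) p q
    rw [smul_inv_smul] at this
    rw [this]
    exact h _)
  linarith

end TquoP

open Tquo TquoP in
theorem thm_quoP : S_quoP := by
  intro Q V I _ _ _ X L F E hV hX hL hE hI0
  have h := thm_hyp
  have hI := ind_of F hI0
  letI aV := actR F.K (S := V)
  letI aI := actR F.K (S := I)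
  have sV : ∀ (g : Q) (u : OQ F.K V), QuotientGroup.mk' F.K g • u = g • u := fun _ _ => rfl
  have sI : ∀ (g : Q) (u : OQ F.K I), QuotientGroup.mk' F.K g • u = g • u := fun _ _ => rfl
  have su := QuotientGroup.mk'_surjective F.K
  have hker : ∀ k : Q, QuotientGroup.mk' F.K k = 1 ↔ k ∈ F.K := fun k =>
    QuotientGroup.eq_one_iff k
  refine ⟨OQ F.K V, OQ F.K I, aV, aI,
    { Z := ZQ hE
      Y := Yq F
      ang := angq F E
      hL := hL
      ne := hV.map (omk F.K)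
      inv := ?_
      four := (h _ (ZQ hE)).1 60 (ZQ_slim hE hL hI)
      Y_ne := Yq_ne
      Y_smul := ?_
      clique := Yq_clique hE
      ang_comm := angq_comm hL
      ang_tri := angq_tri hL
      ang_smul := ?_
      bgi := angq_bgi hE hL hI
      sep := angq_sep hE hL hI
      rot := ?_ }, omk F.K, omk F.K,
    { quo := ?_
      ψ_surj := omk_surj F.K
      ψ_smul := fun _ _ => rfl
      ψ_eq := ?_
      Y_mem := fun i p hp => ⟨i, p, rfl, rfl, hp⟩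
      Y_lift := ?_
      ang_le := fun Θ p q h1 _ h3 l => ang_le' hE hL hI Θ p q h1 h3 l }⟩
  · intro g u w
    obtain ⟨g, rfl⟩ := su g
    obtain ⟨p, rfl⟩ := omk_surj F.K u
    obtain ⟨q, rfl⟩ := omk_surj F.K w
    exact db_smul hE g p q
  · intro g l u
    obtain ⟨g, rfl⟩ := su g
    exact Yq_smul g l u
  · intro g l u w
    obtain ⟨g, rfl⟩ := su g
    exact angq_smul hE hL g l u w
  · intro g l hl hg
    obtain ⟨g, rfl⟩ := su g
    obtain ⟨j, hj⟩ := angq_rot hE hL g l hl hg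
    refine ⟨j, fun u => ?_⟩
    rw [← map_pow]
    exact hj u
  · refine
      { surj := su
        φ_surj := omk_surj F.K
        φ_smul := fun _ _ => rfl
        φ_eq := ?_
        scale := ?_
        rel := fun i => (hker _).2 (rel_mem_K F i)
        stab := ?_
        fixgen := ?_
        kerstab := ?_
        lift := fun Θ p w h1 h2 => lift' hX hE hL Θ p w h1 h2
        inj := fun k p hk h1 => inj' F hI k p ((hker k).1 hk) h1 }
    · intro p q e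
      obtain ⟨k, hk, e⟩ := (omk_eq F.K).1 e
      exact ⟨k, (hker k).2 hk, e⟩
    · intro m p q h1
      exact (db_le' F E p q).trans (scale' hE m p q h1)
    · intro l
      obtain ⟨i, rfl⟩ := omk_surj F.K l
      refine ⟨i, fun g => ?_⟩
      obtain ⟨g, rfl⟩ := su g
      exact stab_iff i g
    · intro i
      exact ⟨omk F.K i, (stab_iff i (F.gen i)).2 (Subgroup.mem_zpowers _)⟩
    · intro i g hg h1
      obtain ⟨y, hy⟩ := F.Y_ne i
      exact kerstab' F hI hL i y hy g ((hker g).1 h1) (Y_fix F ((F.stab g i).2 hg) hy)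
  · intro i j e
    obtain ⟨k, hk, e⟩ := (omk_eq F.K).1 e
    exact ⟨k, (hker k).2 hk, e⟩
  · intro i w hw
    obtain ⟨p, e, hp⟩ := Yq_lift hw
    exact ⟨p, hp, e⟩

end Pool.Agent.SCZ.Geo
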