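import Pool.Agent.SCZ.Geo.Rel

set_option autoImplicit false

namespace Pool.Agent.SCZ.Geo

open Pool.Agent.H59Z.NA

namespace Tbdd

theorem eta_le {W : Type} (Z : GM W) (S : Set W) (hS : S.Nonempty) (p q : W) :
    Z.eta S q ≤ Z.d p q + Z.eta S p := by
  have hne : {m : ℕ | ∃ a ∈ S, Z.d p a = m}.Nonempty := by
    obtain ⟨a, ha⟩ := hS
    exact ⟨_, a, ha, rfl⟩
  obtain ⟨a, ha, hd⟩ := Nat.sInf_mem hne
  have h1 : Z.eta S q ≤ Z.d q a := Nat.sInf_le ⟨a, ha, rfl⟩
  have h2 := Z.tri q p a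
  have h3 := Z.comm p q
  have h4 : Z.eta S p = Z.d p a := hd.symm
  omega

variable {Q V I : Type} [Group Q] [MulAction Q V] [MulAction Q I] {X : GM V} {L : ℕ}
  (F : Fam Q V I X L)

theorem c_shift (g : Q) (i : I) (p q : V) :
    F.c i (g • p) - F.c i (g • q) = F.c (g⁻¹ • i) p - F.c (g⁻¹ • i) q := by
  have := F.c_smul g (g⁻¹ • i) p q
  rwa [smul_inv_smul] at this

theorem c_small (p q : V) (h : X.d p q ≤ L) (i : I) : |F.c i p - F.c i q| ≤ 2 * L := by
  have h1 := F.lip i p q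
  have h2 : (X.d p q : ℝ) ≤ L := by exact_mod_cast h
  linarith

variable {R W J : Type} [Group R] [MulAction R W] [MulAction R J]
  {π : Q →* R} {A : AG R W J L} {φ : V → W} {ψ : I → J}

theorem ang_small (hq : IsQuoP F π A φ ψ) (p q : V) (h : X.d p q ≤ L) (l : J) :
    A.ang l (φ p) (φ q) ≤ 1002 * L := by
  have hL : (0 : ℝ) ≤ L := Nat.cast_nonneg L
  have := hq.ang_le (2 * L) p q (c_small F p q h) (by linarith) (by linarith) l
  linarith

theorem part2 (hq : IsQuoP F π A φ ψ) (H' : Subgroup Q) (p : V)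
    (hp : ∀ h ∈ H', X.d p (h • p) ≤ L) (h : Q) (hh : h ∈ H') (h1 : h ≠ 1) :
    π h ≠ 1 ∧ ∀ l : J, π h • l ≠ l := by
  have hL : (1 : ℝ) ≤ L := by exact_mod_cast A.hL
  have a1 : π h ≠ 1 := by
    intro hk
    apply h1
    apply hq.quo.inj h p hk
    intro i
    have := c_small F p (h • p) (hp h hh) i
    linarith
  refine ⟨a1, fun l hl => ?_⟩
  obtain ⟨j, hj⟩ := A.rot (π h) l hl a1
  have b1 := hj (φ p)
  rw [← map_pow, ← hq.quo.φ_smul] at b1
  have b2 := ang_small F hq p (h ^ j • p) (hp _ (H'.pow_mem hh j)) l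
  linarith

end Tbdd

open Tbdd in
theorem thm_bdd (h1 : S_pos) (h2 : S_fp) (h3 : S_lfp) (h4 : S_basic) : S_bdd := by
  intro Q V I _ _ _ X δ L F R W J _ _ _ π A φ ψ hinv hfour hδ hq
  have hL : (1 : ℝ) ≤ L := by exact_mod_cast A.hL
  obtain ⟨-, hb, -, -⟩ := h4 Q V X δ hinv hfour
  have hb' : ∀ H : Subgroup Q, Bdd X H → ∃ p : V, ∀ h ∈ H, X.d p (h • p) ≤ L := by
    intro H hH
    obtain ⟨p, hp⟩ := hb H hH
    exact ⟨p, fun h hh => (hp h hh).trans hδ⟩
  obtain ⟨-, -, -, pos4, pos5⟩ := h1 R W J L A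
  refine ⟨?_, ?_, ?_, ?_⟩
  · intro H hH
    obtain ⟨x, r, hx⟩ := hH
    rcases h2 R W J L A H x r hx with ⟨l, hl⟩ | ⟨p, hp⟩
    · left
      obtain ⟨i, hi⟩ := hq.quo.stab l
      exact ⟨i, fun h hh => (hi h).1 (hl h hh)⟩
    · right
      obtain ⟨p0, rfl⟩ := hq.quo.φ_surj p
      obtain ⟨lf, hlf, hmul⟩ := h3 Q V I X L F R W J π A φ hinv hq.quo H p0 hp
      have lf1 : lf 1 = 1 := by
        have := hmul 1 H.one_mem 1 H.one_mem
        rw [mul_one] at this
        exact left_eq_mul.1 this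
      let H' : Subgroup Q :=
        { carrier := {g | ∃ h ∈ H, lf h = g}
          mul_mem' := by
            rintro a b ⟨x, hx, rfl⟩ ⟨y, hy, rfl⟩
            exact ⟨x * y, H.mul_mem hx hy, hmul x hx y hy⟩
          one_mem' := ⟨1, H.one_mem, lf1⟩
          inv_mem' := by
            rintro a ⟨x, hx, rfl⟩
            refine ⟨x⁻¹, H.inv_mem hx, ?_⟩
            have := hmul x⁻¹ (H.inv_mem hx) x hx
            rw [inv_mul_cancel, lf1] at this
            exact eq_inv_of_mul_eq_one_left this.symm }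
      refine ⟨H', ⟨p0, 2000000 * L, ?_⟩, ?_⟩
      · rintro g ⟨h, hh, rfl⟩
        exact (hlf h hh).2.1
      · ext g
        rw [Subgroup.mem_map]
        constructor
        · rintro ⟨a, ⟨h, hh, rfl⟩, rfl⟩
          rw [(hlf h hh).1]; exact hh
        · intro hg
          exact ⟨lf g, ⟨g, hg, rfl⟩, (hlf g hg).1⟩
  · intro H' hH' h hh hne
    obtain ⟨p, hp⟩ := hb' H' hH'
    exact part2 F hq H' p hp h hh hne
  · intro H₁ H₂ t u u' hH₁ hH₂ hu hu' hne hconj
    obtain ⟨p₁, hp₁⟩ := hb' H₁ hH₁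
    obtain ⟨p₂, hp₂⟩ := hb' H₂ hH₂
    have hang : ∀ l, A.ang l (φ p₁) (t⁻¹ • φ p₂) ≤ 3804 * L := by
      intro l
      by_contra hcon
      push Not at hcon
      have hS : ∀ s ∈ (Subgroup.zpowers (π u) : Set R),
          A.ang l (φ p₁) (s • φ p₁) ≤ 1002 * L ∧
          A.ang l (t⁻¹ • φ p₂) (s • t⁻¹ • φ p₂) ≤ 1002 * L := by
        intro s hs
        obtain ⟨j, rfl⟩ := Subgroup.mem_zpowers_iff.1 hs
        constructor
        · rw [← map_zpow, ← hq.quo.φ_smul]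
          exact ang_small F hq _ _ (hp₁ _ (H₁.zpow_mem hu j)) l
        · rw [← A.ang_smul t l, smul_inv_smul, smul_smul, smul_smul, ← conj_zpow, hconj,
            ← map_zpow, ← hq.quo.φ_smul]
          exact ang_small F hq _ _ (hp₂ _ (H₂.zpow_mem hu' j)) _
      obtain ⟨q1, q2⟩ := pos5 l (φ p₁) (t⁻¹ • φ p₂) (1002 * L) _ (by linarith) hS (by linarith)
      set α : ℤ := (A.Z.d (π u • φ p₁) (t⁻¹ • φ p₂) : ℤ) - A.Z.d (φ p₁) (t⁻¹ • φ p₂) with hα
      have hmem : ∀ j : ℕ, (π u) ^ j ∈ (Subgroup.zpowers (π u) : Set R) := fun j =>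
        Subgroup.pow_mem _ (Subgroup.mem_zpowers _) j
      have hlin : ∀ j : ℕ, (A.Z.eta (A.Y l) ((π u) ^ j • φ p₁) : ℤ) =
          A.Z.eta (A.Y l) (φ p₁) + j * α := by
        intro j
        induction j with
        | zero => simp
        | succ j ih =>
          have := q1 ((π u) ^ j) (π u) (hmem j) (by rw [← pow_succ]; exact hmem (j + 1))
          rw [← pow_succ] at this
          rw [this, ih]
          push_cast
          ring
      have hup : ∀ j : ℕ, A.Z.eta (A.Y l) ((π u) ^ j • φ p₁) ≤ 1 + A.Z.eta (A.Y l) (φ p₁) := by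
        intro j
        have e1 := eta_le A.Z (A.Y l) (A.Y_ne l) (φ p₁) ((π u) ^ j • φ p₁)
        have e2 := hq.quo.scale 0 p₁ (u ^ j • p₁)
          (by simpa using hp₁ _ (H₁.pow_mem hu j))
        rw [hq.quo.φ_smul, map_pow] at e2
        omega
      have hα0 : α = 0 := by
        have e1 := hlin 2
        have e2 := hup 2
        have e3 := hlin (A.Z.eta (A.Y l) (φ p₁) + 1)
        rcases lt_trichotomy α 0 with h | h | h
        · exfalso
          have e4 : (0 : ℤ) ≤ A.Z.eta (A.Y l) ((π u) ^ (A.Z.eta (A.Y l) (φ p₁) + 1) • φ p₁) :=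
            Int.natCast_nonneg _
          push_cast at e3
          have e5 : (0 : ℤ) ≤ A.Z.eta (A.Y l) (φ p₁) := Int.natCast_nonneg _
          nlinarith
        · exact h
        · exfalso
          push_cast at e1
          omega
      have e1 := hlin 1
      rw [hα0, pow_one] at e1
      have e2 := q2 (π u) 1 (Subgroup.mem_zpowers _) (Subgroup.one_mem _)
        (by rw [one_smul]; simpa using e1)
      rw [inv_one, one_smul] at e2
      have e3 : π u • l = l := by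
        conv_lhs => rw [← e2]
        rw [smul_inv_smul]
      exact (part2 F hq H₁ p₁ hp₁ u hu hne).2 l e3
    obtain ⟨q, hφq, -, hcq⟩ := hq.quo.lift (3804 * L) p₁ (t⁻¹ • φ p₂) hang (by linarith)
    obtain ⟨t₀, rfl⟩ := hq.quo.surj t
    have e1 : φ (t₀⁻¹ • p₂) = φ q := by rw [hq.quo.φ_smul, map_inv, hφq]
    obtain ⟨k, hk, hqk⟩ := hq.quo.φ_eq _ _ e1
    refine ⟨t₀ * k⁻¹, by simp [hk], ?_⟩
    intro h hh h' hh' hc
    set s : Q := t₀ * k⁻¹ with hs
    have hπs : π s = π t₀ := by simp [hs, hk]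
    have hq' : q = s⁻¹ • p₂ := by rw [hqk, hs, mul_inv_rev, inv_inv, mul_smul]
    have hp2 : p₂ = s • q := by rw [hq', smul_inv_smul]
    have hw : π (h⁻¹ * s⁻¹ * h' * s) = 1 := by
      simp only [map_mul, map_inv, hπs, ← hc]
      group
    have hw1 : h⁻¹ * s⁻¹ * h' * s = 1 := by
      apply hq.quo.inj _ p₁ hw
      intro i
      have a1 := c_small F p₁ (h⁻¹ • p₁) (hp₁ _ (H₁.inv_mem hh)) i
      have a2 : |F.c i (h⁻¹ • p₁) - F.c i (h⁻¹ • q)| ≤ 3804 * L + 1000 * L := by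
        rw [c_shift]; exact hcq _
      have a3 : |F.c i ((h⁻¹ * s⁻¹) • p₂) - F.c i ((h⁻¹ * s⁻¹) • h' • p₂)| ≤ 2 * L := by
        rw [c_shift]; exact c_small F _ _ (hp₂ _ hh') _
      have a4 : |F.c i ((h⁻¹ * s⁻¹ * h' * s) • p₁) - F.c i ((h⁻¹ * s⁻¹ * h' * s) • q)|
          ≤ 3804 * L + 1000 * L := by
        rw [c_shift]; exact hcq _
      have b1 : (h⁻¹ * s⁻¹) • p₂ = h⁻¹ • q := by rw [mul_smul, ← hq']
      have b2 : (h⁻¹ * s⁻¹) • h' • p₂ = (h⁻¹ * s⁻¹ * h' * s) • q := by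
        rw [mul_smul (h⁻¹ * s⁻¹ * h'), ← hp2, mul_smul (h⁻¹ * s⁻¹)]
      rw [b1, b2] at a3
      rw [abs_le] at a1 a2 a3 a4
      rw [abs_lt]
      constructor <;> linarith [a1.1, a1.2, a2.1, a2.2, a3.1, a3.2, a4.1, a4.2]
    have : h' = s * h * s⁻¹ := by
      calc h' = s * h * (h⁻¹ * s⁻¹ * h' * s) * s⁻¹ := by group
        _ = s * h * s⁻¹ := by rw [hw1, mul_one]
    exact this.symm
  · intro f t l hf hl hc
    have e1 : f • ((t * f * t⁻¹) • l) = (t * f * t⁻¹) • l := by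
      rw [smul_smul, hc.eq, mul_smul, hl]
    have e2 : l = (t * f * t⁻¹) • l := pos4 f l _ hf hl e1
    have e3 : t * f * t⁻¹ ≠ 1 := by
      intro h
      apply hf
      calc f = t⁻¹ * (t * f * t⁻¹) * t := by group
        _ = 1 := by rw [h]; group
    have e4 : (t * f * t⁻¹) • (t • l) = t • l := by
      rw [mul_smul, inv_smul_smul, mul_smul, hl]
    exact (pos4 _ l (t • l) e3 e2.symm e4).symm

end Pool.Agent.SCZ.Geo
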