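import Pool.Agent.SCZ.Geo.Rel

set_option autoImplicit false

/-!
# Chains of long segments of lines
-/

namespace Pool.Agent.SCZ.Geo

open Pool.Agent.H59Z.NA

namespace Tchain

variable {Q V I : Type} [Group Q] [MulAction Q V] [MulAction Q I] {X : GM V} {L : ℕ}
  (F : Fam Q V I X L) {D : ℕ} {ln : ℤ → I} {z y : ℤ → V}

/-- The data of a chain. -/
structure Ch (F : Fam Q V I X L) (D : ℕ) (ln : ℤ → I) (z y : ℤ → V) : Prop where
  beh : ∀ i j, i ≠ j → ∀ y ∈ F.Y j, ∀ y' ∈ F.Y i, ∀ z,
    |F.c i y - F.c i z| ≤ 10 * L ∨ |F.c j y' - F.c j z| ≤ 10 * L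
  hL : (L : ℝ) ≤ D
  hD : (1 : ℝ) ≤ D
  ne : ∀ j, ln j ≠ ln (j + 1)
  zm : ∀ j, z j ∈ F.Y (ln j)
  ym : ∀ j, y j ∈ F.Y (ln j)
  yz : ∀ j, X.d (y j) (z (j + 1)) ≤ D
  big : ∀ j, (100 : ℝ) * D ≤ |F.c (ln j) (z j) - F.c (ln j) (z (j + 1))|

variable {F}

theorem Ch.lipyz (h : Ch F D ln z y) (i : I) (j : ℤ) :
    |F.c i (y j) - F.c i (z (j + 1))| ≤ 2 * D := by
  have h1 := F.lip i (y j) (z (j + 1))
  have h2 : (X.d (y j) (z (j + 1)) : ℝ) ≤ D := by exact_mod_cast h.yz j
  have h3 := h.hL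
  linarith

theorem Ch.one (h : Ch F D ln z y) (a j : ℤ) (haj : a < j) (p : V) (hp : p ∈ F.Y (ln a)) :
    |F.c (ln j) p - F.c (ln j) (z j)| ≤ 15 * D := by
  have hL := h.hL
  have hD := h.hD
  have key : ∀ j, a + 1 ≤ j → |F.c (ln j) p - F.c (ln j) (z j)| ≤ 15 * D := by
    intro j hj
    induction j, hj using Int.leInduction with
    | base =>
      have h1 := F.sep (ln (a + 1)) (ln a) (h.ne a).symm p hp (y a) (h.ym a)
      have h2 := h.lipyz (ln (a + 1)) a
      rw [abs_le] at h1 h2 ⊢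
      constructor <;> linarith [h1.1, h1.2, h2.1, h2.2]
    | succ j _ ih =>
      have h2 := h.lipyz (ln (j + 1)) j
      have h3 := h.big j
      rcases h.beh (ln j) (ln (j + 1)) (h.ne j) (z (j + 1)) (h.zm (j + 1)) (y j) (h.ym j) p with
        h1 | h1
      · exfalso
        rw [abs_le] at h1 ih
        rcases le_abs'.1 h3 with h4 | h4 <;> linarith [h1.1, h1.2, ih.1, ih.2]
      · rw [abs_le] at h1 h2 ⊢
        constructor <;> linarith [h1.1, h1.2, h2.1, h2.2]
  exact key j haj

theorem Ch.two (h : Ch F D ln z y) (j b : ℤ) (hjb : j < b) (p : V) (hp : p ∈ F.Y (ln b)) :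
    |F.c (ln j) p - F.c (ln j) (z (j + 1))| ≤ 15 * D := by
  have hL := h.hL
  have hD := h.hD
  have key : ∀ j, j ≤ b - 1 → |F.c (ln j) p - F.c (ln j) (z (j + 1))| ≤ 15 * D := by
    intro j hj
    induction j, hj using Int.leInductionDown with
    | base =>
      have e : b - 1 + 1 = b := by ring
      have hne : ln (b - 1) ≠ ln b := by
        have := h.ne (b - 1)
        rwa [e] at this
      have h1 := F.sep (ln (b - 1)) (ln b) hne p hp (z b) (h.zm b)
      rw [e]
      linarith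
    | pred j _ ih =>
      have e : j - 1 + 1 = j := by ring
      have hne : ln (j - 1) ≠ ln j := by
        have := h.ne (j - 1)
        rwa [e] at this
      have h2 := h.lipyz (ln j) (j - 1)
      have h3 := h.big j
      rw [e] at h2 ⊢
      rcases h.beh (ln (j - 1)) (ln j) hne (z j) (h.zm j) (y (j - 1)) (h.ym (j - 1)) p with
        h1 | h1
      · rw [abs_le] at h1 ⊢
        constructor <;> linarith [h1.1, h1.2]
      · exfalso
        rw [abs_le] at h1 h2 ih
        rcases le_abs'.1 h3 with h4 | h4 <;> linarith [h1.1, h1.2, h2.1, h2.2, ih.1, ih.2]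
  exact key j (by omega)

theorem Ch.three (h : Ch F D ln z y) (a b : ℤ) (i : I) (hab : a ≤ b)
    (hi : ∀ j, a ≤ j → j < b → i ≠ ln j) : |F.c i (z a) - F.c i (z b)| ≤ 40 * D := by
  have hL := h.hL
  have hD := h.hD
  obtain ⟨w, hw⟩ := F.Y_ne i
  have alt : ∀ j, a ≤ j → j < b → (∀ p ∈ F.Y (ln j), |F.c i p - F.c i (z a)| ≤ 10 * L) ∨
      ∀ p ∈ F.Y (ln j), |F.c i p - F.c i (z b)| ≤ 10 * L := by
    intro j haj hjb
    have hne : ln j ≠ i := (hi j haj hjb).symm
    have h1 : |F.c (ln j) (z a) - F.c (ln j) (z j)| ≤ 15 * D := by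
      rcases haj.eq_or_lt with rfl | hlt
      · rw [sub_self, abs_zero]; linarith
      · exact h.one a j hlt _ (h.zm a)
    have h2 := h.two j b hjb _ (h.zm b)
    have h3 := h.big j
    by_cases hc : |F.c (ln j) w - F.c (ln j) (z a)| ≤ 10 * L
    · right
      intro p hp
      rcases h.beh (ln j) i hne w hw p hp (z b) with h4 | h4
      · exfalso
        rw [abs_le] at h1 h2 hc h4
        rcases le_abs'.1 h3 with h5 | h5 <;>
          linarith [h1.1, h1.2, h2.1, h2.2, hc.1, hc.2, h4.1, h4.2]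
      · exact h4
    · left
      intro p hp
      exact (h.beh (ln j) i hne w hw p hp (z a)).resolve_left hc
  have key : ∀ j, a ≤ j → j ≤ b →
      |F.c i (z a) - F.c i (z b)| ≤ 40 * D ∨ |F.c i (z j) - F.c i (z a)| ≤ 12 * D := by
    intro j hj
    induction j, hj using Int.leInduction with
    | base =>
      intro _
      right
      rw [sub_self, abs_zero]; linarith
    | succ j hj ih =>
      intro hjb
      rcases ih (by omega) with ih | ih
      · exact Or.inl ih
      rcases alt j hj (by omega) with h1 | h1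
      · right
        have h2 := h1 (y j) (h.ym j)
        have h3 := h.lipyz i j
        rw [abs_le] at h2 h3 ⊢
        constructor <;> linarith [h2.1, h2.2, h3.1, h3.2]
      · left
        have h2 := h1 (z j) (h.zm j)
        rw [abs_le] at h2 ih ⊢
        constructor <;> linarith [h2.1, h2.2, ih.1, ih.2]
  rcases key b hab le_rfl with h1 | h1
  · exact h1
  · rw [abs_sub_comm]; linarith

theorem Ch.four (h : Ch F D ln z y) (hLD : L ≤ D) (a j b : ℤ) (haj : a < j) (hjb : j < b) (p : V)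
    (hp : p ∈ F.Y (ln a)) (p' : V) (hp' : p' ∈ F.Y (ln b)) :
    X.d p (z j) + X.d (z j) p' ≤ X.d p p' + 50 * D := by
  have hL := h.hL
  have hD := h.hD
  have h1 := h.one a j haj p hp
  have h2 := h.two j b hjb p' hp'
  have h3 := h.big j
  have h4 : (L : ℝ) < |F.c (ln j) p - F.c (ln j) p'| := by
    rw [abs_le] at h1 h2
    rcases le_abs'.1 h3 with h5 | h5
    · exact lt_abs.2 (Or.inr (by linarith [h1.1, h1.2, h2.1, h2.2]))
    · exact lt_abs.2 (Or.inl (by linarith [h1.1, h1.2, h2.1, h2.2]))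
  obtain ⟨a', ha', b', hb', h5, h6, -⟩ := F.proj (ln j) p p' h4
  have h7 := F.near (ln j) a' ha' (z j) (h.zm j)
  have h8 : |F.c (ln j) a' - F.c (ln j) (z j)| ≤ 16 * D := by
    rw [abs_le] at h1 h6 ⊢
    constructor <;> linarith [h1.1, h1.2, h6.1, h6.2]
  have h9 : X.d a' (z j) ≤ 17 * D := by
    have : (X.d a' (z j) : ℝ) ≤ 17 * D := by linarith
    exact_mod_cast this
  have t1 := X.tri p a' (z j)
  have t2 := X.tri (z j) a' p'
  have t3 := X.tri a' b' p'
  have t4 := X.comm (z j) a'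
  omega

end Tchain

theorem thm_chain (h1 : S_fam) : S_chain := by
  intro Q V I _ _ _ X δ L F hinv hfour hδ D ln z hLD hD hne hz hbig
  obtain ⟨-, -, -, -, -, -, hbeh⟩ := h1 Q V I X δ L F hinv hfour hδ
  choose y hy using fun j => (hz j).2
  have h : Tchain.Ch F D ln z y :=
    { beh := hbeh
      hL := by exact_mod_cast hLD
      hD := by exact_mod_cast hD
      ne := hne
      zm := fun j => (hz j).1
      ym := fun j => (hy j).1
      yz := fun j => (hy j).2
      big := hbig }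
  exact ⟨h.one, h.two, h.three, h.four hLD⟩

end Pool.Agent.SCZ.Geo
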