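import Pool.Agent.SCZ.Geo.Rel

set_option autoImplicit false

/-! The family of lines of one long relator, and the existence of the quotient geometry. -/

namespace Pool.Agent.SCZ.Geo

open Pool.Agent.H59Z.NA

namespace TwordsF

variable {Q V : Type} [Group Q] [MulAction Q V] {X : GM V}

theorem ax_conj (hi : X.Inv Q) (ht : ∀ g s : Q, X.tau (s * g * s⁻¹) = X.tau g) (r s : Q) (η : ℕ)
    (a : V) : a ∈ Ax X (s * r * s⁻¹) η ↔ s⁻¹ • a ∈ Ax X r η := by
  have h : X.d (s⁻¹ • a) (r • s⁻¹ • a) = X.d a ((s * r * s⁻¹) • a) := by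
    rw [← hi s, smul_inv_smul, mul_smul, mul_smul]
  simp only [Ax, Set.mem_ofPred_eq, ht, h]

theorem ax_inv (hi : X.Inv Q) (ht : ∀ (g : Q) (k : ℤ), X.tau (g ^ k) = |(k : ℝ)| * X.tau g)
    (r : Q) (η : ℕ) (a : V) : a ∈ Ax X r⁻¹ η ↔ a ∈ Ax X r η := by
  have h : X.d a (r⁻¹ • a) = X.d a (r • a) := by
    rw [← hi r, smul_inv_smul, X.comm]
  have h2 : X.tau r⁻¹ = X.tau r := by simpa using ht r (-1)
  simp only [Ax, Set.mem_ofPred_eq, h, h2]

theorem zpowers_conj {r s t : Q} (h : s⁻¹ * t * s ∈ Subgroup.zpowers r) :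
    t ∈ Subgroup.zpowers (s * r * s⁻¹) := by
  obtain ⟨k, hk⟩ := Subgroup.mem_zpowers_iff.1 h
  refine Subgroup.mem_zpowers_iff.2 ⟨k, ?_⟩
  rw [conj_zpow, hk]
  group

end TwordsF

open TwordsF in
theorem thm_wordsF (h1 : S_tau) (h2 : S_axis) (h3 : S_linesG) (h4 : S_words) : S_wordsF := by
  intro Q V _ _ X δ A D W m L hi hf hδ hc hm hA x y a p hx hxy hpx hpy hpa hW hWm hmW hL
  obtain ⟨t1, -, -, t4, t5, -, -⟩ := h1 Q V X hi
  obtain ⟨w, hw, hτ, hs⟩ := h4 Q V X δ A D W m (2 * 10 ^ 12) hi hf hδ hc hm hA x y a p hx hxy hpx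
    hpy hpa hW hWm hmW (by norm_num)
  refine ⟨w, hw, ?_⟩
  generalize a * w = r at hτ hs ⊢
  have hW1 : 1 ≤ W := by omega
  have hW1' : (1 : ℝ) ≤ W := by exact_mod_cast hW1
  have hτ' : (4 * 10 ^ 27 : ℝ) * W ≤ X.tau r := by
    push_cast at hτ
    linarith
  have hbig : (10 ^ 9 : ℝ) * L ≤ X.tau r := by
    rw [hL]
    push_cast
    linarith
  have hpos : 0 < X.tau r := by nlinarith
  have hprim : ∀ t : Q, t * r * t⁻¹ ∈ Subgroup.zpowers r → t ∈ Subgroup.zpowers r := by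
    intro t ht
    obtain ⟨k, hk⟩ := Subgroup.mem_zpowers_iff.1 ht
    have hk1 : |(k : ℝ)| = 1 := by
      have e := t4 r k
      rw [hk, t5] at e
      exact mul_right_cancel₀ hpos.ne' (by rw [← e, one_mul])
    have hk2 : k = 1 ∨ k = -1 := by
      have : |k| = 1 := by exact_mod_cast hk1
      rcases abs_eq (by norm_num : (0 : ℤ) ≤ 1) |>.1 this with h | h
      · exact Or.inl h
      · exact Or.inr h
    have hax : ∀ b, b ∈ Ax X r (1500 * δ) → t • b ∈ Ax X r (1500 * δ) := by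
      intro b hb
      have e : t • b ∈ Ax X (t * r * t⁻¹) (1500 * δ) := by
        rw [ax_conj hi t5, inv_smul_smul]; exact hb
      rw [← hk] at e
      rcases hk2 with rfl | rfl
      · simpa using e
      · rw [zpow_neg_one, ax_inv hi t4] at e
        exact e
    obtain ⟨o, ho⟩ := h2 Q V X δ hi hf r hpos
    have ho1 : o ∈ Ax X r (1500 * δ) := by
      have := ho r (Commute.refl r)
      have h0 : (0 : ℝ) ≤ δ := Nat.cast_nonneg δ
      simp only [Ax, Set.mem_ofPred_eq]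
      push_cast
      linarith
    have ho2 : r • o ∈ Ax X r (1500 * δ) := by
      simp only [Ax, Set.mem_ofPred_eq, hi r] at ho1 ⊢
      exact ho1
    refine hs t o (r • o) ho1 ho2 (hax _ ho1) (hax _ ho2) ?_
    have e := t1 r o 1
    simp only [Nat.cast_one, mul_one, pow_one] at e
    have : ((10 ^ 6 * (2 * 10 ^ 12) * W : ℕ) : ℝ) ≤ X.d o (r • o) := by
      push_cast
      nlinarith
    exact_mod_cast this
  obtain ⟨I, iI, F, hF1, hF2⟩ := h3 Q V X δ (10 ^ 6 * (2 * 10 ^ 12) * W) L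
    (fun g => ∃ s : Q, g = s * r * s⁻¹) (fun _ => 1) hi hf hδ (by omega)
    (by
      rintro g s ⟨u, rfl⟩
      exact ⟨⟨s * u, by group⟩, rfl⟩)
    (by
      rintro g ⟨s, rfl⟩
      refine ⟨by rw [t5]; exact hpos, fun t ht => zpowers_conj (hprim _ ?_), by
        rw [t5]; simpa using hbig⟩
      obtain ⟨k, hk⟩ := Subgroup.mem_zpowers_iff.1 ht
      refine Subgroup.mem_zpowers_iff.2 ⟨k, ?_⟩
      rw [conj_zpow] at hk
      have : r ^ k = s⁻¹ * (s * r ^ k * s⁻¹) * s := by group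
      rw [this, hk]
      group)
    (by
      rintro g g' ⟨s, rfl⟩ ⟨s', rfl⟩ hne b b' e1 e2 e3 e4
      by_contra hlt
      rw [ax_conj hi t5] at e1 e2 e3 e4
      have e5 := hs (s'⁻¹ * s) _ _ e1 e2 (by rw [mul_smul, smul_inv_smul]; exact e3)
        (by rw [mul_smul, smul_inv_smul]; exact e4) (by rw [hi]; omega)
      obtain ⟨k, hk⟩ := Subgroup.mem_zpowers_iff.1 e5
      have e6 : s = s' * r ^ k := by rw [hk]; group
      refine hne ?_
      rw [e6]
      congr 1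
      group)
  refine ⟨hbig, I, iI, F, fun i => ⟨(hF1 i).2, (hF1 i).1⟩, le_antisymm ?_ ?_⟩
  · refine (Subgroup.closure_le _).2 ?_
    rintro _ ⟨i, rfl⟩
    obtain ⟨⟨s, hs'⟩, hmu⟩ := hF1 i
    simp only [hs', hmu, pow_one]
    exact Subgroup.normalClosure_normal.conj_mem r
      (Subgroup.subset_normalClosure (Set.mem_singleton r)) s
  · refine Subgroup.normalClosure_le_normal ?_
    intro r' hr'
    rw [Set.mem_singleton_iff.1 hr']
    obtain ⟨i, hi'⟩ := hF2 r ⟨1, by group⟩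
    have hg : F.gen i ∈ F.K := Subgroup.subset_closure ⟨i, by simp [(hF1 i).2]⟩
    rcases hi' with h | h
    · rw [h]; exact hg
    · rw [h]; exact F.K.inv_mem hg

theorem thm_pack (h1 : S_elec) (h2 : S_wind) (h3 : S_quoP) : S_pack := by
  intro Q V I _ _ _ X δ L F hne hi hf hδ hL
  obtain ⟨E, hE⟩ := h1 Q V I X δ L F hi hf hδ hL
  refine h3 Q V I X L F E hne hi hL hE (h2 Q V I X L F E hi hL hE Q (MonoidHom.id Q) _ ?_
    (fun i h hh => hh) fun i h _ hh => hh)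
  intro g i h hh
  obtain ⟨k, rfl⟩ := Subgroup.mem_zpowers_iff.1 hh
  refine Subgroup.mem_zpowers_iff.2 ⟨k, ?_⟩
  simp only [MonoidHom.id_apply, F.gen_smul, F.mu_smul, conj_pow, conj_zpow]

end Pool.Agent.SCZ.Geo
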