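import Pool.Agent.SCZ.Geo.Twords1

set_option autoImplicit false

/-!
# Small cancellation words
-/

namespace Pool.Agent.SCZ.Geo

open Pool.Agent.H59Z.NA

namespace Twords

theorem exh {Q : Type} [Group Q] (u : ℤ → Q) :
    ∃ h : ℤ → Q, h 0 = 1 ∧ ∀ j, h (j + 1) = h j * u j := by
  let H : ℕ → Q := fun n => Nat.rec 1 (fun n a => a * u n) n
  let G : ℕ → Q := fun n => Nat.rec 1 (fun n a => a * (u (-(n : ℤ) - 1))⁻¹) n
  have hH : ∀ n : ℕ, H (n + 1) = H n * u n := fun n => rfl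
  have hG : ∀ n : ℕ, G (n + 1) = G n * (u (-(n : ℤ) - 1))⁻¹ := fun n => rfl
  have hH0 : H 0 = 1 := rfl
  have hG0 : G 0 = 1 := rfl
  refine ⟨fun j => if 0 ≤ j then H j.toNat else G (-j).toNat, by simp [hH0], fun j => ?_⟩
  by_cases hj : 0 ≤ j
  · obtain ⟨n, rfl⟩ := Int.eq_ofNat_of_zero_le hj
    simp only [if_pos hj, if_pos (show (0 : ℤ) ≤ n + 1 by omega)]
    rw [show ((n : ℤ) + 1).toNat = n + 1 by omega, Int.toNat_natCast, hH]
  · obtain ⟨n, rfl⟩ : ∃ n : ℕ, j = -(n : ℤ) - 1 := ⟨(-j - 1).toNat, by omega⟩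
    simp only [if_neg hj]
    rw [show (-(-(n : ℤ) - 1)).toNat = n + 1 by omega, hG, inv_mul_cancel_right]
    rcases Nat.eq_zero_or_pos n with rfl | hn
    · simp [hH0, hG0]
    · rw [if_neg (by omega), show (-(-(n : ℤ) - 1 + 1)).toNat = n by omega]

theorem hper {Q : Type} [Group Q] (u h : ℤ → Q) (K : ℤ) (hu : ∀ j, u (j + K) = u j)
    (h0 : h 0 = 1) (hs : ∀ j, h (j + 1) = h j * u j) (j : ℤ) : h (j + K) = h K * h j := by
  induction j using Int.induction_on with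
  | zero => simp [h0]
  | succ n ih =>
    rw [show (n : ℤ) + 1 + K = n + K + 1 by ring, hs, hs, ih, hu, mul_assoc]
  | pred n ih =>
    have e1 := hs (-(n : ℤ) - 1)
    have e2 := hs (-(n : ℤ) - 1 + K)
    rw [show -(n : ℤ) - 1 + 1 = -n by ring] at e1
    rw [show -(n : ℤ) - 1 + K + 1 = -n + K by ring, ih, e1, hu, ← mul_assoc] at e2
    exact (mul_right_cancel e2).symm

variable {Q V I : Type} [Group Q] [MulAction Q V] [MulAction Q I] {X : GM V} {W : ℕ}

theorem build (ht : S_tau) (hc : S_chain) {δ K : ℕ} (F : Fam Q V I X W) (hI : X.Inv Q)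
    (hF : X.Four δ) (hδ : 40000 * δ ≤ W) (hK : 100 ≤ K) (hW : 1 ≤ W)
    (f3 : ∀ (i : I) (u : Q) (p : V), u • i = i → |F.c i (u • p) - F.c i p| = X.tau u)
    (f4 : ∀ (i j : I) (u : Q), i ≠ j → u • i = i → u • j = j → u = 1)
    (x y b₁ : Q) (i₀ : I) (o : V) (ho : o ∈ F.Y i₀) (hx0 : 0 < X.tau x) (hx1 : X.tau x ≤ W)
    (hx : x • i₀ = i₀) (hy : y • i₀ ≠ i₀) (hb : b₁ • i₀ ≠ i₀)
    (dy : X.d o (y • o) ≤ 5 * W) (db : X.d o (b₁ • o) ≤ 5 * W) :
    ∃ w ∈ Subgroup.closure ({x, y} : Set Q),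
    (1000 : ℝ) * K ^ 2 * W ≤ X.tau (b₁ * w) ∧
    ∀ (s : Q) (b b' : V), b ∈ Ax X (b₁ * w) (1500 * δ) → b' ∈ Ax X (b₁ * w) (1500 * δ) →
      s • b ∈ Ax X (b₁ * w) (1500 * δ) → s • b' ∈ Ax X (b₁ * w) (1500 * δ) →
      10 ^ 6 * K * W ≤ X.d b b' → s ∈ Subgroup.zpowers (b₁ * w) := by
  obtain ⟨-, -, -, t4, -, -, -⟩ := ht Q V X hI
  have hW1 : (1 : ℝ) ≤ W := by exact_mod_cast hW
  have hK' : (100 : ℝ) ≤ K := by exact_mod_cast hK
  have hK0 : (0 : ℤ) < K := by exact_mod_cast (show 0 < K by omega)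
  have hKW : 100 * (W : ℝ) ≤ K * W := by nlinarith
  obtain ⟨bb, hbb⟩ : ∃ bb : ℤ → Q, ∀ j, bb j = if j % K = 0 then b₁ else y := ⟨_, fun _ => rfl⟩
  have bb1 : ∀ j, bb j • i₀ ≠ i₀ := fun j => by rw [hbb]; split_ifs <;> assumption
  have bb2 : ∀ j, X.d o (bb j • o) ≤ 5 * W := fun j => by rw [hbb]; split_ifs <;> assumption
  have bb3 : ∀ j, bb (j + K) = bb j := fun j => by rw [hbb, hbb, Int.add_emod_right]
  obtain ⟨k, hk⟩ : ∃ k : ℤ → ℕ, ∀ j, k j =
      ⌈(2000 * (K * W) + ((j % K : ℤ) : ℝ) * (1000 * W)) / X.tau x⌉₊ := ⟨_, fun _ => rfl⟩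
  have k3 : ∀ j, k (j + K) = k j := fun j => by rw [hk, hk, Int.add_emod_right]
  have m0 : ∀ j : ℤ, (0 : ℝ) ≤ ((j % K : ℤ) : ℝ) := fun j => by
    exact_mod_cast Int.emod_nonneg j hK0.ne'
  have m1 : ∀ j : ℤ, ((j % K : ℤ) : ℝ) + 1 ≤ K := fun j => by
    exact_mod_cast Int.emod_lt_of_pos j hK0
  have k1 : ∀ j, 2000 * (K * W) + ((j % K : ℤ) : ℝ) * (1000 * W) ≤ k j * X.tau x := fun j => by
    rw [hk, ← div_le_iff₀ hx0]; exact Nat.le_ceil _
  have k2 : ∀ j, k j * X.tau x ≤ 2000 * (K * W) + ((j % K : ℤ) : ℝ) * (1000 * W) + W := fun j => by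
    have h0 : 0 ≤ (2000 * (K * W) + ((j % K : ℤ) : ℝ) * (1000 * W)) / X.tau x := by
      have := m0 j
      positivity
    have h1 := (Nat.ceil_lt_add_one h0).le
    rw [← hk] at h1
    have h2 := mul_le_mul_of_nonneg_right h1 hx0.le
    rw [add_mul, div_mul_cancel₀ _ hx0.ne'] at h2
    linarith
  obtain ⟨h, h0, hs⟩ := exh fun j => bb j * x ^ k j
  have hp := hper (fun j => bb j * x ^ k j) h K (fun j => by simp only [bb3, k3]) h0 hs
  have hxk : ∀ n : ℕ, x ^ n • i₀ = i₀ := fun n => by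
    induction n with
    | zero => simp
    | succ n ih => rw [pow_succ, mul_smul, hx, ih]
  have tk : ∀ n : ℕ, X.tau (x ^ n) = n * X.tau x := fun n => by
    have := t4 x n
    rw [zpow_natCast] at this
    rw [this]; simp
  have hxo : ∀ n : ℕ, x ^ n • o ∈ F.Y i₀ := fun n => by
    have := (F.Y_smul (x ^ n) i₀ o).2 ho
    rwa [hxk] at this
  have e1 : ∀ j, h (j + 1) * bb (j + 1) = (h j * bb j) * (x ^ k j * bb (j + 1)) := fun j => by
    rw [hs]; simp only [mul_assoc]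
  have hang : ∀ j, |(|F.c ((h j * bb j) • i₀) ((h j * bb j) • o) -
      F.c ((h j * bb j) • i₀) ((h (j + 1) * bb (j + 1)) • o)|) - k j * X.tau x| ≤ 6 * W := by
    intro j
    rw [e1, mul_smul (h j * bb j), F.c_smul, mul_smul, ← tk, ← f3 i₀ _ (bb (j + 1) • o) (hxk _),
      abs_sub_comm (F.c i₀ (x ^ k j • bb (j + 1) • o))]
    refine (abs_abs_sub_abs_le_abs_sub _ _).trans ?_
    have l1 := F.lip i₀ o (bb (j + 1) • o)
    have l2 : (X.d o (bb (j + 1) • o) : ℝ) ≤ 5 * W := by exact_mod_cast bb2 (j + 1)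
    rw [sub_sub_sub_cancel_right]
    linarith
  have hmem : ∀ n : ℕ, n + 1 ≤ K → b₁⁻¹ * h (n + 1) ∈ Subgroup.closure ({x, y} : Set Q) := by
    have mx : x ∈ Subgroup.closure ({x, y} : Set Q) := Subgroup.subset_closure (by simp)
    have my : y ∈ Subgroup.closure ({x, y} : Set Q) := Subgroup.subset_closure (by simp)
    intro n
    induction n with
    | zero =>
      intro _
      rw [hs]
      simp only [Nat.cast_zero, h0, one_mul, hbb, Int.zero_emod, if_true, inv_mul_cancel_left]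
      exact pow_mem mx _
    | succ n ih =>
      intro hn
      rw [hs, hbb, if_neg (by rw [Int.emod_eq_of_lt (by omega) (by omega)]; omega), ← mul_assoc]
      push_cast
      exact mul_mem (ih (by omega)) (mul_mem my (pow_mem mx _))
  refine ⟨b₁⁻¹ * h K, ?_, ?_⟩
  · have := hmem (K - 1) (by omega)
    rwa [show ((K - 1 : ℕ) : ℤ) + 1 = K by omega] at this
  rw [mul_inv_cancel_left]
  refine core2 (F := F) (ln := fun j => (h j * bb j) • i₀) (z := fun j => (h j * bb j) • o)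
    ht hc hI hF hδ hK hW ⟨fun j hj => ?_, fun j => ⟨(F.Y_smul _ _ _).2 ho, h (j + 1) • o, ?_, ?_⟩,
      fun j => ?_⟩ (h K) (fun j => k j * X.tau x) (fun j => ?_) (fun j => ?_) hang (fun j t hjt => ?_)
      (fun j => ?_) f4
  · simp only [e1 j, mul_smul (h j * bb j)] at hj
    have h1 := MulAction.injective _ hj
    rw [mul_smul] at h1
    nth_rewrite 1 [← hxk (k j)] at h1
    exact bb1 _ (MulAction.injective _ h1).symm
  · rw [hs, ← mul_assoc, mul_smul]
    exact (F.Y_smul _ _ _).2 (hxo _)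
  · simp only [mul_smul]
    rw [hI]
    exact bb2 _
  · have a1 := hang j
    have a2 := k1 j
    have a3 : 0 ≤ ((j % K : ℤ) : ℝ) * (1000 * W) := mul_nonneg (m0 j) (by linarith)
    rw [abs_le] at a1
    simp only
    linarith [a1.1]
  · simp only [hp, bb3, mul_smul]
  · simp only [hp, bb3, mul_smul]
  · have a1 := k1 j
    have a2 := k2 j
    have a3 := k1 t
    have a4 := k2 t
    rw [abs_le] at hjt
    have e : j % K = t % K := by
      rcases lt_trichotomy (j % K) (t % K) with hlt | he | hlt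
      · exfalso
        have : ((j % K : ℤ) : ℝ) + 1 ≤ ((t % K : ℤ) : ℝ) := by exact_mod_cast hlt
        nlinarith [hjt.1]
      · exact he
      · exfalso
        have : ((t % K : ℤ) : ℝ) + 1 ≤ ((j % K : ℤ) : ℝ) := by exact_mod_cast hlt
        nlinarith [hjt.2]
    obtain ⟨n, hn⟩ := Int.ModEq.dvd (show j ≡ t [ZMOD K] from e)
    exact ⟨n, by linarith⟩
  · rw [e1, mul_smul (h j * bb j), hI, mul_smul]
    have a1 := triR (X := X) o (x ^ k j • o) (x ^ k j • bb (j + 1) • o)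
    rw [hI] at a1
    have a2 := F.near i₀ o ho _ (hxo (k j))
    rw [abs_sub_comm, f3 i₀ _ o (hxk _), tk] at a2
    have a3 := k2 j
    have a4 : (X.d o (bb (j + 1) • o) : ℝ) ≤ 5 * W := by exact_mod_cast bb2 (j + 1)
    have a5 := m1 j
    nlinarith

end Twords

theorem thm_words (h1 : S_tau) (h2 : S_linesG) (h3 : S_fam) (h4 : S_chain) : S_words := by
  intro Q V _ _ X δ A D W m K hI hF hδ hcyc hmal hacyl x y a p hx hxy dx dy da hW hm hmδ hK
  obtain ⟨t1, t2, -, t4, t5, -, -⟩ := h1 Q V X hI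
  obtain ⟨x₀, hx₀⟩ := hcyc x hx
  obtain ⟨e, he⟩ := hx₀ x (Commute.refl x)
  simp only at he
  have hτ : X.tau x = |(e : ℝ)| * X.tau x₀ := by rw [← he, t4]
  have he0 : e ≠ 0 := by
    rintro rfl
    simp at hτ
    exact hx.ne' hτ
  have he1 : (1 : ℝ) ≤ |(e : ℝ)| := by exact_mod_cast Int.one_le_abs he0
  have hτ0 : 0 < X.tau x₀ := by
    rcases (t2 x₀).eq_or_lt with h | h
    · rw [← h, mul_zero] at hτ
      exact absurd hτ hx.ne'
    · exact h
  have hτD : X.tau x ≤ D := by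
    have := t1 x p 1
    simp only [Nat.cast_one, mul_one, pow_one] at this
    exact this.trans (by exact_mod_cast dx)
  have hτ0D : X.tau x₀ ≤ D := by nlinarith
  have cent : ∀ g, (∃ s, g = s * x₀ * s⁻¹) → ∀ c, Commute c g → c ∈ Subgroup.zpowers g := by
    rintro g ⟨s, rfl⟩ c hc
    have c1 : Commute (s⁻¹ * c * s) x₀ := by
      have := hc.eq
      unfold Commute SemiconjBy
      calc s⁻¹ * c * s * x₀ = s⁻¹ * (c * (s * x₀ * s⁻¹)) * s := by group
        _ = x₀ * (s⁻¹ * c * s) := by rw [this]; group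
    obtain ⟨n, hn⟩ := hx₀ _ (he ▸ c1.zpow_right e)
    simp only at hn
    refine ⟨n, ?_⟩
    simp only [conj_zpow, hn]
    group
  have taug : ∀ g, (∃ s, g = s * x₀ * s⁻¹) → X.tau g = X.tau x₀ := by
    rintro g ⟨s, rfl⟩
    exact t5 _ _
  obtain ⟨M, hM⟩ := exists_nat_ge ((10 ^ 9 : ℝ) * W / X.tau x₀)
  rw [div_le_iff₀ hτ0] at hM
  obtain ⟨I, _, F, -, hF2⟩ := h2 Q V X δ (A + 20 * (D + 1500 * δ) + 40 * δ) W
    (fun g => ∃ s, g = s * x₀ * s⁻¹) (fun _ => M) hI hF hδ (by omega)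
    (by
      rintro g s ⟨t, rfl⟩
      exact ⟨⟨s * t, by group⟩, rfl⟩)
    (fun g hg => by
      have hpos : 0 < X.tau g := by rw [taug g hg]; exact hτ0
      refine ⟨hpos, fun t ht => cent g hg t (hmal g t hpos ?_), by rw [taug g hg]; exact hM⟩
      obtain ⟨n, hn⟩ := ht
      rw [← hn]
      exact (Commute.refl g).zpow_right n)
    (fun g g' hg hg' hne b b' a1 a2 a3 a4 => by
      by_contra hcon
      have key : ∀ g, (∃ s, g = s * x₀ * s⁻¹) → ∀ b ∈ Ax X g (1500 * δ),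
          X.d b (g • b) ≤ D + 1500 * δ := by
        intro g hg b hb
        have : (X.d b (g • b) : ℝ) ≤ X.tau g + ((1500 * δ : ℕ) : ℝ) := hb
        rw [taug g hg] at this
        have h' : (X.d b (g • b) : ℝ) ≤ ((D + 1500 * δ : ℕ) : ℝ) := by
          rw [Nat.cast_add]; linarith
        exact_mod_cast h'
      have hc := hacyl (D + 1500 * δ) g g' b b' (key g hg b a1) (key g hg b' a2) (key g' hg' b a3)
        (key g' hg' b' a4) (by omega)
      apply hne
      exact le_antisymm (Subgroup.zpowers_le.2 (cent g' hg' g hc))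
        (Subgroup.zpowers_le.2 (cent g hg g' hc.symm)))
  obtain ⟨i₀, hi₀⟩ := hF2 x₀ ⟨1, by group⟩
  have hz : Subgroup.zpowers (F.gen i₀) = Subgroup.zpowers x₀ := by
    rcases hi₀ with h | h <;> rw [h]
    rw [Subgroup.zpowers_inv]
  have hxi : x • i₀ = i₀ := by
    rw [F.stab, hz]; exact ⟨e, he⟩
  have hyi : y • i₀ ≠ i₀ := by
    rw [Ne, F.stab, hz]
    rintro ⟨n, hn⟩
    apply hxy
    rw [← he, ← hn]
    exact (Commute.refl x₀).zpow_zpow _ _
  obtain ⟨-, -, f3, f4, f5, -, -⟩ := h3 Q V I X δ W F hI hF (by omega)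
  obtain ⟨o, ho, hpo⟩ := f5 i₀ x p D m hxi hm dx
  have disp : ∀ g : Q, X.d p (g • p) ≤ 2 * D → X.d o (g • o) ≤ 5 * W := by
    intro g hg
    have a1 := X.tri o p (g • o)
    have a2 := X.tri p (g • p) (g • o)
    rw [hI] at a2
    have a3 := X.comm o p
    omega
  have hτW : X.tau x ≤ W := hτD.trans (by exact_mod_cast (show D ≤ W by omega))
  by_cases hai : a • i₀ = i₀
  · obtain ⟨w, hw, hw'⟩ := Twords.build h1 h4 F hI hF (K := K) (by omega) hK (by omega) f3 f4 x y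
      (a * y) i₀ o ho hx hτW hxi hyi
      (fun h => by
        rw [mul_smul] at h
        nth_rewrite 2 [← hai] at h
        exact hyi (MulAction.injective _ h))
      (disp y (by omega)) (disp _ (by
        have a1 := X.tri p (a • p) ((a * y) • p)
        rw [mul_smul, hI] at a1
        rw [mul_smul]
        omega))
    refine ⟨y * w, mul_mem (Subgroup.subset_closure (by simp)) hw, ?_⟩
    rw [← mul_assoc]
    exact hw'
  · exact Twords.build h1 h4 F hI hF (K := K) (by omega) hK (by omega) f3 f4 x y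
      a i₀ o ho hx hτW hxi hyi hai (disp y (by omega)) (disp a (by omega))

end Pool.Agent.SCZ.Geo
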