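import Pool.Agent.H59Z.NA.Final
import Pool.Agent.SCZ.Geo.Pack
import Pool.Agent.SCZ.Geo.Tbasic
import Pool.Agent.SCZ.Geo.Tscale
import Pool.Agent.SCZ.Geo.TlinesG
import Pool.Agent.SCZ.Geo.Tfam
import Pool.Agent.SCZ.Geo.Tpersist
import Pool.Agent.SCZ.Geo.Tbdd
import Pool.Agent.SCZ.Geo.TtriR
import Pool.Agent.SCZ.Geo.Tthinq
import Pool.Agent.SCZ.Geo.TloxqR
import Pool.Agent.SCZ.Geo.TstepR
import Pool.Agent.SCZ.Geo.Tbase0
import Pool.Agent.SCZ.Geo.Tcoprod
import Pool.Agent.SCZ.Geo.Tchain
import Pool.Agent.SCZ.Geo.Twords
import Pool.Agent.SCZ.Geo.TwordsF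

set_option autoImplicit false

/-! Assembly of the relative small cancellation step: every statement of `Rel` holds. -/

namespace Pool.Agent.SCZ.Geo

open Pool.Agent.H59Z.NA

theorem quoP_holds : S_quoP := thm_quoP
theorem basic_holds : S_basic := thm_basic tau_holds
theorem scale_holds : S_scale := thm_scale hyp_holds comm_holds basic_holds
theorem linesG_holds : S_linesG := thm_linesG tau_holds hyp_holds axis_holds
theorem fam_holds : S_fam := thm_fam tau_holds hyp_holds basic_holds
theorem persist_holds : S_persist := thm_persist tau_holds fam_holds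
theorem bdd_holds : S_bdd := thm_bdd pos_holds fp_holds lfp_holds basic_holds
theorem triR_holds : S_triR := thm_triR tau_holds pos_holds md_holds
theorem thinq_holds : S_thinq :=
  thm_thinq tau_holds pos_holds md_holds basic_holds fam_holds persist_holds
theorem loxqR_holds : S_loxqR := thm_loxqR tau_holds pos_holds md_holds basic_holds
theorem stepR_holds : S_stepR :=
  thm_stepR tau_holds lox_holds acylq_holds basic_holds scale_holds fam_holds bdd_holds triR_holds
    thinq_holds loxqR_holds
theorem base0_holds : S_base0 := thm_base0 tau_holds comm_holds lox_holds basic_holds scale_holds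
theorem clique_holds : S_clique := thm_clique
theorem coprod_holds : S_coprod := thm_coprod basic_holds
theorem chain_holds : S_chain := thm_chain fam_holds
theorem words_holds : S_words := thm_words tau_holds linesG_holds fam_holds chain_holds
theorem wordsF_holds : S_wordsF := thm_wordsF tau_holds axis_holds linesG_holds words_holds

end Pool.Agent.SCZ.Geo
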