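import Pool.Agent.H59Z.NA.St

set_option autoImplicit false

/-!
# Geometric small cancellation, relative version: definitions and statements

Built on `Pool.Agent.H59Z.NA`.  No condition is put on the elliptic elements, except that there
are no involutions.
-/

namespace Pool.Agent.SCZ.Geo

open Pool.Agent.H59Z.NA

section Defs

variable {V : Type} (X : GM V)

/-- The subgroup `H` has a bounded orbit. -/
def Bdd {Q : Type} [Group Q] [MulAction Q V] (H : Subgroup Q) : Prop :=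
  ∃ (x : V) (r : ℕ), ∀ h ∈ H, X.d x (h • x) ≤ r

/-- The element `g` is elliptic. -/
def Ell {Q : Type} [Group Q] [MulAction Q V] (g : Q) : Prop := Bdd X (Subgroup.zpowers g)

/-- Centralisers of loxodromic elements are cyclic. -/
def CycL (Q : Type) [Group Q] [MulAction Q V] : Prop :=
  ∀ u : Q, 0 < X.tau u → ∃ g : Q, ∀ a : Q, Commute a u → a ∈ Subgroup.zpowers g

/-- Centralisers of loxodromic elements are malnormal. -/
def MalL (Q : Type) [Group Q] [MulAction Q V] : Prop :=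
  ∀ u t : Q, 0 < X.tau u → Commute u (t * u * t⁻¹) → Commute t u

/-- An element which moves two far apart points by little is trivial or loxodromic. -/
def Thin (Q : Type) [Group Q] [MulAction Q V] (θ A : ℕ) : Prop :=
  ∀ (g : Q) (x y : V), X.d x (g • x) ≤ θ → X.d y (g • y) ≤ θ → A ≤ X.d x y →
    g = 1 ∨ 0 < X.tau g

/-- The points whose displacement is close to the stable translation length. -/
def Ax {Q : Type} [Group Q] [MulAction Q V] (g : Q) (η : ℕ) : Set V :=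
  {a | (X.d a (g • a) : ℝ) ≤ X.tau g + η}

end Defs

/-- The inductive hypothesis, relative version. -/
structure GoodR (Q V : Type) [Group Q] [MulAction Q V] (X : GM V) (δ A : ℕ) (τ₀ : ℝ) :
    Prop where
  ne : Nonempty V
  inv : X.Inv Q
  four : X.Four δ
  dich : ∀ g : Q, Ell X g ∨ τ₀ ≤ X.tau g
  noinv : ∀ t : Q, t ^ 2 = 1 → t = 1
  cyc : CycL X Q
  mal : MalL X Q
  acyl : X.Acyl Q (12 * δ) A
  thin : Thin X Q (12 * δ) A

/-- Further properties of the quotient geometry: the lines of the quotient are the images of the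
lines, and small angles stay small. -/
structure IsQuoP {Q V I : Type} [Group Q] [MulAction Q V] [MulAction Q I] {X : GM V} {L : ℕ}
    (F : Fam Q V I X L) {R W J : Type} [Group R] [MulAction R W] [MulAction R J]
    (π : Q →* R) (A : AG R W J L) (φ : V → W) (ψ : I → J) : Prop where
  quo : IsQuo F π A φ
  ψ_surj : Function.Surjective ψ
  ψ_smul : ∀ (g : Q) i, ψ (g • i) = π g • ψ i
  ψ_eq : ∀ i j, ψ i = ψ j → ∃ k : Q, π k = 1 ∧ j = k • i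
  Y_mem : ∀ i, ∀ p ∈ F.Y i, φ p ∈ A.Y (ψ i)
  Y_lift : ∀ i, ∀ w ∈ A.Y (ψ i), ∃ p ∈ F.Y i, φ p = w
  ang_le : ∀ (Θ : ℝ) (p q : V), (∀ i, |F.c i p - F.c i q| ≤ Θ) → 0 ≤ Θ →
    Θ ≤ (9 * 10 ^ 7 : ℝ) * L → ∀ l, A.ang l (φ p) (φ q) ≤ Θ + 1000 * L

/-- The geometry of the quotient, with the further properties. -/
def S_quoP : Prop := ∀ (Q V I : Type) [Group Q] [MulAction Q V] [MulAction Q I] (X : GM V)
  (L : ℕ) (F : Fam Q V I X L) (E : GM V), Nonempty V → X.Inv Q → 1 ≤ L → F.IsEl E →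
  F.Ind Q (MonoidHom.id Q) (fun i => Subgroup.zpowers (F.gen i ^ F.mu i)) →
  ∃ (W J : Type) (_ : MulAction (Q ⧸ F.K) W) (_ : MulAction (Q ⧸ F.K) J)
    (A : AG (Q ⧸ F.K) W J L) (φ : V → W) (ψ : I → J), IsQuoP F (QuotientGroup.mk' F.K) A φ ψ

/-- Criterion for loxodromic elements, almost fixed points, and the logarithmic lemma. -/
def S_basic : Prop := ∀ (Q V : Type) [Group Q] [MulAction Q V] (X : GM V) (δ : ℕ),
  X.Inv Q → X.Four δ →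
  (∀ (h : Q) (x : V),
    (X.d x ((h ^ 2) • x) : ℝ) - X.d x (h • x) - δ ≤ X.tau h) ∧
  (∀ H : Subgroup Q, Bdd X H → ∃ p : V, ∀ h ∈ H, X.d p (h • p) ≤ 2 * δ + 1) ∧
  (∀ g : Q, Ell X g → X.tau g = 0) ∧
  (∀ (m θ e : ℕ) (z : ℕ → V) (a : V), (∀ k, X.d (z k) (z (k + 1)) ≤ θ) →
    X.d (z 0) a + X.d a (z (2 ^ m)) ≤ X.d (z 0) (z (2 ^ m)) + e →
    ∃ k, k ≤ 2 ^ m ∧ 2 * X.d a (z k) ≤ θ + e + m * δ)

/-- Thinness and acylindricity at all scales. -/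
def S_scale : Prop := ∀ (Q V : Type) [Group Q] [MulAction Q V] (X : GM V) (δ A : ℕ),
  X.Inv Q → X.Four δ → Thin X Q (12 * δ) A →
  (∀ D : ℕ, Thin X Q D (A + 20 * D + 40 * δ)) ∧
  (CycL X Q → MalL X Q → X.Acyl Q (12 * δ) A → ∀ D : ℕ, X.Acyl Q D (A + 20 * D + 40 * δ))

/-- The family of axes of a conjugation invariant set of primitive loxodromic elements (short or
long) whose axes have bounded overlaps. -/
def S_linesG : Prop := ∀ (Q V : Type) [Group Q] [MulAction Q V] (X : GM V) (δ Δ L : ℕ)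
  (P : Q → Prop) (m : Q → ℕ), X.Inv Q → X.Four δ → 1 ≤ δ → Δ + 3000 * δ ≤ L →
  (∀ g s, P g → P (s * g * s⁻¹) ∧ m (s * g * s⁻¹) = m g) →
  (∀ g, P g → 0 < X.tau g ∧
    (∀ t : Q, t * g * t⁻¹ ∈ Subgroup.zpowers g → t ∈ Subgroup.zpowers g) ∧
    (10 ^ 9 : ℝ) * L ≤ m g * X.tau g) →
  (∀ g g', P g → P g' → Subgroup.zpowers g ≠ Subgroup.zpowers g' →
    ∀ a b, a ∈ Ax X g (1500 * δ) → b ∈ Ax X g (1500 * δ) → a ∈ Ax X g' (1500 * δ) →
      b ∈ Ax X g' (1500 * δ) → X.d a b ≤ Δ) →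
  ∃ (I : Type) (_ : MulAction Q I) (F : Fam Q V I X L),
    (∀ i, P (F.gen i) ∧ F.mu i = m (F.gen i)) ∧ ∀ g, P g → ∃ i, g = F.gen i ∨ g = (F.gen i)⁻¹

/-- Facts on a family of lines: translation length, thickness of the almost fixed sets of the
stabilisers, small angles along orbits of the other elements, and the Behrstock inequality. -/
def S_fam : Prop := ∀ (Q V I : Type) [Group Q] [MulAction Q V] [MulAction Q I] (X : GM V)
  (δ L : ℕ) (F : Fam Q V I X L), X.Inv Q → X.Four δ → δ ≤ L →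
  (∀ i, X.tau (F.gen i) = F.tr i) ∧
  (∀ (i : I) (u : Q), u • i = i → u ≠ 1 → F.tr i ≤ X.tau u) ∧
  (∀ (i : I) (u : Q) (p : V), u • i = i → |F.c i (u • p) - F.c i p| = X.tau u) ∧
  (∀ (i j : I) (u : Q), i ≠ j → u • i = i → u • j = j → u = 1) ∧
  (∀ (i : I) (u : Q) (p : V) (θ m : ℕ), u • i = i → (L : ℝ) < 2 ^ m * X.tau u →
    X.d p (u • p) ≤ θ → ∃ y ∈ F.Y i, 2 * X.d p y ≤ θ + L + m * δ) ∧
  (∀ (i : I) (u : Q) (p : V) (θ : ℕ) (k : ℤ), u • i ≠ i → X.d p (u • p) ≤ θ →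
    |F.c i p - F.c i ((u ^ k) • p)| ≤ 2 * θ + 15 * L) ∧
  (∀ i j, i ≠ j → ∀ y ∈ F.Y j, ∀ y' ∈ F.Y i, ∀ z,
    |F.c i y - F.c i z| ≤ 10 * L ∨ |F.c j y' - F.c j z| ≤ 10 * L)

/-- Pairs of points with small angles: distances are comparable; loxodromic elements of small
displacement which fix no line stay loxodromic. -/
def S_persist : Prop := ∀ (Q V I : Type) [Group Q] [MulAction Q V] [MulAction Q I] (X : GM V)
  (δ L : ℕ) (F : Fam Q V I X L) (R W J : Type) [Group R] [MulAction R W] [MulAction R J]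
  (π : Q →* R) (A : AG R W J L) (φ : V → W) (ψ : I → J), X.Inv Q → X.Four δ → δ ≤ L →
  IsQuoP F π A φ ψ →
  (∀ (Ω : ℝ) (p q : V), 0 ≤ Ω → Ω ≤ (49 * 10 ^ 6 : ℝ) * L → (∀ i, |F.c i p - F.c i q| ≤ Ω) →
    (X.d p q : ℝ) ≤ (Ω + 2000 * L) * (A.Z.d (φ p) (φ q) + 1)) ∧
  (∀ (u : Q) (p : V) (θ : ℕ), θ ≤ 24 * 10 ^ 6 * L → X.d p (u • p) ≤ θ → (∀ i : I, u • i ≠ i) →
    X.tau u ≤ (2 * θ + 2015 * L) * A.Z.tau (π u)) ∧
  (∀ (k : Q) (p : V), π k = 1 → X.d p (k • p) ≤ 99 * 10 ^ 6 * L → k = 1) ∧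
  (∀ (i : I) (g : R), g • ψ i = ψ i ↔ g ∈ Subgroup.zpowers (π (F.gen i))) ∧
  (∀ i, orderOf (π (F.gen i)) = F.mu i) ∧
  (∀ H : Subgroup Q, Bdd X H → Bdd A.Z (H.map π)) ∧
  (∀ (H : Subgroup R) (l : J), (∀ h ∈ H, h • l = l) → Bdd A.Z H)

/-- Elliptic subgroups: going down (lifting) and going up; conjugacies lift. -/
def S_bdd : Prop := ∀ (Q V I : Type) [Group Q] [MulAction Q V] [MulAction Q I] (X : GM V)
  (δ L : ℕ) (F : Fam Q V I X L) (R W J : Type) [Group R] [MulAction R W] [MulAction R J]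
  (π : Q →* R) (A : AG R W J L) (φ : V → W) (ψ : I → J), X.Inv Q → X.Four δ → 2 * δ + 1 ≤ L →
  IsQuoP F π A φ ψ →
  (∀ H : Subgroup R, Bdd A.Z H → (∃ i, H ≤ Subgroup.zpowers (π (F.gen i))) ∨
    ∃ H' : Subgroup Q, Bdd X H' ∧ H'.map π = H) ∧
  (∀ H' : Subgroup Q, Bdd X H' → ∀ h ∈ H', h ≠ 1 → π h ≠ 1 ∧ ∀ l : J, π h • l ≠ l) ∧
  (∀ (H₁ H₂ : Subgroup Q) (t : R) (u u' : Q), Bdd X H₁ → Bdd X H₂ → u ∈ H₁ → u' ∈ H₂ → u ≠ 1 →
    t * π u * t⁻¹ = π u' → ∃ s : Q, π s = t ∧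
      ∀ h ∈ H₁, ∀ h' ∈ H₂, t * π h * t⁻¹ = π h' → s * h * s⁻¹ = h') ∧
  (∀ (f t : R) (l : J), f ≠ 1 → f • l = l → Commute f (t * f * t⁻¹) → t • l = l)

/-- Classification of the elements of the quotient. -/
def S_triR : Prop := ∀ (Q V I : Type) [Group Q] [MulAction Q V] [MulAction Q I] (X : GM V)
  (L : ℕ) (F : Fam Q V I X L) (R W J : Type) [Group R] [MulAction R W] [MulAction R J]
  (π : Q →* R) (A : AG R W J L) (φ : V → W), X.Inv Q → IsQuo F π A φ →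
  ∀ τ₁ : ℝ, 0 < τ₁ → τ₁ ≤ 1 →
  (∀ g : Q, Ell X g ∨ (∃ i, g ∈ Subgroup.zpowers (F.gen i)) ∨ τ₁ ≤ X.tau g) →
  ∀ g : R, Ell A.Z g ∨ τ₁ / (15000 * L) ≤ A.Z.tau g

/-- Thinness of the quotient. -/
def S_thinq : Prop := ∀ (Q V I : Type) [Group Q] [MulAction Q V] [MulAction Q I] (X : GM V)
  (δ L m : ℕ) (F : Fam Q V I X L) (R W J : Type) [Group R] [MulAction R W] [MulAction R J]
  (π : Q →* R) (A : AG R W J L) (φ : V → W) (ψ : I → J), X.Inv Q → X.Four δ → δ ≤ L →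
  IsQuoP F π A φ ψ → (∀ D : ℕ, Thin X Q D (L + 20 * D)) →
  (∀ i, (L : ℝ) < 2 ^ m * F.tr i) → m * δ ≤ L → Thin A.Z R (12 * 122) (10 ^ 9)

/-- Centralisers of loxodromic elements of the quotient are commutative. -/
def S_loxqR : Prop := ∀ (Q V I : Type) [Group Q] [MulAction Q V] [MulAction Q I] (X : GM V)
  (L : ℕ) (F : Fam Q V I X L) (R W J : Type) [Group R] [MulAction R W] [MulAction R J]
  (π : Q →* R) (A : AG R W J L) (φ : V → W), X.Inv Q → IsQuo F π A φ →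
  (∀ D : ℕ, X.Acyl Q D (L + 20 * D)) → (∀ D : ℕ, ∃ B : ℕ, Thin A.Z R D B) →
  ∀ u : R, 0 < A.Z.tau u →
  (∀ a b : R, Commute a u → Commute b u → Commute a b) ∧
  ∀ f : R, Commute f u → f ≠ 1 → 0 < A.Z.tau f

/-- One step of small cancellation, relative version. -/
def S_stepR : Prop := ∀ (Q V I : Type) [Group Q] [MulAction Q V] [MulAction Q I] (X : GM V)
  (δ A₀ L m : ℕ) (τ₀ τ₁ : ℝ) (F : Fam Q V I X L) (R W J : Type) [Group R] [MulAction R W]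
  [MulAction R J] (π : Q →* R) (A : AG R W J L) (φ : V → W) (ψ : I → J),
  GoodR Q V X δ A₀ τ₀ → (∀ i, Odd (F.mu i)) → A₀ + 40 * δ + 1 ≤ L →
  (L : ℝ) < 2 ^ m * τ₀ → m * δ ≤ L → 0 < τ₁ → τ₁ ≤ 1 →
  (∀ g : Q, Ell X g ∨ (∃ i, g ∈ Subgroup.zpowers (F.gen i)) ∨ τ₁ ≤ X.tau g) →
  IsQuoP F π A φ ψ → GoodR R W A.Z 122 (10 ^ 9) (τ₁ / (15000 * L))

/-- Actions on trees and on block graphs. -/
def S_base0 : Prop := ∀ (Q V : Type) [Group Q] [MulAction Q V] (X : GM V) (k : ℕ),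
  Nonempty V → X.Inv Q → X.Four 0 →
  (∀ (g : Q) (x y : V), X.d x (g • x) = 0 → X.d y (g • y) = 0 → k ≤ X.d x y → g = 1) →
  (∀ t : Q, t ^ 2 = 1 → t = 1) →
  ∀ δ A : ℕ, k + 240 * δ ≤ A → GoodR Q V X δ A 1

/-- Free products: the metric given by the sum of the lengths of the syllables. -/
def S_coprod : Prop := ∀ (ι : Type) (M : ι → Type) [∀ i, Group (M i)] (X : ∀ i, GM (M i)),
  (∀ i, (X i).Inv (M i)) → (∀ i, (X i).Four 0) → (∀ i x y, (X i).d x y = 0 → x = y) →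
  ∃ Z : GM (Monoid.CoprodI M), Z.Inv (Monoid.CoprodI M) ∧ Z.Four 0 ∧
    (∀ x y, Z.d x y = 0 → x = y) ∧
    (∀ i (x y : M i), Z.d (Monoid.CoprodI.of x) (Monoid.CoprodI.of y) = (X i).d x y) ∧
    (∀ g, Z.d 1 g = 1 → ∃ (i : ι) (x : M i), g = Monoid.CoprodI.of x) ∧
    (∀ H : Subgroup (Monoid.CoprodI M), Bdd Z H → H = ⊥ ∨ ∃ (i : ι) (s : Monoid.CoprodI M),
      ∀ h ∈ H, ∃ x : M i, h = s * Monoid.CoprodI.of x * s⁻¹ ∧ (X i).d 1 x ≤ 1) ∧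
    ((∀ i (t : M i), t ^ 2 = 1 → t = 1) → ∀ t : Monoid.CoprodI M, t ^ 2 = 1 → t = 1)

/-- Chains of long segments of lines. -/
def S_chain : Prop := ∀ (Q V I : Type) [Group Q] [MulAction Q V] [MulAction Q I] (X : GM V)
  (δ L : ℕ) (F : Fam Q V I X L), X.Inv Q → X.Four δ → δ ≤ L →
  ∀ (D : ℕ) (ln : ℤ → I) (z : ℤ → V), L ≤ D → 1 ≤ D → (∀ j, ln j ≠ ln (j + 1)) →
  (∀ j, z j ∈ F.Y (ln j) ∧ ∃ y ∈ F.Y (ln j), X.d y (z (j + 1)) ≤ D) →
  (∀ j, (100 : ℝ) * D ≤ |F.c (ln j) (z j) - F.c (ln j) (z (j + 1))|) →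
  (∀ a j, a < j → ∀ y ∈ F.Y (ln a), |F.c (ln j) y - F.c (ln j) (z j)| ≤ 15 * D) ∧
  (∀ j b, j < b → ∀ y ∈ F.Y (ln b), |F.c (ln j) y - F.c (ln j) (z (j + 1))| ≤ 15 * D) ∧
  (∀ a b i, a ≤ b → (∀ j, a ≤ j → j < b → i ≠ ln j) → |F.c i (z a) - F.c i (z b)| ≤ 40 * D) ∧
  (∀ a j b, a < j → j < b → ∀ y ∈ F.Y (ln a), ∀ y' ∈ F.Y (ln b),
    X.d y (z j) + X.d (z j) y' ≤ X.d y y' + 50 * D)

/-- Small cancellation words in a coset of a non-elementary subgroup. -/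
def S_words : Prop := ∀ (Q V : Type) [Group Q] [MulAction Q V] (X : GM V) (δ A D W m K : ℕ),
  X.Inv Q → X.Four δ → 1 ≤ δ → CycL X Q → MalL X Q →
  (∀ D' : ℕ, X.Acyl Q D' (A + 20 * D' + 40 * δ)) →
  ∀ (x y a : Q) (p : V), 0 < X.tau x → ¬ Commute x y →
  X.d p (x • p) ≤ D → X.d p (y • p) ≤ D → X.d p (a • p) ≤ D →
  A + 20 * D + 40000 * δ ≤ W → (W : ℝ) < 2 ^ m * X.tau x → m * δ ≤ W → 100 ≤ K →
  ∃ w ∈ Subgroup.closure ({x, y} : Set Q),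
    (1000 : ℝ) * K ^ 2 * W ≤ X.tau (a * w) ∧
    ∀ (s : Q) (b b' : V), b ∈ Ax X (a * w) (1500 * δ) → b' ∈ Ax X (a * w) (1500 * δ) →
      s • b ∈ Ax X (a * w) (1500 * δ) → s • b' ∈ Ax X (a * w) (1500 * δ) →
      10 ^ 6 * K * W ≤ X.d b b' → s ∈ Subgroup.zpowers (a * w)

/-- The family of lines of one long relator in a coset of a non-elementary subgroup. -/
def S_wordsF : Prop := ∀ (Q V : Type) [Group Q] [MulAction Q V] (X : GM V) (δ A D W m L : ℕ),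
  X.Inv Q → X.Four δ → 1 ≤ δ → CycL X Q → MalL X Q →
  (∀ D' : ℕ, X.Acyl Q D' (A + 20 * D' + 40 * δ)) →
  ∀ (x y a : Q) (p : V), 0 < X.tau x → ¬ Commute x y →
  X.d p (x • p) ≤ D → X.d p (y • p) ≤ D → X.d p (a • p) ≤ D →
  A + 20 * D + 40000 * δ ≤ W → (W : ℝ) < 2 ^ m * X.tau x → m * δ ≤ W → L = 4 * 10 ^ 18 * W →
  ∃ w ∈ Subgroup.closure ({x, y} : Set Q), (10 ^ 9 : ℝ) * L ≤ X.tau (a * w) ∧
    ∃ (I : Type) (_ : MulAction Q I) (F : Fam Q V I X L),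
      (∀ i, F.mu i = 1 ∧ ∃ s : Q, F.gen i = s * (a * w) * s⁻¹) ∧
      F.K = Subgroup.normalClosure {a * w}

/-- The quotient geometry exists. -/
def S_pack : Prop := ∀ (Q V I : Type) [Group Q] [MulAction Q V] [MulAction Q I] (X : GM V)
  (δ L : ℕ) (F : Fam Q V I X L), Nonempty V → X.Inv Q → X.Four δ → 2 * δ ≤ L → 1 ≤ L →
  ∃ (W J : Type) (_ : MulAction (Q ⧸ F.K) W) (_ : MulAction (Q ⧸ F.K) J)
    (A : AG (Q ⧸ F.K) W J L) (φ : V → W) (ψ : I → J), IsQuoP F (QuotientGroup.mk' F.K) A φ ψ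

/-- The discrete metric on a group, and the line. -/
def S_clique : Prop :=
  (∀ (M : Type) [Group M], ∃ X : GM M, X.Inv M ∧ X.Four 0 ∧ (∀ x y, X.d x y = 0 → x = y) ∧
    ∀ x y, X.d x y ≤ 1) ∧
  ∃ X : GM (Multiplicative ℤ), X.Inv (Multiplicative ℤ) ∧ X.Four 0 ∧
    ∀ x y, X.d x y = (Multiplicative.toAdd x - Multiplicative.toAdd y).natAbs

end Pool.Agent.SCZ.Geo
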