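import Pool.Agent.SCZ.Geo.Rel

set_option autoImplicit false

namespace Pool.Agent.SCZ.Geo

open Pool.Agent.H59Z.NA

namespace Twords

variable {Q V I : Type} [Group Q] [MulAction Q V] [MulAction Q I] {X : GM V} {W : ℕ}
  (F : Fam Q V I X W)

/-- hypotheses of a chain -/
def Hy (T : ℝ) (ln : ℤ → I) (z : ℤ → V) : Prop :=
  (∀ j, ln j ≠ ln (j + 1)) ∧
  (∀ j, z j ∈ F.Y (ln j) ∧ ∃ y ∈ F.Y (ln j), X.d y (z (j + 1)) ≤ 5 * W) ∧
  ∀ j, T ≤ |F.c (ln j) (z j) - F.c (ln j) (z (j + 1))|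

/-- conclusions for a chain -/
structure Co (T : ℝ) (ln : ℤ → I) (z : ℤ → V) : Prop where
  mem : ∀ j, z j ∈ F.Y (ln j)
  c1 : ∀ a j, a ≤ j → |F.c (ln j) (z a) - F.c (ln j) (z j)| ≤ 75 * W
  c2 : ∀ j b, j < b → |F.c (ln j) (z b) - F.c (ln j) (z (j + 1))| ≤ 75 * W
  c3 : ∀ a b i, a ≤ b → (∀ j, a ≤ j → j < b → i ≠ ln j) → |F.c i (z a) - F.c i (z b)| ≤ 200 * W
  c4 : ∀ a j b, a < j → j < b → ∀ y ∈ F.Y (ln a), ∀ y' ∈ F.Y (ln b),
    (X.d y (z j) : ℝ) + X.d (z j) y' ≤ X.d y y' + 250 * W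
  low : ∀ j, T - W ≤ X.d (z j) (z (j + 1))

variable {F}

theorem Hy.smul (hI : X.Inv Q) {T : ℝ} {ln : ℤ → I} {z : ℤ → V} (h : Hy F T ln z) (t : Q) :
    Hy F T (fun j => t • ln j) (fun j => t • z j) := by
  refine ⟨fun j hj => h.1 j (MulAction.injective t hj), fun j => ⟨(F.Y_smul _ _ _).2 (h.2.1 j).1, ?_⟩,
    fun j => ?_⟩
  · obtain ⟨y, hy, hd⟩ := (h.2.1 j).2
    exact ⟨t • y, (F.Y_smul _ _ _).2 hy, by rw [hI]; exact hd⟩
  · simp only [F.c_smul]
    exact h.2.2 j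

theorem Hy.co (hc : S_chain) {δ : ℕ} (hI : X.Inv Q) (hF : X.Four δ) (hδ : δ ≤ W) (hW : 1 ≤ W)
    {T : ℝ} (hT : 500 * (W : ℝ) ≤ T) {ln : ℤ → I} {z : ℤ → V} (h : Hy F T ln z) :
    Co F T ln z := by
  obtain ⟨c1, c2, c3, c4⟩ := hc Q V I X δ W F hI hF hδ (5 * W) ln z (by omega) (by omega) h.1 h.2.1
    (fun j => le_trans (by push_cast; linarith) (h.2.2 j))
  have hW0 : (0 : ℝ) ≤ W := Nat.cast_nonneg _
  refine ⟨fun j => (h.2.1 j).1, fun a j haj => ?_, fun j b hjb => ?_, fun a b i hab hi => ?_,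
    fun a j b h1 h2 y hy y' hy' => ?_, fun j => ?_⟩
  · rcases haj.eq_or_lt with rfl | haj
    · simp
    · have := c1 a j haj _ (h.2.1 a).1
      push_cast at this
      linarith
  · have := c2 j b hjb _ (h.2.1 b).1
    push_cast at this
    linarith
  · have := c3 a b i hab hi
    push_cast at this
    linarith
  · have : ((X.d y (z j) + X.d (z j) y' : ℕ) : ℝ) ≤ ((X.d y y' + 50 * (5 * W) : ℕ) : ℝ) := by
      exact_mod_cast c4 a j b h1 h2 y hy y' hy'
    push_cast at this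
    linarith
  · have h1 := h.2.2 j
    have h2 := F.lip (ln j) (z j) (z (j + 1))
    linarith

theorem Co.grow {T : ℝ} {ln : ℤ → I} {z : ℤ → V} (h : Co F T ln z) (a : ℤ) (n : ℕ) :
    n * (T - 251 * W) ≤ X.d (z a) (z (a + n)) := by
  have hW0 : (0 : ℝ) ≤ W := Nat.cast_nonneg _
  induction n with
  | zero => simp
  | succ n ih =>
    have h1 := h.low (a + n)
    rcases Nat.eq_zero_or_pos n with rfl | hn
    · simp only [Nat.cast_zero, add_zero, zero_add, Nat.cast_one, one_mul] at h1 ⊢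
      linarith
    · have h2 := h.c4 a (a + n) (a + n + 1) (by omega) (by omega) _ (h.mem a) _ (h.mem _)
      push_cast
      rw [← add_assoc]
      linarith

theorem Co.grow' {T : ℝ} {ln : ℤ → I} {z : ℤ → V} (h : Co F T ln z) (hT : 251 * (W : ℝ) ≤ T)
    (a b : ℤ) (n : ℕ) (hab : a + n ≤ b) : n * (T - 251 * W) ≤ X.d (z a) (z b) := by
  obtain ⟨m, rfl⟩ : ∃ m : ℕ, b = a + m := ⟨(b - a).toNat, by omega⟩
  refine le_trans ?_ (h.grow a m)
  have : (n : ℝ) ≤ m := by exact_mod_cast (show n ≤ m by omega)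
  exact mul_le_mul_of_nonneg_right this (by linarith)

theorem Co.far {T : ℝ} {ln : ℤ → I} {z : ℤ → V} (h : Co F T ln z) {a b : ℤ} (hab : a + 2 < b)
    {y y' : V} (hy : y ∈ F.Y (ln a)) (hy' : y' ∈ F.Y (ln b)) : T - 501 * W ≤ X.d y y' := by
  have h1 := h.c4 a (a + 1) b (by omega) (by omega) y hy y' hy'
  have h2 := h.c4 (a + 1) (a + 1 + 1) b (by omega) (by omega) _ (h.mem _) y' hy'
  have h3 := h.low (a + 1)
  have h4 : (0 : ℝ) ≤ X.d y (z (a + 1)) := Nat.cast_nonneg _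
  have h5 : (0 : ℝ) ≤ X.d (z (a + 1 + 1)) y' := Nat.cast_nonneg _
  linarith

theorem up (z : ℤ → V) (l : ℝ) (h : ∀ j, (X.d (z j) (z (j + 1)) : ℝ) ≤ l) (a : ℤ) (n : ℕ) :
    (X.d (z a) (z (a + n)) : ℝ) ≤ n * l := by
  induction n with
  | zero => simp [X.self]
  | succ n ih =>
    have h1 : (X.d (z a) (z (a + n + 1)) : ℝ) ≤ X.d (z a) (z (a + n)) +
        X.d (z (a + n)) (z (a + n + 1)) := by exact_mod_cast X.tri _ _ _
    have h2 := h (a + n)
    push_cast
    rw [← add_assoc]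
    linarith

theorem per {α : Type} [MulAction Q α] (z : ℤ → α) (r : Q) (K : ℕ)
    (h : ∀ j, z (j + K) = r • z j) (j n : ℤ) : z (j + n * K) = r ^ n • z j := by
  induction n using Int.induction_on with
  | zero => simp
  | succ n ih =>
    rw [show j + (n + 1) * K = j + n * K + K by ring, h, ih, ← mul_smul, ← zpow_one_add, add_comm]
  | pred n ih =>
    have h1 := h (j + (-n - 1) * K)
    rw [show j + (-n - 1) * K + K = j + -n * K by ring, ih] at h1
    rw [show (-(n : ℤ) - 1) = -1 + -n by ring] at h1 ⊢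
    rw [zpow_add, mul_smul, h1, zpow_neg_one, inv_smul_smul]

theorem fourR {δ : ℕ} (hF : X.Four δ) (x y z w : V) :
    (X.d x y : ℝ) + X.d z w ≤ X.d x z + X.d y w + δ ∨
      (X.d x y : ℝ) + X.d z w ≤ X.d x w + X.d y z + δ := by
  have := hF x y z w
  rcases le_total (X.d x z + X.d y w) (X.d x w + X.d y z) with h | h
  · right; rw [max_eq_right h] at this; exact_mod_cast this
  · left; rw [max_eq_left h] at this; exact_mod_cast this

theorem commR (x y : V) : (X.d x y : ℝ) = X.d y x := by rw [X.comm]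

theorem triR (x y z : V) : (X.d x z : ℝ) ≤ X.d x y + X.d y z := by exact_mod_cast X.tri x y z

theorem nearAx {δ K : ℕ} (hI : X.Inv Q) (hF : X.Four δ) (hδ : 40000 * δ ≤ W) (hK : 100 ≤ K)
    (hW : 1 ≤ W) {ln : ℤ → I} {z : ℤ → V} (h : Co F (2000 * (K * W) - 6 * W) ln z) (r : Q)
    (hz : ∀ j, z (j + K) = r • z j) (hup : ∀ j, (X.d (z j) (z (j + 1)) : ℝ) ≤ 3001 * (K * W))
    (ht : ∀ x, X.tau r ≤ X.d x (r • x)) (b : V) (hb : b ∈ Ax X r (1500 * δ)) :
    ∃ j, (X.d b (z j) : ℝ) ≤ 3002 * (K * W) := by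
  classical
  have hex : ∃ ρ : ℕ, ∃ j, X.d b (z j) = ρ := ⟨_, 0, rfl⟩
  obtain ⟨j, hj⟩ := Nat.find_spec hex
  have hmin : ∀ i, (X.d b (z j) : ℝ) ≤ X.d b (z i) := fun i => by
    have := Nat.find_min' hex ⟨i, rfl⟩
    rw [← hj] at this
    exact_mod_cast this
  refine ⟨j, ?_⟩
  have hW1 : (1 : ℝ) ≤ W := by exact_mod_cast hW
  have hδ' : 40000 * (δ : ℝ) ≤ W := by exact_mod_cast hδ
  have hδ0 : (0 : ℝ) ≤ δ := Nat.cast_nonneg _
  have hK' : (100 : ℝ) ≤ K := by exact_mod_cast hK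
  have hKW : 100 * (W : ℝ) ≤ K * W := by nlinarith
  have hb' : (X.d b (r • b) : ℝ) ≤ X.tau r + 1500 * δ := by
    have : (X.d b (r • b) : ℝ) ≤ X.tau r + ((1500 * δ : ℕ) : ℝ) := hb
    push_cast at this
    exact this
  have hN := ht (z j)
  rw [← hz] at hN
  have g1 := h.grow' (by linarith) j (j + K) 4 (by omega)
  push_cast at g1
  have a1 := h.c4 j (j + 1) (j + K) (by omega) (by omega) _ (h.mem _) _ (h.mem _)
  have a2 := h.c4 j (j + K - 1) (j + K) (by omega) (by omega) _ (h.mem _) _ (h.mem _)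
  have l1 := h.low j
  have l2 := h.low (j + K - 1)
  have u1 := hup j
  have u2 := hup (j + K - 1)
  rw [show j + K - 1 + 1 = j + K by ring] at l2 u2
  have m1 := hmin (j + 1)
  have m2 : (X.d b (z j) : ℝ) ≤ X.d (r • b) (z (j + K - 1)) := by
    rw [show j + K - 1 = j - 1 + K by ring, hz, hI]; exact hmin _
  have m3 : (X.d (r • b) (z (j + K)) : ℝ) = X.d b (z j) := by rw [hz, hI]
  have f1 := fourR hF b (z (j + 1)) (z j) (z (j + K))
  have f2 := fourR hF (r • b) (z (j + K - 1)) (z (j + K)) (z j)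
  have f3 := fourR hF b (z (j + K)) (r • b) (z j)
  have e1 := commR (X := X) (z (j + 1)) (z j)
  have e2 := commR (X := X) (z (j + K)) (z j)
  have e3 := commR (X := X) (z (j + K - 1)) (z j)
  have e4 := commR (X := X) (z (j + K)) (r • b)
  rcases f1 with f1 | f1
  · linarith
  rcases f2 with f2 | f2
  · linarith
  rcases f3 with f3 | f3 <;> linarith

theorem core (hc : S_chain) {δ K : ℕ} (hI : X.Inv Q) (hF : X.Four δ) (hδ : 40000 * δ ≤ W)
    (hK : 100 ≤ K) (hW : 1 ≤ W) {ln : ℤ → I} {z : ℤ → V}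
    (hy : Hy F (2000 * (K * W) - 6 * W) ln z) (r : Q) (len : ℤ → ℝ)
    (hln : ∀ j, ln (j + K) = r • ln j)
    (hang : ∀ j, |(|F.c (ln j) (z j) - F.c (ln j) (z (j + 1))|) - len j| ≤ 6 * W)
    (hsep : ∀ j t, |len j - len t| ≤ 314 * W → ∃ n : ℤ, t = j + n * K)
    (hup : ∀ j, (X.d (z j) (z (j + 1)) : ℝ) ≤ 3001 * (K * W))
    (f4 : ∀ (i j : I) (u : Q), i ≠ j → u • i = i → u • j = j → u = 1)
    (s : Q) (al be al' be' : ℤ) (hab : al + 12 ≤ be)
    (h1 : (X.d (z al) (s⁻¹ • z al') : ℝ) ≤ 6004 * (K * W))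
    (h2 : (X.d (z be) (s⁻¹ • z be') : ℝ) ≤ 6004 * (K * W)) : s ∈ Subgroup.zpowers r := by
  have hW1 : (1 : ℝ) ≤ W := by exact_mod_cast hW
  have hK' : (100 : ℝ) ≤ K := by exact_mod_cast hK
  have hKW : 100 * (W : ℝ) ≤ K * W := by nlinarith
  have hT : 500 * (W : ℝ) ≤ 2000 * (K * W) - 6 * W := by linarith
  have h := hy.co hc hI hF (by omega) hW hT
  have h' := (hy.smul hI s⁻¹).co hc hI hF (by omega) hW hT
  have key : ∀ j, al + 5 ≤ j → j + 5 < be → ∃ n : ℤ, (s⁻¹ * r ^ n) • ln j = ln j := by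
    intro j hj1 hj2
    have p1 : |F.c (ln j) (z al) - F.c (ln j) (s⁻¹ • z al')| ≤ W := by
      by_contra hcon
      obtain ⟨a, ha, b, -, hd, -⟩ := F.proj _ _ _ (not_le.1 hcon)
      have hd' : (X.d (z al) a : ℝ) ≤ X.d (z al) (s⁻¹ • z al') + W := by
        exact_mod_cast (show X.d (z al) a ≤ X.d (z al) (s⁻¹ • z al') + W by omega)
      have c4 := h.c4 al (j - 1) j (by omega) (by omega) _ (h.mem _) a ha
      have g := h.grow' (by linarith) al (j - 1) 4 (by omega)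
      have : (0 : ℝ) ≤ X.d (z (j - 1)) a := Nat.cast_nonneg _
      push_cast at g
      linarith
    have p2 : |F.c (ln j) (z be) - F.c (ln j) (s⁻¹ • z be')| ≤ W := by
      by_contra hcon
      obtain ⟨a, ha, b, -, hd, -⟩ := F.proj _ _ _ (not_le.1 hcon)
      have hd' : (X.d (z be) a : ℝ) ≤ X.d (z be) (s⁻¹ • z be') + W := by
        exact_mod_cast (show X.d (z be) a ≤ X.d (z be) (s⁻¹ • z be') + W by omega)
      have c4 := h.c4 j (j + 1) be (by omega) (by omega) a ha _ (h.mem _)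
      have g := h.grow' (by linarith) (j + 1) be 4 (by omega)
      have : (0 : ℝ) ≤ X.d a (z (j + 1)) := Nat.cast_nonneg _
      have e := commR (X := X) a (z be)
      push_cast at g
      linarith
    have q1 := h.c1 al j (by omega)
    have q2 := h.c2 j be (by omega)
    have q3 := hy.2.2 j
    have q4 : |(|F.c (ln j) (s⁻¹ • z al') - F.c (ln j) (s⁻¹ • z be')|) -
        (|F.c (ln j) (z j) - F.c (ln j) (z (j + 1))|)| ≤ 152 * W := by
      refine (abs_abs_sub_abs_le_abs_sub _ _).trans ?_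
      rw [abs_le] at p1 p2 q1 q2 ⊢
      constructor <;> linarith [p1.1, p1.2, p2.1, p2.2, q1.1, q1.2, q2.1, q2.2]
    have main : ∀ a b : ℤ, a ≤ b →
        |(|F.c (ln j) (s⁻¹ • z a) - F.c (ln j) (s⁻¹ • z b)|) -
          (|F.c (ln j) (z j) - F.c (ln j) (z (j + 1))|)| ≤ 152 * W →
        ∃ n : ℤ, (s⁻¹ * r ^ n) • ln j = ln j := by
      intro a b hab q
      by_contra hcon
      have q5 := h'.c3 a b (ln j) hab fun t ht1 ht2 ht => by
        apply hcon
        have r1 := h'.c1 a t ht1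
        have r2 := h'.c2 t b ht2
        have r3 := hang t
        have r4 := hang j
        rw [← F.c_smul s⁻¹] at r3
        simp only [← ht] at r1 r2 r3
        have r5 : |(|F.c (ln j) (s⁻¹ • z a) - F.c (ln j) (s⁻¹ • z b)|) -
            (|F.c (ln j) (s⁻¹ • z t) - F.c (ln j) (s⁻¹ • z (t + 1))|)| ≤ 150 * W := by
          refine (abs_abs_sub_abs_le_abs_sub _ _).trans ?_
          rw [abs_le] at r1 r2 ⊢
          constructor <;> linarith [r1.1, r1.2, r2.1, r2.2]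
        obtain ⟨n, hn⟩ := hsep j t (by
          rw [abs_le] at q r3 r4 r5 ⊢
          constructor <;> linarith [q.1, q.2, r3.1, r3.2, r4.1, r4.2, r5.1, r5.2])
        refine ⟨n, ?_⟩
        rw [mul_smul, ← per ln r K hln, ← hn]
        exact ht.symm
      rw [abs_le] at q
      linarith [q.1]
    rcases le_total al' be' with hle | hle
    · exact main _ _ hle q4
    · refine main _ _ hle ?_
      rwa [abs_sub_comm (F.c (ln j) (s⁻¹ • z be'))]
  obtain ⟨n, hn⟩ := key (al + 5) le_rfl (by omega)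
  obtain ⟨n', hn'⟩ := key (al + 5 + 1) (by omega) (by omega)
  set j := al + 5
  by_cases hnn : n' = n
  · subst hnn
    have := f4 _ _ _ (hy.1 j) hn hn'
    exact ⟨n', (inv_mul_eq_one.1 this).symm⟩
  · exfalso
    have h'' := (hy.smul hI (s⁻¹ * r ^ n)).co hc hI hF (by omega) hW hT
    have e1 : (s⁻¹ * r ^ n) • ln (j + 1 + (n' - n) * K) = ln (j + 1) := by
      rw [per ln r K hln, ← mul_smul, mul_assoc, ← zpow_add, add_sub_cancel, hn']
    obtain ⟨y, hy1, hy2⟩ := (hy.2.1 j).2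
    have hy3 : (X.d y (z (j + 1)) : ℝ) ≤ 5 * W := by exact_mod_cast hy2
    have m1 : y ∈ F.Y ((s⁻¹ * r ^ n) • ln j) := by rw [hn]; exact hy1
    have m2 : z (j + 1) ∈ F.Y ((s⁻¹ * r ^ n) • ln (j + 1 + (n' - n) * K)) := by
      rw [e1]; exact h.mem _
    have hK2 : (100 : ℤ) ≤ K := by exact_mod_cast hK
    rcases lt_or_gt_of_ne hnn with hlt | hlt
    · have := h''.far (a := j + 1 + (n' - n) * K) (b := j) (by nlinarith) m2 m1
      have e := commR (X := X) y (z (j + 1))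
      linarith
    · have := h''.far (a := j) (b := j + 1 + (n' - n) * K) (by nlinarith) m1 m2
      linarith

theorem core2 (ht : S_tau) (hc : S_chain) {δ K : ℕ} (hI : X.Inv Q) (hF : X.Four δ)
    (hδ : 40000 * δ ≤ W) (hK : 100 ≤ K) (hW : 1 ≤ W) {ln : ℤ → I} {z : ℤ → V}
    (hy : Hy F (2000 * (K * W) - 6 * W) ln z) (r : Q) (len : ℤ → ℝ)
    (hln : ∀ j, ln (j + K) = r • ln j) (hz : ∀ j, z (j + K) = r • z j)
    (hang : ∀ j, |(|F.c (ln j) (z j) - F.c (ln j) (z (j + 1))|) - len j| ≤ 6 * W)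
    (hsep : ∀ j t, |len j - len t| ≤ 314 * W → ∃ n : ℤ, t = j + n * K)
    (hup : ∀ j, (X.d (z j) (z (j + 1)) : ℝ) ≤ 3001 * (K * W))
    (f4 : ∀ (i j : I) (u : Q), i ≠ j → u • i = i → u • j = j → u = 1) :
    (1000 : ℝ) * K ^ 2 * W ≤ X.tau r ∧
    ∀ (s : Q) (b b' : V), b ∈ Ax X r (1500 * δ) → b' ∈ Ax X r (1500 * δ) →
      s • b ∈ Ax X r (1500 * δ) → s • b' ∈ Ax X r (1500 * δ) →
      10 ^ 6 * K * W ≤ X.d b b' → s ∈ Subgroup.zpowers r := by
  obtain ⟨t1, -, -, -, -, t6, -⟩ := ht Q V X hI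
  have hW1 : (1 : ℝ) ≤ W := by exact_mod_cast hW
  have hK' : (100 : ℝ) ≤ K := by exact_mod_cast hK
  have hKW : 100 * (W : ℝ) ≤ K * W := by nlinarith
  have hT : 500 * (W : ℝ) ≤ 2000 * (K * W) - 6 * W := by linarith
  have h := hy.co hc hI hF (by omega) hW hT
  constructor
  · refine le_trans ?_ (t6 r (z 0) (K * (2000 * (K * W) - 6 * W - 251 * W)) 0 fun m => ?_)
    · have : (1000 : ℝ) * K ^ 2 * W = K * (1000 * (K * W)) := by ring
      rw [this]
      exact mul_le_mul_of_nonneg_left (by linarith) (by linarith)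
    · have g := h.grow 0 (m * K)
      have e := per z r K hz 0 m
      rw [zpow_natCast] at e
      push_cast at g
      rw [e] at g
      rw [add_zero]
      refine le_trans (le_of_eq ?_) g
      ring
  · have near := nearAx hI hF hδ hK hW h r hz hup (fun x => by simpa using t1 r x 1)
    have aux : ∀ (s : Q) (b : V) (al al' : ℤ), (X.d b (z al) : ℝ) ≤ 3002 * (K * W) →
        (X.d (s • b) (z al') : ℝ) ≤ 3002 * (K * W) →
        (X.d (z al) (s⁻¹ • z al') : ℝ) ≤ 6004 * (K * W) := by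
      intro s b al al' h1 h2
      rw [← hI s⁻¹, inv_smul_smul] at h2
      have := triR (X := X) (z al) b (s⁻¹ • z al')
      have := commR (X := X) (z al) b
      linarith
    intro s b b' hb hb' hsb hsb' hd
    obtain ⟨al, h1⟩ := near b hb
    obtain ⟨be, h2⟩ := near b' hb'
    obtain ⟨al', h3⟩ := near _ hsb
    obtain ⟨be', h4⟩ := near _ hsb'
    have hd' : (10 ^ 6 : ℝ) * (K * W) ≤ X.d b b' := by
      rw [← mul_assoc]; exact_mod_cast hd
    have hfar : ∀ a c : ℤ, a ≤ c → c < a + 12 → (X.d (z a) (z c) : ℝ) ≤ 12 * (3001 * (K * W)) := by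
      intro a c h1 h2
      obtain ⟨m, rfl⟩ : ∃ m : ℕ, c = a + m := ⟨(c - a).toNat, by omega⟩
      refine (up z _ hup a m).trans (mul_le_mul_of_nonneg_right ?_ (by linarith))
      exact_mod_cast (show m ≤ 12 by omega)
    have t1 := triR (X := X) b (z al) b'
    have t2 := triR (X := X) (z al) (z be) b'
    have e1 := commR (X := X) (z be) b'
    have e2 := commR (X := X) (z al) (z be)
    by_cases c1 : al + 12 ≤ be
    · exact core hc hI hF hδ hK hW hy r len hln hang hsep hup f4 s al be al' be' c1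
        (aux s b _ _ h1 h3) (aux s b' _ _ h2 h4)
    by_cases c2 : be + 12 ≤ al
    · exact core hc hI hF hδ hK hW hy r len hln hang hsep hup f4 s be al be' al' c2
        (aux s b' _ _ h2 h4) (aux s b _ _ h1 h3)
    exfalso
    rcases le_total al be with c3 | c3
    · have := hfar al be c3 (by omega)
      linarith
    · have := hfar be al c3 (by omega)
      linarith

end Twords

end Pool.Agent.SCZ.Geo
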